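import Mathlib

/-!
A ratio of sines of rational angles, an odd power of which is rational, is rational.
-/

open Complex

namespace Pool.Agent.Lib.MP_9fc4df_co

/-- `(w ^ m - w⁻¹ ^ m) / (w ^ n - w⁻¹ ^ n)` is real when `w` has modulus one. -/
theorem ratio_real {w : ℂ} (hw : ‖w‖ = 1) (m n : ℕ) :
    ∃ y : ℝ, (w ^ m - w⁻¹ ^ m) / (w ^ n - w⁻¹ ^ n) = y := by
  have hconj : (starRingEnd ℂ) w = w⁻¹ := by
    rw [Complex.inv_def, Complex.normSq_eq_norm_sq, hw]
    simp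
  have hconj' : (starRingEnd ℂ) w⁻¹ = w := by
    rw [← hconj, Complex.conj_conj]
  have h : (starRingEnd ℂ) ((w ^ m - w⁻¹ ^ m) / (w ^ n - w⁻¹ ^ n)) =
      (w ^ m - w⁻¹ ^ m) / (w ^ n - w⁻¹ ^ n) := by
    rw [map_div₀, map_sub, map_sub, map_pow, map_pow, map_pow, map_pow, hconj, hconj',
      ← neg_sub (w ^ m), ← neg_sub (w ^ n), neg_div_neg_eq]
  obtain ⟨y, hy⟩ := Complex.conj_eq_iff_real.1 h
  exact ⟨y, hy⟩

theorem sin_ratio_aux {K : Type*} [Field K] [Algebra ℚ K] [IsGalois ℚ K] [FiniteDimensional ℚ K]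
    (φ : K →ₐ[ℚ] ℂ) {N : ℕ} (hN : 0 < N) (z' : K) (hz1 : z' ^ (2 * N) = 1)
    (hφz' : φ z' = exp ((Real.pi / N : ℝ) * I)) (m n : ℕ) (x : ℝ)
    (hx : x = Real.sin (m * (Real.pi / N)) / Real.sin (n * (Real.pi / N))) {d : ℕ} (hd : Odd d)
    {q : ℚ} (hq : x ^ d = q) : ∃ q' : ℚ, x = q' := by
  have hφinj : Function.Injective φ := φ.injective
  obtain ⟨X, hX⟩ : ∃ X : K, X = (z' ^ m - z'⁻¹ ^ m) / (z' ^ n - z'⁻¹ ^ n) := ⟨_, rfl⟩
  have hpow : ∀ l : ℕ, (φ z') ^ l - (φ z')⁻¹ ^ l =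
      2 * I * (Real.sin (l * (Real.pi / N)) : ℂ) := by
    intro l
    rw [hφz', ← Complex.exp_neg, ← Complex.exp_nat_mul, ← Complex.exp_nat_mul]
    have h1 : (l : ℂ) * (((Real.pi / N : ℝ) : ℂ) * I) = ((l * (Real.pi / N) : ℝ) : ℂ) * I := by
      push_cast; ring
    have h2 : (l : ℂ) * -(((Real.pi / N : ℝ) : ℂ) * I) =
        (-(l * (Real.pi / N)) : ℝ) * I := by
      push_cast; ring
    rw [h1, h2, Complex.exp_mul_I, Complex.exp_mul_I]
    push_cast
    rw [Complex.cos_neg, Complex.sin_neg]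
    ring
  have hφX : φ X = x := by
    rw [hX, map_div₀, map_sub, map_sub, map_pow, map_pow, map_pow, map_pow, map_inv₀, hpow,
      hpow, hx]
    push_cast
    rw [mul_div_mul_left _ _ (mul_ne_zero two_ne_zero I_ne_zero)]
  have hXd : X ^ d = algebraMap ℚ K q := by
    apply hφinj
    rw [map_pow, hφX, AlgHom.commutes]
    have : ((x ^ d : ℝ) : ℂ) = (q : ℝ) := by rw [hq]
    push_cast at this
    rw [this]
    simp
  have hfix : ∀ σ : Gal(K/ℚ), σ X = X := by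
    intro σ
    apply hφinj
    have hwn : ‖φ (σ z')‖ = 1 := by
      have h1 : (φ (σ z')) ^ (2 * N) = 1 := by
        rw [← map_pow, ← map_pow, hz1, map_one, map_one]
      have h2 : ‖φ (σ z')‖ ^ (2 * N) = 1 := by rw [← norm_pow, h1, norm_one]
      exact (pow_eq_one_iff_of_nonneg (norm_nonneg _) (by omega)).1 h2
    obtain ⟨y, hy⟩ := ratio_real hwn m n
    have h1 : φ (σ X) = y := by
      rw [← hy, hX]
      simp only [map_div₀, map_sub, map_pow, map_inv₀]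
    have h2 : y ^ d = x ^ d := by
      have h3 : (y : ℂ) ^ d = (x : ℂ) ^ d := by
        rw [← h1, ← hφX, ← map_pow, ← map_pow, ← map_pow, hXd, AlgEquiv.commutes]
      exact_mod_cast h3
    have h4 : y = x := hd.strictMono_pow.injective h2
    rw [h1, h4, hφX]
  obtain ⟨q', hq'⟩ := (IsGalois.mem_range_algebraMap_iff_fixed X).2 hfix
  refine ⟨q', ?_⟩
  rw [← hq', AlgHom.commutes] at hφX
  have : ((q' : ℝ) : ℂ) = (x : ℂ) := by
    rw [← hφX]; simp
  exact_mod_cast this.symm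

theorem exists_cyclo (k : Type) [Field k] [CharZero k] (M : ℕ) [NeZero M] :
    ∃ (K : Type) (_ : Field K) (_ : Algebra k K), IsGalois k K ∧ FiniteDimensional k K ∧
      ∃ z : K, IsPrimitiveRoot z M :=
  ⟨CyclotomicField M k, inferInstance, inferInstance,
    IsCyclotomicExtension.isGalois {M} k _, IsCyclotomicExtension.finiteDimensional {M} k _,
    IsCyclotomicExtension.zeta M k _, IsCyclotomicExtension.zeta_spec M k _⟩

theorem sin_ratio_rational {N : ℕ} (m n : ℕ) (hN : 0 < N) (x : ℝ)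
    (hx : x = Real.sin (m * (Real.pi / N)) / Real.sin (n * (Real.pi / N))) {d : ℕ} (hd : Odd d)
    {q : ℚ} (hq : x ^ d = q) : ∃ q' : ℚ, x = q' := by
  have hne : NeZero (2 * N) := ⟨by omega⟩
  obtain ⟨K, _, _, hgal, hfd, z, hz⟩ := exists_cyclo ℚ (2 * N)
  let φ : K →ₐ[ℚ] ℂ := IsAlgClosed.lift
  have hφz := hz.map_of_injective φ.injective
  have hζ : IsPrimitiveRoot (exp (2 * Real.pi * I / (2 * N : ℕ))) (2 * N) :=
    Complex.isPrimitiveRoot_exp (2 * N) hne.out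
  obtain ⟨b, -, hb⟩ := hφz.eq_pow_of_pow_eq_one hζ.pow_eq_one
  refine sin_ratio_aux φ hN (z ^ b) ?_ ?_ m n x hx hd hq
  · rw [pow_right_comm, hz.pow_eq_one, one_pow]
  · rw [map_pow]
    refine Eq.trans hb ?_
    congr 1
    push_cast
    have : (N : ℂ) ≠ 0 := by exact_mod_cast hN.ne'
    field_simp

end Pool.Agent.Lib.MP_9fc4df_co
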