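import Pool.Agent.Lib.MP_9fc4df_co.Sector
import Pool.Agent.Lib.MP_9fc4df_co.Galois

/-!
The angle argument: the final contradiction.
-/

open MeasureTheory Filter Topology Finset Module
open scoped RealInnerProductSpace Pointwise

set_option linter.unusedSectionVars false

open Pool.Agent.Lib.MP_9fc4df_co.Rep

namespace Pool.Agent.Lib.MP_9fc4df_co

theorem Tri.perm {ι : Type*} {I : Finset ι} {p q r : ι} (h : Tri I p q r) : Tri I q p r :=
  ⟨h.hq, h.hp, h.hr, h.pq.symm, h.qr, h.pr, fun x => by rcases h.all x with h | h | h | h <;> tauto⟩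

theorem ang_comm {ι E : Type*} [Fintype ι] [NormedAddCommGroup E] [InnerProductSpace ℝ E]
    (b : AffineBasis ι ℝ E) (p q r : ι) : ang b p q r = ang b p r q :=
  InnerProductGeometry.angle_comm _ _

theorem Tri.ang_pos {ι E : Type*} [Fintype ι] [NormedAddCommGroup E] [InnerProductSpace ℝ E]
    (b : AffineBasis ι ℝ E) {I : Finset ι} {p q r : ι} (h : Tri I p q r) :
    0 < ang b p q r ∧ ang b p q r < Real.pi := by
  obtain ⟨F, hF⟩ := h.exists_sec b
  exact ⟨hF.pos, hF.lt⟩

namespace CRep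

variable {d : ℕ} [NeZero d] {ι κ E : Type*} [Fintype ι] [Fintype κ] [NormedAddCommGroup E]
    [InnerProductSpace ℝ E] [FiniteDimensional ℝ E] [MeasurableSpace E] [BorelSpace E]

/-- The face opposite to the triangle `star`, `C t`, `C (t + u)`. -/
noncomputable def I0 (R : CRep d ι κ E) (t u : ZMod d) : Finset ι :=
  R.CS ((univ.erase t).erase (t + u))

theorem C_mem_I0 {R : CRep d ι κ E} {t u s : ZMod d} :
    R.L.C s ∈ R.I0 t u ↔ s ≠ t ∧ s ≠ t + u := by
  rw [I0, C_mem_CS, mem_erase, mem_erase]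
  simp only [mem_univ, and_true]
  tauto

theorem star_notMem_I0 {R : CRep d ι κ E} {t u : ZMod d} : R.L.star ∉ R.I0 t u :=
  star_notMem_CS

theorem tri (R : CRep d ι κ E) (t : ZMod d) {u : ZMod d} (hu : u ≠ 0) :
    Tri (R.I0 t u) R.L.star (R.L.C t) (R.L.C (t + u)) where
  hp := star_notMem_I0
  hq := fun h => (C_mem_I0.1 h).1 rfl
  hr := fun h => (C_mem_I0.1 h).2 rfl
  pq := (R.L.star_ne t).symm
  pr := (R.L.star_ne _).symm
  qr := fun h => hu (by
    have := R.L.C_inj h
    exact (left_eq_add.1 this))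
  all := by
    intro x
    rcases R.L.exh x with hx | ⟨s, hx⟩
    · exact Or.inr (Or.inl hx)
    · by_cases h1 : s = t
      · exact Or.inr (Or.inr (Or.inl (by rw [hx, h1])))
      · by_cases h2 : s = t + u
        · exact Or.inr (Or.inr (Or.inr (by rw [hx, h2])))
        · exact Or.inl (by rw [hx]; exact C_mem_I0.2 ⟨h1, h2⟩)

theorem exists_s (R : CRep d ι κ E) : ∃ s : ZMod d, s ≠ 0 ∧ ∀ t, IsMin R.T.b (R.I0 t s) := by
  have hdd := R.hd
  obtain ⟨J, hJc, hJmin⟩ := R.exists_min_CS (c := d - 2) (by omega) (by omega)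
  have hcc : Jᶜ.card = 2 := by
    rw [card_compl, ZMod.card, hJc]; omega
  obtain ⟨u, u', huu, h2⟩ := card_eq_two.1 hcc
  refine ⟨u' - u, sub_ne_zero.2 huu.symm, fun t => ?_⟩
  have h3 := R.isMin_shift hJmin (t - u)
  have h4 : J.image (· + (t - u)) = (univ.erase t).erase (t + (u' - u)) := by
    ext x
    have hx : x - (t - u) ∈ J ↔ x - (t - u) ∉ ({u, u'} : Finset (ZMod d)) := by
      rw [← h2, mem_compl, not_not]
    have h5 : x ∈ J.image (· + (t - u)) ↔ x - (t - u) ∈ J := by
      rw [mem_image]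
      constructor
      · rintro ⟨y, hy, rfl⟩
        rwa [add_sub_cancel_right]
      · intro h
        exact ⟨_, h, by ring⟩
    rw [h5, hx, mem_insert, mem_singleton, mem_erase, mem_erase]
    simp only [mem_univ, and_true, not_or]
    constructor
    · rintro ⟨a, b⟩
      refine ⟨fun h => b ?_, fun h => a ?_⟩
      · rw [h]; ring
      · rw [h]; ring
    · rintro ⟨a, b⟩
      refine ⟨fun h => b ?_, fun h => a ?_⟩
      · linear_combination h
      · linear_combination h
  rwa [h4] at h3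

/-- The class `t` of minimal faces of dimension two. -/
structure Cls (R : CRep d ι κ E) (s t : ZMod d) (I : Finset ι) : Prop where
  min : IsMin R.T.b I
  mem : ∀ i ∈ I, i ∈ R.L.A
  cl : ∀ u, (∃ i ∈ I, R.L.cl i = u) ↔ u ≠ t ∧ u ≠ t + s

theorem cls_I0 (R : CRep d ι κ E) {s : ZMod d} (t : ZMod d) (h : IsMin R.T.b (R.I0 t s)) :
    R.Cls s t (R.I0 t s) where
  min := h
  mem := by
    intro i hi
    obtain ⟨s', -, rfl⟩ := mem_CS.1 hi
    exact R.L.C_mem s'
  cl := by
    intro u
    constructor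
    · rintro ⟨i, hi, rfl⟩
      obtain ⟨s', -, rfl⟩ := mem_CS.1 hi
      rw [R.L.cl_C]
      exact C_mem_I0.1 hi
    · intro hu
      exact ⟨R.L.C u, C_mem_I0.2 hu, R.L.cl_C u⟩

theorem Cls.step {R : CRep d ι κ E} {s t : ZMod d} {I J : Finset ι} (h : R.Cls s t I) {t' : κ}
    {π : ι → ι} (hm : R.T.Match t' I J π) (hJ : IsMin R.T.b J) : R.Cls s (t + 1) J where
  min := hJ
  mem := by
    intro j hj
    obtain ⟨i, hi, rfl⟩ := hm.surj j hj
    exact (facet_step (hm.facet i hi) (h.mem i hi)).1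
  cl := by
    intro u
    have h1 : (∃ j ∈ J, R.L.cl j = u) ↔ ∃ i ∈ I, R.L.cl i = u - 1 := by
      constructor
      · rintro ⟨j, hj, rfl⟩
        obtain ⟨i, hi, rfl⟩ := hm.surj j hj
        refine ⟨i, hi, ?_⟩
        rw [(facet_step (hm.facet i hi) (h.mem i hi)).2]; ring
      · rintro ⟨i, hi, h2⟩
        refine ⟨π i, hm.maps i hi, ?_⟩
        rw [(facet_step (hm.facet i hi) (h.mem i hi)).2, h2]; ring
    rw [h1, h.cl (u - 1)]
    constructor
    · rintro ⟨a, b⟩
      refine ⟨fun h => a ?_, fun h => b ?_⟩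
      · rw [h]; ring
      · rw [h]; ring
    · rintro ⟨a, b⟩
      refine ⟨fun h => a ?_, fun h => b ?_⟩
      · linear_combination h
      · linear_combination h

theorem Cls.zero {R : CRep d ι κ E} {s : ZMod d} {I : Finset ι} (h : R.Cls s 0 I) :
    I = R.I0 0 s := by
  have hstar : R.L.star ∉ I := by
    intro hs
    exact ((h.cl 0).1 ⟨_, hs, R.L.cl_star⟩).1 rfl
  obtain ⟨J, hJ⟩ := R.exists_CS hstar
  ext x
  rcases R.L.exh x with hx | ⟨u, hx⟩
  · rw [hx]
    exact iff_of_false hstar star_notMem_I0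
  · rw [hx, C_mem_I0, ← h.cl u]
    constructor
    · intro hu
      exact ⟨_, hu, R.L.cl_C u⟩
    · rintro ⟨i, hi, h2⟩
      have : i = R.L.C u := by
        rw [← h2]
        exact R.L.eq_C_of_ne_star (fun hh => hstar (hh ▸ hi))
      rwa [← this]

/-- The angles of class `t`. -/
def AngS (R : CRep d ι κ E) (s t : ZMod d) : Set ℝ :=
  {θ | ∃ I p q r, R.Cls s t I ∧ Tri I p q r ∧ θ = ang R.T.b p q r}

/-- All the angles. -/
def Theta (R : CRep d ι κ E) (s : ZMod d) : Set ℝ := {θ | ∃ t, θ ∈ R.AngS s t}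

theorem Theta_pos {R : CRep d ι κ E} {s : ZMod d} {θ : ℝ} (h : θ ∈ R.Theta s) : 0 < θ := by
  obtain ⟨t, I, p, q, r, -, htri, rfl⟩ := h
  exact (htri.ang_pos R.T.b).1

theorem Theta_finite (R : CRep d ι κ E) (s : ZMod d) : (R.Theta s).Finite := by
  refine (Set.finite_range (fun x : ι × ι × ι => ang R.T.b x.1 x.2.1 x.2.2)).subset ?_
  rintro θ ⟨t, I, p, q, r, -, -, rfl⟩
  exact ⟨(p, q, r), rfl⟩

/-- `δ` is not the sum of two or more angles. -/
def Indec (R : CRep d ι κ E) (s : ZMod d) (δ : ℝ) : Prop :=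
  ∀ (τ : Finset κ) (f : κ → ℝ), (∀ t ∈ τ, f t ∈ R.Theta s) → δ = ∑ t ∈ τ, f t → τ.card ≤ 1

theorem Indec.next {R : CRep d ι κ E} {s t : ZMod d} {δ : ℝ} (hδ : R.Indec s δ)
    (h : δ ∈ R.AngS s t) : δ ∈ R.AngS s (t + 1) := by
  obtain ⟨I, p, q, r, hcls, htri, hang⟩ := h
  obtain ⟨τ, J, π, P, Q, S, hall, hsum, -⟩ := R.T.sector htri hcls.min
  have hmem : ∀ t' ∈ τ, ang R.T.b (P t') (Q t') (S t') ∈ R.AngS s (t + 1) := by
    intro t' ht'
    obtain ⟨h1, h2, h3, h4⟩ := hall t' ht'
    exact ⟨J t', P t', Q t', S t', hcls.step h1 h2, h3, rfl⟩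
  have hcard := hδ τ (fun t' => ang R.T.b (P t') (Q t') (S t'))
    (fun t' ht' => ⟨_, hmem t' ht'⟩) (hang.trans hsum)
  have hpos := (htri.ang_pos R.T.b).1
  rcases Nat.lt_or_ge τ.card 1 with h1 | h1
  · rw [Nat.lt_one_iff, card_eq_zero] at h1
    rw [h1, sum_empty] at hsum
    linarith
  · obtain ⟨t', ht'⟩ := card_eq_one.1 (le_antisymm hcard h1)
    rw [ht', sum_singleton] at hsum
    rw [hang, hsum]
    exact hmem t' (by rw [ht']; exact mem_singleton_self _)

theorem Indec.zero {R : CRep d ι κ E} {s : ZMod d} {δ : ℝ} (hδ : R.Indec s δ)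
    (h : δ ∈ R.Theta s) : δ ∈ R.AngS s 0 := by
  obtain ⟨t, ht⟩ := h
  have h1 : ∀ n : ℕ, δ ∈ R.AngS s (t + n) := by
    intro n
    induction n with
    | zero => simpa using ht
    | succ n ih =>
      have := hδ.next ih
      push_cast
      rwa [← add_assoc]
  have h2 := h1 (-t).val
  rwa [ZMod.natCast_zmod_val, add_neg_cancel] at h2

/-- The angle at `star`. -/
noncomputable def alpha (R : CRep d ι κ E) (u : ZMod d) : ℝ :=
  ang R.T.b R.L.star (R.L.C 0) (R.L.C u)

/-- The angle at `C t`. -/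
noncomputable def beta (R : CRep d ι κ E) (u t : ZMod d) : ℝ :=
  ang R.T.b (R.L.C t) R.L.star (R.L.C (t + u))

theorem alpha_eq (R : CRep d ι κ E) (t u : ZMod d) :
    ang R.T.b R.L.star (R.L.C t) (R.L.C (t + u)) = R.alpha u := by
  have := R.nontrivial
  have h1 : ∀ t, ang R.T.b R.L.star (R.L.C t) (R.L.C (t + u)) =
      InnerProductGeometry.angle (R.uu t) (R.uu (t + u)) := by
    intro t
    change InnerProductGeometry.angle (R.w t) (R.w (t + u)) = _
    rw [R.w_eq, R.w_eq, InnerProductGeometry.angle_smul_left_of_pos _ _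
      (inv_pos.2 (fn_pos _ _)), InnerProductGeometry.angle_smul_right_of_pos _ _
      (inv_pos.2 (fn_pos _ _))]
  have h2 := h1 0
  rw [zero_add] at h2
  rw [h1 t, alpha, h2]
  unfold InnerProductGeometry.angle
  have h3 := R.inner_uu 0 u t
  rw [zero_add, add_comm u t] at h3
  rw [h3, R.norm_uu t, R.norm_uu (t + u), R.norm_uu u]

theorem alpha_neg (R : CRep d ι κ E) (u : ZMod d) : R.alpha (-u) = R.alpha u := by
  have h := R.alpha_eq u (-u)
  rw [add_neg_cancel, ang_comm] at h
  exact h.symm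

/-- Law of sines. -/
theorem law (R : CRep d ι κ E) (t : ZMod d) {u : ZMod d} (hu : u ≠ 0) :
    ‖R.w (t + u)‖ * Real.sin (R.beta (-u) (t + u)) = ‖R.w t‖ * Real.sin (R.beta u t) := by
  have htri := R.tri t hu
  have hα := htri.ang_pos R.T.b
  have hs : 0 < Real.sin (ang R.T.b R.L.star (R.L.C t) (R.L.C (t + u))) :=
    Real.sin_pos_of_pos_of_lt_pi hα.1 hα.2
  have e1 := EuclideanGeometry.law_sin (R.T.b R.L.star) (R.T.b (R.L.C t)) (R.T.b (R.L.C (t + u)))
  have e2 := EuclideanGeometry.law_sin (R.T.b R.L.star) (R.T.b (R.L.C (t + u))) (R.T.b (R.L.C t))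
  have f1 : EuclideanGeometry.angle (R.T.b R.L.star) (R.T.b (R.L.C t))
      (R.T.b (R.L.C (t + u))) = R.beta u t := rfl
  have f2 : EuclideanGeometry.angle (R.T.b R.L.star) (R.T.b (R.L.C (t + u)))
      (R.T.b (R.L.C t)) = R.beta (-u) (t + u) := by
    rw [beta, add_neg_cancel_right]; rfl
  have f3 : EuclideanGeometry.angle (R.T.b (R.L.C (t + u))) (R.T.b R.L.star)
      (R.T.b (R.L.C t)) = ang R.T.b R.L.star (R.L.C t) (R.L.C (t + u)) := by
    rw [ang_comm]; rfl
  have f4 : EuclideanGeometry.angle (R.T.b (R.L.C t)) (R.T.b R.L.star)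
      (R.T.b (R.L.C (t + u))) = ang R.T.b R.L.star (R.L.C t) (R.L.C (t + u)) := rfl
  have g1 : dist (R.T.b (R.L.C (t + u))) (R.T.b R.L.star) = ‖R.w (t + u)‖ := by
    rw [dist_eq_norm, w]
  have g2 : dist (R.T.b (R.L.C t)) (R.T.b R.L.star) = ‖R.w t‖ := by
    rw [dist_eq_norm, w]
  rw [f1, f3, g1] at e1
  rw [f2, f4, g2, dist_comm (R.T.b (R.L.C (t + u)))] at e2
  set s0 := Real.sin (ang R.T.b R.L.star (R.L.C t) (R.L.C (t + u))) with hs0
  set l := dist (R.T.b (R.L.C t)) (R.T.b (R.L.C (t + u))) with hl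
  have h : s0 * (‖R.w (t + u)‖ * Real.sin (R.beta (-u) (t + u))) =
      s0 * (‖R.w t‖ * Real.sin (R.beta u t)) := by
    calc s0 * (‖R.w (t + u)‖ * Real.sin (R.beta (-u) (t + u)))
        = (s0 * ‖R.w (t + u)‖) * Real.sin (R.beta (-u) (t + u)) := by ring
      _ = (Real.sin (R.beta u t) * l) * Real.sin (R.beta (-u) (t + u)) := by rw [e1]
      _ = Real.sin (R.beta u t) * (Real.sin (R.beta (-u) (t + u)) * l) := by ring
      _ = _ := by rw [e2]; ring
  exact mul_left_cancel₀ hs.ne' h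

theorem angle_sum (R : CRep d ι κ E) (t : ZMod d) {u : ZMod d} (hu : u ≠ 0) :
    R.beta u t + R.beta (-u) (t + u) + R.alpha u = Real.pi := by
  have htri := R.tri t hu
  have hne : R.T.b (R.L.C t) ≠ R.T.b R.L.star := by
    intro h
    exact R.L.star_ne t (R.T.b.ind.injective h)
  have h := EuclideanGeometry.angle_add_angle_add_angle_eq_pi (R.T.b (R.L.C (t + u))) hne
  have f1 : EuclideanGeometry.angle (R.T.b R.L.star) (R.T.b (R.L.C t))
      (R.T.b (R.L.C (t + u))) = R.beta u t := rfl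
  have f2 : EuclideanGeometry.angle (R.T.b (R.L.C t)) (R.T.b (R.L.C (t + u)))
      (R.T.b R.L.star) = R.beta (-u) (t + u) := by
    rw [beta, add_neg_cancel_right, ang_comm]; rfl
  have f3 : EuclideanGeometry.angle (R.T.b (R.L.C (t + u))) (R.T.b R.L.star)
      (R.T.b (R.L.C t)) = R.alpha u := by
    rw [← R.alpha_eq t u, ang_comm]; rfl
  rw [f1, f2, f3] at h
  exact h

theorem beta_pos (R : CRep d ι κ E) (t : ZMod d) {u : ZMod d} (hu : u ≠ 0) :
    0 < R.beta u t ∧ R.beta u t < Real.pi := ((R.tri t hu).perm).ang_pos R.T.b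

theorem alpha_pos (R : CRep d ι κ E) {u : ZMod d} (hu : u ≠ 0) :
    0 < R.alpha u ∧ R.alpha u < Real.pi := by
  have h := (R.tri 0 hu).ang_pos R.T.b
  rwa [R.alpha_eq] at h

/-- Propagation of an indecomposable angle. -/
theorem prop (R : CRep d ι κ E) {s u : ZMod d} (hu : u ≠ 0)
    (hcls : ∀ t, ∃ t', R.Cls s t' (R.I0 t u)) {t : ZMod d} (hδ : R.Indec s (R.beta u t))
    (hα : R.beta u t ≠ R.alpha u) : R.beta u (t + 1) = R.beta u t := by
  classical
  have := R.nontrivial
  obtain ⟨t0, ht0⟩ := hcls t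
  have htri := (R.tri t hu).perm
  obtain ⟨τ, J, π, P, Q, S, hall, hsum, hone⟩ := R.T.sector htri ht0.min
  have hcard := hδ τ (fun t' => ang R.T.b (P t') (Q t') (S t')) (fun t' ht' => by
    obtain ⟨h1, h2, h3, h4⟩ := hall t' ht'
    exact ⟨_, J t', P t', Q t', S t', ht0.step h1 h2, h3, rfl⟩) hsum
  have hpos := (htri.ang_pos R.T.b).1
  rcases Nat.lt_or_ge τ.card 1 with h1 | h1
  · rw [Nat.lt_one_iff, card_eq_zero] at h1
    rw [h1, sum_empty] at hsum
    linarith
  obtain ⟨t', ht'⟩ := card_eq_one.1 (le_antisymm hcard h1)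
  obtain ⟨hm, hJmin, htri', hP⟩ := hall t' (by rw [ht']; exact mem_singleton_self _)
  have hev := hone t' ht'
  rw [ht', sum_singleton] at hsum
  obtain ⟨te, hfac, huniq⟩ := R.good_edge_vertex t
  have hte : t' = te := huniq t' hev
  rw [← hte] at hfac
  -- the vertex `P t'`
  have hPne : ∀ l, l ≠ t + 1 → P t' ≠ R.L.C l := by
    intro l hl hPl
    have hl1 : l - 1 ≠ t := fun h => hl (by rw [← h, sub_add_cancel])
    obtain ⟨a, ha, hf⟩ := hfac (l - 1) hl1
    have e1 := hf (R.T.b (R.L.C t))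
    rw [sub_add_cancel, ← hPl, ← hP, (R.T.B t').coord_apply_eq, mul_one, hP,
      R.T.b.coord_apply_ne (fun h => hl1 (R.L.C_inj h))] at e1
    exact ha.ne e1
  -- the matching
  have hpi : ∀ l, l ≠ t → l ≠ t + u → π t' (R.L.C l) = R.L.C (l + 1) := by
    intro l h1 h2
    exact (hm.facet _ (C_mem_I0.2 ⟨h1, h2⟩)).inj_right (hfac l h1)
  have hJ : ∀ l, l ≠ t + 1 → l ≠ t + 1 + u → R.L.C l ∈ J t' := by
    intro l h1 h2
    have h3 : l - 1 ≠ t := fun h => h1 (by rw [← h, sub_add_cancel])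
    have h4 : l - 1 ≠ t + u := fun h => h2 (by linear_combination h)
    have h5 := hm.maps _ (C_mem_I0.2 ⟨h3, h4⟩)
    rwa [hpi _ h3 h4, sub_add_cancel] at h5
  have hnot : ∀ x, x ∉ J t' → x = R.L.star ∨ x = R.L.C (t + 1) ∨ x = R.L.C (t + 1 + u) := by
    intro x hx
    rcases R.L.exh x with h | ⟨l, h⟩
    · exact Or.inl h
    · by_cases h1 : l = t + 1
      · exact Or.inr (Or.inl (by rw [h, h1]))
      · by_cases h2 : l = t + 1 + u
        · exact Or.inr (Or.inr (by rw [h, h2]))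
        · exact absurd (hJ l h1 h2) (h ▸ hx)
  have hne1 : t + 1 + u ≠ t + 1 := fun h => hu (by linear_combination h)
  have hPcase : P t' = R.L.star ∨ P t' = R.L.C (t + 1) := by
    rcases hnot _ htri'.hp with h | h | h
    · exact Or.inl h
    · exact Or.inr h
    · exact absurd h (hPne _ hne1)
  rcases hPcase with hPs | hPC
  · exfalso
    apply hα
    have hQ := hnot _ htri'.hq
    have hS := hnot _ htri'.hr
    have hPQ := htri'.pq
    have hPS := htri'.pr
    have hQS := htri'.qr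
    rw [hPs] at hPQ hPS hsum
    have : R.beta u t = ang R.T.b R.L.star (R.L.C (t + 1)) (R.L.C (t + 1 + u)) := by
      rcases hQ with hQ | hQ | hQ
      · exact absurd hQ.symm hPQ
      · rcases hS with hS | hS | hS
        · exact absurd hS.symm hPS
        · exact absurd (hQ.trans hS.symm) hQS
        · rw [hQ, hS] at hsum; exact hsum
      · rcases hS with hS | hS | hS
        · exact absurd hS.symm hPS
        · rw [hQ, hS] at hsum; exact hsum.trans (ang_comm _ _ _ _)
        · exact absurd (hQ.trans hS.symm) hQS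
    rw [this, R.alpha_eq]
  · have hQ := hnot _ htri'.hq
    have hS := hnot _ htri'.hr
    have hPQ := htri'.pq
    have hPS := htri'.pr
    have hQS := htri'.qr
    rw [hPC] at hPQ hPS hsum
    have : R.beta u t = ang R.T.b (R.L.C (t + 1)) R.L.star (R.L.C (t + 1 + u)) := by
      rcases hQ with hQ | hQ | hQ
      · rcases hS with hS | hS | hS
        · exact absurd (hQ.trans hS.symm) hQS
        · exact absurd hS.symm hPS
        · rw [hQ, hS] at hsum; exact hsum
      · exact absurd hQ.symm hPQ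
      · rcases hS with hS | hS | hS
        · rw [hQ, hS] at hsum; exact hsum.trans (ang_comm _ _ _ _)
        · exact absurd hS.symm hPS
        · exact absurd (hQ.trans hS.symm) hQS
    rw [this, beta]

/-- An indecomposable angle at `C t` equals `alpha`. -/
theorem beta_indec (R : CRep d ι κ E) {s u : ZMod d} (hu : u ≠ 0)
    (hcls : ∀ t, ∃ t', R.Cls s t' (R.I0 t u)) {t : ZMod d} (hδ : R.Indec s (R.beta u t)) :
    R.beta u t = R.alpha u := by
  classical
  have := R.nontrivial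
  by_contra hα
  have h1 : ∀ n : ℕ, R.beta u (t + n) = R.beta u t := by
    intro n
    induction n with
    | zero => simp
    | succ n ih =>
      have h2 := R.prop hu hcls (t := t + n) (by rw [ih]; exact hδ) (by rw [ih]; exact hα)
      push_cast
      rw [← add_assoc, h2, ih]
  have h2 : ∀ l, R.beta u l = R.beta u t := by
    intro l
    have := h1 (l - t).val
    rwa [ZMod.natCast_zmod_val, add_sub_cancel] at this
  have h3 : ∀ l, R.beta (-u) (l + u) = Real.pi - R.alpha u - R.beta u t := by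
    intro l
    have := R.angle_sum l hu
    rw [h2 l] at this
    linarith
  have h4 : 0 < Real.sin (Real.pi - R.alpha u - R.beta u t) := by
    have h5 := R.beta_pos (t + u) (neg_ne_zero.2 hu)
    rw [h3 t] at h5
    exact Real.sin_pos_of_pos_of_lt_pi h5.1 h5.2
  have h5 : 0 < Real.sin (R.beta u t) := by
    have h6 := R.beta_pos t hu
    exact Real.sin_pos_of_pos_of_lt_pi h6.1 h6.2
  set ρ := Real.sin (R.beta u t) / Real.sin (Real.pi - R.alpha u - R.beta u t) with hρ
  have hρpos : 0 < ρ := div_pos h5 h4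
  have h6 : ∀ l, ‖R.w (l + u)‖ = ρ * ‖R.w l‖ := by
    intro l
    have := R.law l hu
    rw [h3 l, h2 l] at this
    rw [hρ, div_mul_eq_mul_div, eq_div_iff h4.ne', this]
    ring
  have hwpos : ∀ l, 0 < ‖R.w l‖ := by
    intro l
    rw [R.norm_w]
    exact div_pos R.norm_uu_pos (fn_pos _ _)
  have h7 : ∏ l, ‖R.w l‖ = ρ ^ d * ∏ l, ‖R.w l‖ := by
    have h8 : ∏ l, ‖R.w (l + u)‖ = ∏ l, ‖R.w l‖ :=
      Equiv.prod_comp (Equiv.addRight u) (fun l => ‖R.w l‖)
    conv_lhs => rw [← h8]
    simp only [h6]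
    rw [prod_mul_distrib, prod_const, card_univ, ZMod.card]
  have hprod : 0 < ∏ l, ‖R.w l‖ := prod_pos fun l _ => hwpos l
  have h8 : ρ ^ d = 1 := by
    have : (1 : ℝ) * ∏ l, ‖R.w l‖ = ρ ^ d * ∏ l, ‖R.w l‖ := by rw [one_mul]; exact h7
    exact (mul_right_cancel₀ hprod.ne' this).symm
  have h9 : ρ = 1 := (pow_eq_one_iff_of_nonneg hρpos.le (NeZero.ne d)).1 h8
  have h10 := h6 0
  rw [h9, one_mul, zero_add, R.norm_w, R.norm_w] at h10
  have h11 := fn_pos R.T.b (R.L.C u)
  have h12 := fn_pos R.T.b (R.L.C 0)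
  have h13 := R.norm_uu_pos
  field_simp at h10
  exact R.fn_ne hu (by linarith)

/-- The final contradiction. -/
theorem contradiction (R : CRep d ι κ E) : False := by
  classical
  have := R.nontrivial
  obtain ⟨s, hs, hmin⟩ := R.exists_s
  have hns : -s ≠ 0 := neg_ne_zero.2 hs
  have hcls : ∀ t, ∃ t', R.Cls s t' (R.I0 t s) := fun t => ⟨t, R.cls_I0 t (hmin t)⟩
  have hI0 : ∀ t, R.I0 t (-s) = R.I0 (t - s) s := by
    intro t
    ext x
    rcases R.L.exh x with h | ⟨l, h⟩
    · rw [h]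
      exact iff_of_false star_notMem_I0 star_notMem_I0
    · rw [h, C_mem_I0, C_mem_I0, sub_add_cancel, ← sub_eq_add_neg]
      tauto
  have hcls' : ∀ t, ∃ t', R.Cls s t' (R.I0 t (-s)) := fun t =>
    ⟨t - s, by rw [hI0]; exact R.cls_I0 (t - s) (hmin _)⟩
  -- indecomposable angles are equal to `alpha`
  have hindec : ∀ δ ∈ R.Theta s, R.Indec s δ → δ = R.alpha s := by
    intro δ hδ hi
    obtain ⟨I, p, q, r, hc, htri, rfl⟩ := hi.zero hδ
    have hI := hc.zero
    have hbase := R.tri 0 hs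
    rw [zero_add] at hbase
    rw [hI] at htri
    have hcase : ∀ x, x ∉ R.I0 0 s → x = R.L.star ∨ x = R.L.C 0 ∨ x = R.L.C s := by
      intro x hx
      rcases hbase.all x with h | h
      · exact absurd h hx
      · exact h
    have hp := hcase p htri.hp
    have hq := hcase q htri.hq
    have hr := hcase r htri.hr
    have hpq := htri.pq
    have hpr := htri.pr
    have hqr := htri.qr
    have e1 : ang R.T.b (R.L.C 0) R.L.star (R.L.C s) = R.beta s 0 := by
      rw [beta, zero_add]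
    have e2 : ang R.T.b (R.L.C s) R.L.star (R.L.C 0) = R.beta (-s) s := by
      rw [beta, add_neg_cancel]
    rcases hp with rfl | rfl | rfl
    · rcases hq with rfl | rfl | rfl
      · exact absurd rfl hpq
      · rcases hr with rfl | rfl | rfl
        · exact absurd rfl hpr
        · exact absurd rfl hqr
        · rfl
      · rcases hr with rfl | rfl | rfl
        · exact absurd rfl hpr
        · rw [ang_comm]; rfl
        · exact absurd rfl hqr
    · have key : ang R.T.b (R.L.C 0) q r = R.beta s 0 := by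
        rcases hq with rfl | rfl | rfl
        · rcases hr with rfl | rfl | rfl
          · exact absurd rfl hqr
          · exact absurd rfl hpr
          · exact e1
        · exact absurd rfl hpq
        · rcases hr with rfl | rfl | rfl
          · rw [ang_comm]; exact e1
          · exact absurd rfl hpr
          · exact absurd rfl hqr
      rw [key] at hi ⊢
      exact R.beta_indec hs hcls hi
    · have key : ang R.T.b (R.L.C s) q r = R.beta (-s) s := by
        rcases hq with rfl | rfl | rfl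
        · rcases hr with rfl | rfl | rfl
          · exact absurd rfl hqr
          · exact e2
          · exact absurd rfl hpr
        · rcases hr with rfl | rfl | rfl
          · rw [ang_comm]; exact e2
          · exact absurd rfl hqr
          · exact absurd rfl hpr
        · exact absurd rfl hpq
      rw [key] at hi ⊢
      rw [R.beta_indec hns hcls' hi, R.alpha_neg]
  -- all angles are multiples of `alpha`
  have hmult : ∀ δ ∈ R.Theta s, ∃ n : ℕ, 1 ≤ n ∧ δ = n * R.alpha s := by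
    by_contra hcon
    push Not at hcon
    obtain ⟨δ0, hδ0, hbad0⟩ := hcon
    have hfin : {δ | δ ∈ R.Theta s ∧ ∀ n : ℕ, 1 ≤ n → δ ≠ n * R.alpha s}.Finite :=
      (R.Theta_finite s).subset fun x hx => hx.1
    obtain ⟨b, ⟨hb, hbad⟩, hbmin⟩ := Set.exists_min_image _ id hfin ⟨δ0, hδ0, hbad0⟩
    by_cases hi : R.Indec s b
    · exact hbad 1 le_rfl (by rw [hindec b hb hi]; simp)
    · unfold Indec at hi
      push Not at hi
      obtain ⟨τ, f, hf, hsum, hcard⟩ := hi
      have hlt : ∀ t ∈ τ, f t < b := by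
        intro t ht
        obtain ⟨t', ht', hne⟩ := exists_mem_ne hcard t
        rw [hsum]
        exact single_lt_sum hne ht ht' (Theta_pos (hf t' ht'))
          (fun k hk _ => (Theta_pos (hf k hk)).le)
      have hgood : ∀ t ∈ τ, ∃ n : ℕ, 1 ≤ n ∧ f t = n * R.alpha s := by
        intro t ht
        by_contra hcon
        push Not at hcon
        have := hbmin (f t) ⟨hf t ht, hcon⟩
        exact absurd (hlt t ht) (not_lt.2 this)
      choose! n hn1 hn2 using hgood
      refine hbad (∑ t ∈ τ, n t) ?_ ?_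
      · obtain ⟨t, ht⟩ : τ.Nonempty := card_pos.1 (by omega)
        exact (hn1 t ht).trans (single_le_sum (fun _ _ => Nat.zero_le _) ht)
      · rw [hsum]
        push_cast
        rw [sum_mul]
        exact sum_congr rfl fun t ht => hn2 t ht
  have hb1 : R.beta s 0 ∈ R.Theta s :=
    ⟨0, R.I0 0 s, R.L.C 0, R.L.star, R.L.C (0 + s), R.cls_I0 0 (hmin 0), (R.tri 0 hs).perm, rfl⟩
  have hb2 : R.beta (-s) (0 + s) ∈ R.Theta s := by
    refine ⟨0, R.I0 0 s, R.L.C (0 + s), R.L.star, R.L.C 0, R.cls_I0 0 (hmin 0),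
      (R.tri 0 hs).swap.perm, ?_⟩
    rw [beta, add_neg_cancel_right]
  obtain ⟨m, hm1, hm⟩ := hmult _ hb1
  obtain ⟨n, hn1, hn⟩ := hmult _ hb2
  have hsum := R.angle_sum 0 hs
  have hα : R.alpha s = Real.pi / (m + n + 1 : ℕ) := by
    rw [hm, hn] at hsum
    have : ((m + n + 1 : ℕ) : ℝ) ≠ 0 := by positivity
    rw [eq_div_iff this]
    push_cast
    linarith
  have hlaw := R.law 0 hs
  rw [hm, hn, hα, zero_add] at hlaw
  have hsn : 0 < Real.sin (n * (Real.pi / (m + n + 1 : ℕ))) := by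
    have h1 := R.beta_pos (0 + s) hns
    rw [hn, hα] at h1
    exact Real.sin_pos_of_pos_of_lt_pi h1.1 h1.2
  have hf0 := fn_pos R.T.b (R.L.C 0)
  have hfs := fn_pos R.T.b (R.L.C s)
  have huu := R.norm_uu_pos
  set x := (fn R.T.b (R.L.C s) / fn R.T.b (R.L.C 0))⁻¹ with hx
  have hxpos : 0 < x := inv_pos.2 (div_pos hfs hf0)
  have hxeq : x = Real.sin (m * (Real.pi / (m + n + 1 : ℕ))) /
      Real.sin (n * (Real.pi / (m + n + 1 : ℕ))) := by
    rw [R.norm_w, R.norm_w] at hlaw
    rw [eq_div_iff hsn.ne', hx, inv_div]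
    field_simp at hlaw ⊢
    linarith
  have hxR : InR d R.lam s x := by
    have := (R.ratio' s).inv R.lam_pos R.lam_pow
    rwa [neg_neg] at this
  obtain ⟨q, hq⟩ := hxR
  have hxd : x ^ d = ((q ^ d * ((Fintype.card κ : ℕ) : ℚ) ^ s.val : ℚ) : ℝ) := by
    rw [hq, mul_pow, ← pow_mul, mul_comm s.val d, pow_mul, R.lam_pow]
    push_cast
    ring
  obtain ⟨q', hq'⟩ := sin_ratio_rational m n (N := m + n + 1) (by omega) x hxeq R.odd hxd
  have h0 : InR d R.lam 0 x := by
    rw [hq']; exact InR.rat q'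
  exact hs (InR.unique R.irr R.lam_pos R.lam_pow hxpos.ne' ⟨q, hq⟩ h0)

end CRep

end Pool.Agent.Lib.MP_9fc4df_co
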