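import Mathlib

/-!
Barycentric coordinates: elementary facts on pairs of affine bases.
-/

open MeasureTheory Filter Topology Finset

set_option linter.unusedSectionVars false

namespace Pool.Agent.Lib.MP_9fc4df_co

section Basis

variable {ι E : Type*} [Fintype ι] [NormedAddCommGroup E] [NormedSpace ℝ E]

/-- The linear part of a barycentric coordinate. -/
noncomputable def lin (b : AffineBasis ι ℝ E) (i : ι) : E →ₗ[ℝ] ℝ := (b.coord i).linear

theorem coord_add (b : AffineBasis ι ℝ E) (i : ι) (x y : E) :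
    b.coord i (x + y) = b.coord i x + lin b i y := by
  have := (b.coord i).map_vadd x y
  simp only [vadd_eq_add] at this
  rw [add_comm x y, this, add_comm]
  rfl

theorem coord_add_smul (b : AffineBasis ι ℝ E) (i : ι) (x y : E) (ε : ℝ) :
    b.coord i (x + ε • y) = b.coord i x + ε * lin b i y := by
  rw [coord_add, map_smul, smul_eq_mul]

theorem coord_sub' (b : AffineBasis ι ℝ E) (i : ι) (x y : E) :
    b.coord i x - b.coord i y = lin b i (x - y) := by
  have := coord_add b i y (x - y)
  rw [add_sub_cancel] at this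
  rw [this]; ring

theorem lin_sub (b : AffineBasis ι ℝ E) (i : ι) (x y : E) :
    lin b i (x - y) = b.coord i x - b.coord i y := (coord_sub' b i x y).symm

theorem lin_diff [DecidableEq ι] (b : AffineBasis ι ℝ E) (i j p : ι) :
    lin b i (b j - b p) = (if i = j then 1 else 0) - (if i = p then 1 else 0) := by
  rw [lin_sub, b.coord_apply, b.coord_apply]

theorem sum_lin (b : AffineBasis ι ℝ E) (y : E) : ∑ i, lin b i y = 0 := by
  have h1 := b.sum_coord_apply_eq_one (0 + y)
  have h2 := b.sum_coord_apply_eq_one 0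
  simp only [coord_add, sum_add_distrib] at h1
  linarith

theorem affine_eq (b : AffineBasis ι ℝ E) (f : E →ᵃ[ℝ] ℝ) (x : E) :
    f x = ∑ j, b.coord j x * f (b j) := by
  have h := b.affineCombination_coord_eq_self x
  have h2 := Finset.univ.map_affineCombination b (fun i => b.coord i x)
    (b.sum_coord_apply_eq_one x) f
  rw [h] at h2
  rw [h2, Finset.affineCombination_eq_linear_combination _ _ _ (b.sum_coord_apply_eq_one x)]
  simp

theorem vec_eq (b : AffineBasis ι ℝ E) (p0 : E) (y : E) :
    y = ∑ i, lin b i y • (b i - p0) := by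
  have h1 := b.linear_combination_coord_eq_self (0 + y)
  have h2 := b.linear_combination_coord_eq_self 0
  simp only [coord_add, add_smul, sum_add_distrib, h2] at h1
  simp only [smul_sub, sum_sub_distrib, ← sum_smul, sum_lin, zero_smul, sub_zero]
  simpa using h1.symm

theorem lin_indep (b : AffineBasis ι ℝ E) {I : Finset ι} (hI : I ≠ univ) (c : ι → ℝ)
    (h : ∀ y, ∑ i ∈ I, c i * lin b i y = 0) : ∀ i ∈ I, c i = 0 := by
  classical
  obtain ⟨p, hp⟩ : ∃ p, p ∉ I := by
    by_contra hcon
    push Not at hcon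
    exact hI (eq_univ_iff_forall.2 hcon)
  intro i hi
  have := h (b i - b p)
  simp only [lin_diff] at this
  rw [sum_eq_single i] at this
  · have hip : i ≠ p := fun h => hp (h ▸ hi)
    simpa [hip] using this
  · intro j hj hji
    have hjp : j ≠ p := fun h => hp (h ▸ hj)
    simp [hji, hjp]
  · intro h; exact absurd hi h

theorem lin_span (b : AffineBasis ι ℝ E) {I : Finset ι} {p : ι} (hp : p ∉ I)
    (L : E →ₗ[ℝ] ℝ) (hL : ∀ y, (∀ i ∈ I, lin b i y = 0) → L y = 0) (y : E) :
    L y = ∑ i ∈ I, L (b i - b p) * lin b i y := by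
  classical
  conv_lhs => rw [vec_eq b (b p) y]
  rw [map_sum]
  simp only [map_smul, smul_eq_mul]
  rw [← sum_subset (subset_univ I)]
  · exact sum_congr rfl fun i _ => mul_comm _ _
  · intro i _ hi
    rw [hL, mul_zero]
    intro j hj
    have hji : j ≠ i := fun h => hi (h ▸ hj)
    have hjp : j ≠ p := fun h => hp (h ▸ hj)
    simp [lin_diff, hji, hjp]

/-- The set of facets containing `x`. -/
noncomputable def Z (b : AffineBasis ι ℝ E) (x : E) : Finset ι := by
  classical exact univ.filter (fun i => b.coord i x = 0)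

theorem mem_Z {b : AffineBasis ι ℝ E} {x : E} {i : ι} : i ∈ Z b x ↔ b.coord i x = 0 := by
  classical
  simp [Z]

theorem Z_ne_univ (b : AffineBasis ι ℝ E) (x : E) : Z b x ≠ univ := by
  intro h
  have h1 := b.sum_coord_apply_eq_one x
  rw [sum_eq_zero] at h1
  · norm_num at h1
  · intro i _
    exact mem_Z.1 (h ▸ mem_univ i)

theorem exists_notMem_Z (b : AffineBasis ι ℝ E) (x : E) : ∃ p, p ∉ Z b x := by
  by_contra hcon
  push Not at hcon
  exact Z_ne_univ b x (eq_univ_iff_forall.2 hcon)

/-- Membership in the closed simplex. -/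
def InS (b : AffineBasis ι ℝ E) (x : E) : Prop := ∀ i, 0 ≤ b.coord i x

theorem InS.pos {b : AffineBasis ι ℝ E} {x : E} (h : InS b x) {i : ι} (hi : i ∉ Z b x) :
    0 < b.coord i x := lt_of_le_of_ne (h i) fun h' => hi (mem_Z.2 h'.symm)

theorem coord_eventually_pos (b : AffineBasis ι ℝ E) {x : E} {i : ι} (h : 0 < b.coord i x)
    (y : E) : ∀ᶠ ε in 𝓝 (0 : ℝ), 0 < b.coord i (x + ε • y) := by
  simp only [coord_add_smul]
  have : Continuous fun ε : ℝ => b.coord i x + ε * lin b i y := by fun_prop
  have h2 := this.tendsto 0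
  simp only [zero_mul, add_zero] at h2
  exact h2.eventually (lt_mem_nhds h)

theorem coord_eventually_neg (b : AffineBasis ι ℝ E) {x : E} {i : ι} (h : b.coord i x < 0)
    (y : E) : ∀ᶠ ε in 𝓝 (0 : ℝ), b.coord i (x + ε • y) < 0 := by
  simp only [coord_add_smul]
  have : Continuous fun ε : ℝ => b.coord i x + ε * lin b i y := by fun_prop
  have h2 := this.tendsto 0
  simp only [zero_mul, add_zero] at h2
  exact h2.eventually (gt_mem_nhds h)

theorem eventually_notIn (b : AffineBasis ι ℝ E) {x : E} (h : ¬ InS b x)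
    (y : E) : ∀ᶠ ε in 𝓝 (0 : ℝ), ¬ InS b (x + ε • y) := by
  simp only [InS, not_forall, not_le] at h
  obtain ⟨i, hi⟩ := h
  filter_upwards [coord_eventually_neg b hi y] with ε hε hcon
  exact absurd (hcon i) (not_le.2 hε)

/-- A vector pointing into the cone at `x` moves `x` inside the simplex. -/
theorem eventually_in (b : AffineBasis ι ℝ E) {x : E} (h : InS b x) {y : E}
    (hy : ∀ i ∈ Z b x, 0 ≤ lin b i y) : ∀ᶠ ε in 𝓝[>] (0 : ℝ), InS b (x + ε • y) := by
  have h1 : ∀ i, ∀ᶠ ε in 𝓝[>] (0 : ℝ), 0 ≤ b.coord i (x + ε • y) := by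
    intro i
    by_cases hi : i ∈ Z b x
    · filter_upwards [self_mem_nhdsWithin] with ε hε
      rw [coord_add_smul, mem_Z.1 hi, zero_add]
      exact mul_nonneg (le_of_lt hε) (hy i hi)
    · filter_upwards [(coord_eventually_pos b (h.pos hi) y).filter_mono nhdsWithin_le_nhds]
        with ε hε using hε.le
  filter_upwards [eventually_all.2 h1] with ε hε using hε

/-- A vector pointing strictly into the cone at `x` moves `x` to the interior. -/
theorem eventually_pos (b : AffineBasis ι ℝ E) {x : E} (h : InS b x) {y : E}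
    (hy : ∀ i ∈ Z b x, 0 < lin b i y) :
    ∀ᶠ ε in 𝓝[>] (0 : ℝ), ∀ i, 0 < b.coord i (x + ε • y) := by
  have h1 : ∀ i, ∀ᶠ ε in 𝓝[>] (0 : ℝ), 0 < b.coord i (x + ε • y) := by
    intro i
    by_cases hi : i ∈ Z b x
    · filter_upwards [self_mem_nhdsWithin] with ε hε
      rw [coord_add_smul, mem_Z.1 hi, zero_add]
      exact mul_pos hε (hy i hi)
    · filter_upwards [(coord_eventually_pos b (h.pos hi) y).filter_mono nhdsWithin_le_nhds]
        with ε hε using hε
  exact eventually_all.2 h1

/-- Two linearly independent systems of coordinate functionals: comparison of cardinalities. -/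
theorem card_le_of_span (b b' : AffineBasis ι ℝ E) {I J : Finset ι} (hI : I ≠ univ)
    (c : ι → ι → ℝ) (h : ∀ i ∈ I, ∀ y, lin b i y = ∑ j ∈ J, c i j * lin b' j y) :
    I.card ≤ J.card := by
  classical
  have hli : LinearIndependent ℝ (fun i : I => lin b i) := by
    rw [Fintype.linearIndependent_iff]
    intro g hg i
    have := lin_indep b hI (fun i => if hi : i ∈ I then g ⟨i, hi⟩ else 0) ?_ i i.2
    · simpa using this
    · intro y
      have h2 := LinearMap.congr_fun hg y
      simp only [LinearMap.coe_sum, Finset.sum_apply, LinearMap.smul_apply, smul_eq_mul,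
        LinearMap.zero_apply] at h2
      rw [← h2, ← sum_coe_sort I]
      exact sum_congr rfl fun i _ => by simp
  have hspan : Submodule.span ℝ (Set.range (fun i : I => lin b i)) ≤
      Submodule.span ℝ ((J.image (lin b') : Finset (E →ₗ[ℝ] ℝ)) : Set (E →ₗ[ℝ] ℝ)) := by
    rw [Submodule.span_le]
    rintro _ ⟨i, rfl⟩
    have : lin b i = ∑ j ∈ J, c i j • lin b' j := by
      ext y
      rw [h i i.2 y]
      simp
    rw [SetLike.mem_coe]
    change lin b i ∈ _
    rw [this]
    refine Submodule.sum_mem _ fun j hj => Submodule.smul_mem _ _ (Submodule.subset_span ?_)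
    simpa using ⟨j, hj, rfl⟩
  have h1 := finrank_span_eq_card hli
  have h3 : FiniteDimensional ℝ (Submodule.span ℝ
      ((J.image (lin b') : Finset (E →ₗ[ℝ] ℝ)) : Set (E →ₗ[ℝ] ℝ))) :=
    FiniteDimensional.span_finset ℝ _
  have h2 := Submodule.finrank_mono hspan
  have h4 := finrank_span_finset_le_card (R := ℝ) (J.image (lin b'))
  rw [h1, Fintype.card_coe] at h2
  have h5 : (J.image (lin b')).card ≤ J.card := card_image_le
  unfold Set.finrank at h4
  omega

end Basis

section Pair

variable {ι E : Type*} [Fintype ι] [NormedAddCommGroup E] [NormedSpace ℝ E]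
variable {b b' : AffineBasis ι ℝ E}

/-- (F0) -/
theorem pair_coord (b b' : AffineBasis ι ℝ E) (i : ι) (x : E) :
    b.coord i x = ∑ j, b'.coord j x * b.coord i (b' j) := affine_eq b' (b.coord i) x

theorem pair_zero (hsub : ∀ i j, 0 ≤ b.coord i (b' j)) {x : E} (hx : InS b' x) {i : ι}
    (hi : i ∈ Z b x) {j : ι} (hj : j ∉ Z b' x) : b.coord i (b' j) = 0 := by
  have h1 := pair_coord b b' i x
  rw [mem_Z.1 hi] at h1
  have h2 := (sum_eq_zero_iff_of_nonneg (fun j _ => mul_nonneg (hx j) (hsub i j))).1 h1.symm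
    j (mem_univ j)
  rcases mul_eq_zero.1 h2 with h | h
  · exact absurd (mem_Z.2 h) hj
  · exact h

theorem pair_lin (hsub : ∀ i j, 0 ≤ b.coord i (b' j)) {x : E} (hx : InS b' x) {i : ι}
    (hi : i ∈ Z b x) (y : E) :
    lin b i y = ∑ j ∈ Z b' x, b.coord i (b' j) * lin b' j y := by
  have h1 := pair_coord b b' i (x + y)
  have h2 := pair_coord b b' i x
  rw [coord_add] at h1
  simp only [coord_add, add_mul, sum_add_distrib] at h1
  rw [h2] at h1
  have h3 : lin b i y = ∑ j, lin b' j y * b.coord i (b' j) := by linarith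
  rw [h3, ← sum_subset (subset_univ (Z b' x))]
  · exact sum_congr rfl fun i _ => mul_comm _ _
  · intro j _ hj
    rw [pair_zero hsub hx hi hj, mul_zero]

theorem pair_coord' (hsub : ∀ i j, 0 ≤ b.coord i (b' j)) {x : E} (hx : InS b' x) {i : ι}
    (hi : i ∈ Z b x) (y : E) :
    b.coord i y = ∑ j ∈ Z b' x, b.coord i (b' j) * b'.coord j y := by
  have h3 := pair_coord b b' i y
  rw [h3, ← sum_subset (subset_univ (Z b' x))]
  · exact sum_congr rfl fun i _ => mul_comm _ _
  · intro j _ hj
    rw [pair_zero hsub hx hi hj, mul_zero]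

/-- (F1) -/
theorem pair_card (hsub : ∀ i j, 0 ≤ b.coord i (b' j)) {x : E} (hx : InS b' x) :
    (Z b x).card ≤ (Z b' x).card :=
  card_le_of_span b b' (Z_ne_univ b x) (fun i j => b.coord i (b' j))
    fun _ hi y => pair_lin hsub hx hi y

theorem pair_cone_pos (hsub : ∀ i j, 0 ≤ b.coord i (b' j)) {x : E} (hx : InS b' x) {y : E}
    (hy : ∀ j ∈ Z b' x, 0 < lin b' j y) : ∀ i ∈ Z b x, 0 < lin b i y := by
  intro i hi
  rw [pair_lin hsub hx hi y]
  refine sum_pos' (fun j hj => mul_nonneg (hsub i j) (hy j hj).le) ?_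
  by_contra hcon
  push Not at hcon
  have h0 : ∀ j ∈ Z b' x, b.coord i (b' j) = 0 := by
    intro j hj
    have h1 := hcon j hj
    have h2 := hy j hj
    have h3 := hsub i j
    by_contra h4
    have h5 : 0 < b.coord i (b' j) := lt_of_le_of_ne h3 (Ne.symm h4)
    exact absurd (mul_pos h5 h2) (not_lt.2 h1)
  have h6 := pair_coord' hsub hx hi (b i)
  rw [b.coord_apply_eq, sum_eq_zero] at h6
  · norm_num at h6
  · intro j hj
    rw [h0 j hj, zero_mul]

theorem pair_cone_nonneg (hsub : ∀ i j, 0 ≤ b.coord i (b' j)) {x : E} (hx : InS b' x) {y : E}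
    (hy : ∀ j ∈ Z b' x, 0 ≤ lin b' j y) : ∀ i ∈ Z b x, 0 ≤ lin b i y := by
  intro i hi
  rw [pair_lin hsub hx hi y]
  exact sum_nonneg fun j hj => mul_nonneg (hsub i j) (hy j hj)

theorem pair_InS (hsub : ∀ i j, 0 ≤ b.coord i (b' j)) {x : E} (hx : InS b' x) : InS b x := by
  intro i
  rw [pair_coord b b' i x]
  exact sum_nonneg fun j _ => mul_nonneg (hx j) (hsub i j)

/-- `Facet b b' i j`: the facet `j` of `b'` lies in the facet `i` of `b`. -/
def Facet (b b' : AffineBasis ι ℝ E) (i j : ι) : Prop :=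
  ∃ a : ℝ, 0 < a ∧ ∀ x, b.coord i x = a * b'.coord j x

theorem Facet.lin {i j : ι} (h : Facet b b' i j) :
    ∃ a : ℝ, 0 < a ∧ (∀ x, b.coord i x = a * b'.coord j x) ∧
      ∀ y, lin b i y = a * lin b' j y := by
  obtain ⟨a, ha, h⟩ := h
  refine ⟨a, ha, h, fun y => ?_⟩
  have h1 := h (0 + y)
  have h2 := h 0
  rw [coord_add, coord_add] at h1
  linarith

theorem Facet.inj_left [Nontrivial ι] {i i' j : ι} (h : Facet b b' i j) (h' : Facet b b' i' j) :
    i = i' := by
  obtain ⟨a, ha, h⟩ := h
  obtain ⟨a', ha', h'⟩ := h'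
  by_contra hne
  have h1 := h (b i')
  have h2 := h' (b i')
  rw [b.coord_apply_ne hne] at h1
  rw [b.coord_apply_eq] at h2
  have h3 : b'.coord j (b i') = 0 := by
    rcases mul_eq_zero.1 h1.symm with h | h
    · exact absurd h ha.ne'
    · exact h
  rw [h3] at h2; norm_num at h2

theorem Facet.inj_right [Nontrivial ι] {i j j' : ι} (h : Facet b b' i j) (h' : Facet b b' i j') :
    j = j' := by
  obtain ⟨a, ha, h⟩ := h
  obtain ⟨a', ha', h'⟩ := h'
  by_contra hne
  have h1 := h (b' j')
  have h2 := h' (b' j')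
  rw [b'.coord_apply_ne hne] at h1
  rw [b'.coord_apply_eq] at h2
  rw [h1] at h2
  rw [mul_zero, mul_one] at h2
  exact ha'.ne h2

/-- The matching lemma: if the tangent cones at `x` agree, the facets through `x` match. -/
theorem matching (hsub : ∀ i j, 0 ≤ b.coord i (b' j)) {x : E} (hx : InS b' x)
    (hcone : ∀ y, (∀ i ∈ Z b x, 0 ≤ lin b i y) → ∀ j ∈ Z b' x, 0 ≤ lin b' j y) :
    ∃ π : ι → ι, Set.InjOn π (Z b x) ∧ (∀ i ∈ Z b x, π i ∈ Z b' x) ∧
      (∀ j ∈ Z b' x, ∃ i ∈ Z b x, π i = j) ∧ ∀ i ∈ Z b x, Facet b b' i (π i) := by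
  classical
  obtain ⟨p, hp⟩ := exists_notMem_Z b x
  -- the functionals of `b'` are nonnegative combinations
  have hker : ∀ j ∈ Z b' x, ∀ y, (∀ i ∈ Z b x, lin b i y = 0) → lin b' j y = 0 := by
    intro j hj y hy
    have h1 := hcone y (fun i hi => (hy i hi).ge) j hj
    have h2 := hcone (-y) (fun i hi => by rw [map_neg, hy i hi, neg_zero]) j hj
    rw [map_neg] at h2
    linarith
  have hspan : ∀ j ∈ Z b' x, ∀ y, lin b' j y = ∑ i ∈ Z b x, lin b' j (b i - b p) * lin b i y :=
    fun j hj y => lin_span b hp (lin b' j) (hker j hj) y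
  have hnn : ∀ j ∈ Z b' x, ∀ i ∈ Z b x, 0 ≤ lin b' j (b i - b p) := by
    intro j hj i hi
    refine hcone _ (fun i' hi' => ?_) j hj
    have hip : i' ≠ p := fun h => hp (h ▸ hi')
    rw [lin_diff, if_neg hip, sub_zero]
    split_ifs <;> norm_num
  -- key: for `i`, `j` with positive coefficient, the functionals are proportional
  have key : ∀ i ∈ Z b x, ∀ j ∈ Z b' x, 0 < b.coord i (b' j) →
      ∀ y, lin b' j y = lin b' j (b i - b p) * lin b i y := by
    intro i hi j hj hpos y
    have hzero : ∀ i' ∈ Z b x, i' ≠ i → lin b' j (b i' - b p) = 0 := by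
      intro i' hi' hne
      have h1 := pair_lin hsub hx hi (b i' - b p)
      have hip : i ≠ p := fun h => hp (h ▸ hi)
      rw [lin_diff, if_neg (Ne.symm hne), if_neg hip, sub_zero] at h1
      have h2 := (sum_eq_zero_iff_of_nonneg
        (fun j hj => mul_nonneg (hsub i j) (hnn j hj i' hi'))).1 h1.symm j hj
      rcases mul_eq_zero.1 h2 with h | h
      · exact absurd h hpos.ne'
      · exact h
    rw [hspan j hj y, sum_eq_single i]
    · intro i' hi' hne
      rw [hzero i' hi' hne, zero_mul]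
    · intro h; exact absurd hi h
  have hcpos : ∀ i ∈ Z b x, ∀ j ∈ Z b' x, 0 < b.coord i (b' j) → 0 < lin b' j (b i - b p) := by
    intro i hi j hj hpos
    refine lt_of_le_of_ne (hnn j hj i hi) fun h0 => ?_
    obtain ⟨p', hp'⟩ := exists_notMem_Z b' x
    have h1 := key i hi j hj hpos (b' j - b' p')
    have hjp : j ≠ p' := fun h => hp' (h ▸ hj)
    rw [← h0, zero_mul, lin_diff, if_pos rfl, if_neg hjp] at h1
    norm_num at h1
  have hex : ∀ i ∈ Z b x, ∃ j ∈ Z b' x, 0 < b.coord i (b' j) := by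
    intro i hi
    by_contra hcon
    push Not at hcon
    have h6 := pair_coord' hsub hx hi (b i)
    rw [b.coord_apply_eq, sum_eq_zero] at h6
    · norm_num at h6
    · intro j hj
      rw [le_antisymm (hcon j hj) (hsub i j), zero_mul]
  have hfac : ∀ i ∈ Z b x, ∀ j ∈ Z b' x, 0 < b.coord i (b' j) → Facet b b' i j := by
    intro i hi j hj hpos
    have hc := hcpos i hi j hj hpos
    refine ⟨(lin b' j (b i - b p))⁻¹, inv_pos.2 hc, fun z => ?_⟩
    have h1 := key i hi j hj hpos (z - x)
    rw [lin_sub b' j z x, lin_sub b i z x, mem_Z.1 hi, mem_Z.1 hj, sub_zero, sub_zero] at h1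
    rw [h1, ← mul_assoc, inv_mul_cancel₀ hc.ne', one_mul]
  have : Nontrivial ι ∨ Subsingleton ι := (subsingleton_or_nontrivial ι).symm
  rcases this with hnt | hss
  swap
  · have h0 : Z b x = ∅ := by
      by_contra hne
      obtain ⟨i, hi⟩ := nonempty_iff_ne_empty.2 hne
      exact hp (Subsingleton.elim i p ▸ hi)
    have h0' : Z b' x = ∅ := by
      by_contra hne
      obtain ⟨i, hi⟩ := nonempty_iff_ne_empty.2 hne
      obtain ⟨p', hp'⟩ := exists_notMem_Z b' x
      exact hp' (Subsingleton.elim i p' ▸ hi)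
    refine ⟨id, ?_, ?_, ?_, ?_⟩ <;> simp [h0, h0']
  choose! π hπ hpos using hex
  refine ⟨π, ?_, hπ, ?_, fun i hi => hfac i hi _ (hπ i hi) (hpos i hi)⟩
  · intro i hi i' hi' heq
    have h1 := hfac i hi _ (hπ i hi) (hpos i hi)
    have h2 := hfac i' hi' _ (hπ i' hi') (hpos i' hi')
    rw [heq] at h1
    exact h1.inj_left h2
  · intro j hj
    -- some coefficient is positive
    have : ∃ i ∈ Z b x, lin b' j (b i - b p) ≠ 0 := by
      by_contra hcon
      push Not at hcon
      obtain ⟨p', hp'⟩ := exists_notMem_Z b' x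
      have h1 := hspan j hj (b' j - b' p')
      have hjp : j ≠ p' := fun h => hp' (h ▸ hj)
      rw [lin_diff, if_pos rfl, if_neg hjp, sum_eq_zero] at h1
      · norm_num at h1
      · intro i hi
        rw [hcon i hi, zero_mul]
    obtain ⟨i, hi, hne⟩ := this
    refine ⟨i, hi, ?_⟩
    -- `lin b' (π i)` is proportional to `lin b i`; use inverse relation
    by_contra hpi
    obtain ⟨a, ha, hfa, hfl⟩ := (hfac i hi _ (hπ i hi) (hpos i hi)).lin
    -- evaluate at a vector where `lin b' j = -1`... use cone condition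
    obtain ⟨p', hp'⟩ := exists_notMem_Z b' x
    have hjp : j ≠ p' := fun h => hp' (h ▸ hj)
    -- linear independence of the functionals of `b'`
    have hsum : ∀ y, lin b' j y = ∑ j' ∈ Z b' x, (∑ i ∈ Z b x, lin b' j (b i - b p) *
        b.coord i (b' j')) * lin b' j' y := by
      intro y
      rw [hspan j hj y]
      simp only [sum_mul]
      rw [sum_comm]
      refine sum_congr rfl fun i hi => ?_
      rw [pair_lin hsub hx hi y, mul_sum]
      exact sum_congr rfl fun j' _ => by ring
    have hval := hsum (b' (π i) - b' p')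
    have hpip : π i ≠ p' := fun h => hp' (h ▸ hπ i hi)
    rw [lin_diff, if_neg (fun h => hpi h.symm), if_neg hjp, sub_zero,
      sum_eq_single (π i)] at hval
    · rw [lin_diff, if_pos rfl, if_neg hpip, sub_zero, mul_one] at hval
      have h2 := (sum_eq_zero_iff_of_nonneg
        (fun i hi => mul_nonneg (hnn j hj i hi) (hsub i _))).1 hval.symm i hi
      rcases mul_eq_zero.1 h2 with h | h
      · exact hne h
      · exact absurd h (hpos i hi).ne'
    · intro j' hj' hne'
      have hjp' : j' ≠ p' := fun h => hp' (h ▸ hj')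
      rw [lin_diff, if_neg hne', if_neg hjp', sub_zero, mul_zero]
    · intro h; exact absurd (hπ i hi) h

end Pair

end Pool.Agent.Lib.MP_9fc4df_co
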