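import Pool.Agent.Lib.MP_9fc4df_co.Struct

/-!
The cyclic cone.
-/

open MeasureTheory Filter Topology Finset Module
open scoped RealInnerProductSpace Pointwise

set_option linter.unusedSectionVars false

namespace Pool.Agent.Lib.MP_9fc4df_co

/-- A reptile simplex whose cone at `star` is minimal and cyclically symmetric. -/
structure CRep (d : ℕ) [NeZero d] (ι κ E : Type*) [Fintype ι] [Fintype κ] [NormedAddCommGroup E]
    [InnerProductSpace ℝ E] [FiniteDimensional ℝ E] [MeasurableSpace E] [BorelSpace E] extends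
    Rep d ι κ E where
  minC : IsMin T.b (toRep.CS univ)
  /-- the cyclic isometry -/
  G : E ≃ₗᵢ[ℝ] E
  hG : ∀ s, G (nu T.b (L.C (s + 1))) = nu T.b (L.C s)

namespace Rep

variable {d : ℕ} [NeZero d] {ι κ E : Type*} [Fintype ι] [Fintype κ] [NormedAddCommGroup E]
    [InnerProductSpace ℝ E] [FiniteDimensional ℝ E] [MeasurableSpace E] [BorelSpace E]

theorem eq_CS_univ {R : Rep d ι κ E} {I : Finset ι} (h : R.L.star ∉ I) (hc : I.card = d) :
    I = R.CS univ := by
  obtain ⟨J, hJ⟩ := R.exists_CS h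
  rw [hJ, card_CS] at hc
  have : J = univ := (card_eq_iff_eq_univ J).1 (by rw [hc, ZMod.card])
  rw [hJ, this]

theorem card_CS_univ {R : Rep d ι κ E} : (R.CS univ).card = d := by
  rw [card_CS, card_univ, ZMod.card]

theorem nonempty_CRep_of_match (R : Rep d ι κ E) (hmin : IsMin R.T.b (R.CS univ)) {t : κ}
    {π : ι → ι} (hm : R.T.Match t (R.CS univ) (R.CS univ) π) : Nonempty (CRep d ι κ E) := by
  have := R.nontrivial
  refine ⟨⟨R, hmin, R.T.g t, fun s => ?_⟩⟩
  have hs : R.L.C s ∈ R.CS univ := C_mem_CS.2 (mem_univ s)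
  obtain ⟨s', -, hs'⟩ := mem_CS.1 (hm.maps _ hs)
  have hf := hm.facet _ hs
  obtain ⟨-, h2⟩ := facet_step hf (R.L.C_mem s)
  rw [← hs', R.L.cl_C, R.L.cl_C] at h2
  have h3 := R.T.facet_nu hf
  rw [← hs', h2] at h3
  exact h3.symm

theorem exists_ne_ne (hd : 3 ≤ d) (s s' : ZMod d) : ∃ v : ZMod d, v ≠ s ∧ v ≠ s' := by
  classical
  have h1 : ({s, s'} : Finset (ZMod d)).card < (univ : Finset (ZMod d)).card := by
    rw [card_univ, ZMod.card]
    exact lt_of_le_of_lt card_le_two (by omega)
  obtain ⟨v, -, hv⟩ := exists_mem_notMem_of_card_lt_card h1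
  simp only [mem_insert, mem_singleton, not_or] at hv
  exact ⟨v, hv⟩

/-- The case where `star` is not in the closed part. -/
theorem nonempty_CRep_of_notMem (R : Rep d ι κ E) (hA : R.L.star ∉ R.L.A) :
    Nonempty (CRep d ι κ E) := by
  classical
  have := R.nontrivial
  have hdd := R.hd
  have hfact : Fact (1 < d) := ⟨by omega⟩
  have hCA : ∀ {t : κ} {s : ZMod d} {j : ι}, Facet R.T.b (R.T.B t) (R.L.C s) j →
      j = R.L.C (s + 1) := by
    intro t s j hf
    obtain ⟨h1, h2⟩ := facet_step hf (R.L.C_mem s)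
    rw [R.L.cl_C] at h2
    rw [← h2]
    exact R.L.eq_C_of_ne_star fun h => hA (h ▸ h1)
  by_cases hmin : IsMin R.T.b (R.CS univ)
  · obtain ⟨t, J, π, hm, hJmin, hJc⟩ := R.min_step CS_ne_univ hmin
    have hstar : R.L.star ∉ J := by
      intro hs
      obtain ⟨i, hi, hpi⟩ := hm.surj _ hs
      obtain ⟨s, -, rfl⟩ := mem_CS.1 hi
      have := hCA (hm.facet _ hi)
      rw [hpi] at this
      exact R.L.star_ne _ this.symm
    have hJ := eq_CS_univ hstar (hJc.trans card_CS_univ)
    rw [hJ] at hm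
    exact R.nonempty_CRep_of_match hmin hm
  · exfalso
    have claim1 : ∀ I, IsMin R.T.b I → I.card = d → R.L.star ∈ I := by
      intro I hI hc
      by_contra hs
      rw [eq_CS_univ hs hc] at hI
      exact hmin hI
    have hcard_erase : ∀ u : ι, (univ.erase u).card = d := by
      intro u
      rw [card_erase_of_mem (mem_univ u), card_univ, R.card]; omega
    -- the step
    have step : ∀ v, IsMin R.T.b (univ.erase (R.L.C v)) →
        IsMin R.T.b (univ.erase (R.L.C (v + 1))) ∧
        (∀ s s', s ≠ v → s' ≠ v → mm R.T.b (R.L.C (s + 1)) (R.L.C (s' + 1)) =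
          mm R.T.b (R.L.C s) (R.L.C s')) ∧
        (∀ s, s ≠ v → mm R.T.b R.L.star (R.L.C (s + 1)) = mm R.T.b R.L.star (R.L.C s)) := by
      intro v hv
      have hne : univ.erase (R.L.C v) ≠ univ := R.ne_univ (hcard_erase _).le
      obtain ⟨t, J, π, hm, hJmin, hJc⟩ := R.min_step hne hv
      rw [hcard_erase] at hJc
      have hsJ := claim1 J hJmin hJc
      have hCmem : ∀ s, s ≠ v → R.L.C s ∈ univ.erase (R.L.C v) := fun s hs =>
        mem_erase.2 ⟨fun h => hs (R.L.C_inj h), mem_univ _⟩
      have hsmem : R.L.star ∈ univ.erase (R.L.C v) :=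
        mem_erase.2 ⟨fun h => R.L.star_ne v h.symm, mem_univ _⟩
      have hpstar : π R.L.star = R.L.star := by
        obtain ⟨i, hi, hpi⟩ := hm.surj _ hsJ
        rcases R.L.exh i with h1 | ⟨s, hs⟩
        · rwa [h1] at hpi
        · have h2 := hm.facet i hi
          rw [hs] at h2
          have h3 := hCA h2
          rw [← hs, hpi] at h3
          exact absurd h3.symm (R.L.star_ne _)
      have hpC : ∀ s, s ≠ v → Facet R.T.b (R.T.B t) (R.L.C s) (R.L.C (s + 1)) := by
        intro s hs
        have h2 := hm.facet _ (hCmem s hs)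
        rwa [hCA h2] at h2
      have hfstar : Facet R.T.b (R.T.B t) R.L.star R.L.star := by
        have h2 := hm.facet _ hsmem
        rwa [hpstar] at h2
      refine ⟨?_, ?_, ?_⟩
      · have hnot : R.L.C (v + 1) ∉ J := by
          intro hmem
          obtain ⟨i, hi, hpi⟩ := hm.surj _ hmem
          rcases R.L.exh i with h1 | ⟨s, hs⟩
          · rw [h1, hpstar] at hpi
            exact R.L.star_ne _ hpi.symm
          · have h2 := hm.facet i hi
            rw [hs] at h2
            have h3 := hCA h2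
            rw [← hs, hpi] at h3
            have h4 := add_right_cancel (R.L.C_inj h3)
            rw [hs, ← h4] at hi
            exact (mem_erase.1 hi).1 rfl
        have hJ : J = univ.erase (R.L.C (v + 1)) := by
          refine eq_of_subset_of_card_le (fun x hx => mem_erase.2 ⟨?_, mem_univ _⟩) ?_
          · intro h; exact hnot (h ▸ hx)
          · rw [hcard_erase, hJc]
        rwa [hJ] at hJmin
      · intro s s' hs hs'
        exact (R.T.facet_mm (hpC s hs) (hpC s' hs')).symm
      · intro s hs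
        exact (R.T.facet_mm hfstar (hpC s hs)).symm
    obtain ⟨I, hIc, hImin⟩ := R.exists_min (c := d) (by omega)
    obtain ⟨u, hu⟩ : ∃ u, u ∉ I := by
      by_contra hcon
      push Not at hcon
      exact R.ne_univ hIc.le (eq_univ_iff_forall.2 hcon)
    have hIu : I = univ.erase u := by
      refine eq_of_subset_of_card_le (fun x hx => mem_erase.2 ⟨?_, mem_univ _⟩) ?_
      · intro h; exact hu (h ▸ hx)
      · rw [hcard_erase, hIc]
    have hsI := claim1 I hImin hIc
    obtain ⟨v0, hv0⟩ : ∃ v, u = R.L.C v := by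
      rcases R.L.exh u with h1 | h1
      · exact absurd (h1 ▸ hsI) hu
      · exact h1
    have hP : ∀ n : ℕ, IsMin R.T.b (univ.erase (R.L.C (v0 + n))) := by
      intro n
      induction n with
      | zero =>
        rw [Nat.cast_zero, add_zero, ← hv0, ← hIu]
        exact hImin
      | succ n ih =>
        have := (step _ ih).1
        rw [add_assoc] at this
        push_cast
        exact this
    have hPall : ∀ v, IsMin R.T.b (univ.erase (R.L.C v)) := by
      intro v
      have := hP (v - v0).val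
      rwa [ZMod.natCast_zmod_val, add_sub_cancel] at this
    refine R.no_symm ?_ ?_
    · intro s s'
      obtain ⟨v, hv, hv'⟩ := exists_ne_ne (by omega) s s'
      exact (step v (hPall v)).2.1 s s' hv.symm hv'.symm
    · intro s
      obtain ⟨v, hv, -⟩ := exists_ne_ne (by omega) s s
      exact (step v (hPall v)).2.2 s hv.symm

/-- The reptile simplex with swapped labels. -/
noncomputable def swapR [DecidableEq ι] (R : Rep d ι κ E) (hA : R.L.star ∈ R.L.A) :
    Rep d ι κ E :=
  { R with L := R.L.swap hA }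

theorem nonempty_CRep_of_mem' [DecidableEq ι] (R : Rep d ι κ E) (hA : R.L.star ∈ R.L.A)
    (hmin : IsMin R.T.b (R.CS univ)) : Nonempty (CRep d ι κ E) := by
  have := R.nontrivial
  have hdd := R.hd
  have hfact : Fact (1 < d) := ⟨by omega⟩
  let R' : Rep d ι κ E := R.swapR hA
  have hA' : R'.L.star ∈ R'.L.A := R.L.C_mem 0
  have hT : R'.T = R.T := rfl
  have claim : ∀ I, IsMin R.T.b I → I.card = d → I = R.CS univ ∨ I = R'.CS univ := by
    intro I hI hc
    by_cases hs : R.L.star ∈ I
    · right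
      have h0 := min_star (R.ne_univ hc.le) hI hA hs
      exact eq_CS_univ (R := R') (I := I) h0 hc
    · left
      exact eq_CS_univ hs hc
  obtain ⟨t1, J, π1, hm1, hJmin, hJc⟩ := R.min_step CS_ne_univ hmin
  rw [card_CS_univ] at hJc
  rcases claim J hJmin hJc with hJ | hJ
  · rw [hJ] at hm1
    exact R.nonempty_CRep_of_match hmin hm1
  · rw [hJ] at hm1 hJmin
    obtain ⟨t2, J', π2, hm2, hJmin', hJc'⟩ := R'.min_step CS_ne_univ hJmin
    rw [card_CS_univ] at hJc'
    rcases claim J' hJmin' hJc' with hJ' | hJ'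
    swap
    · rw [hJ'] at hm2
      exact R'.nonempty_CRep_of_match hJmin hm2
    · rw [hJ'] at hm2
      -- two steps
      have e1 : ∀ s, nu R.T.b (R.L.C s) = R.T.g t1 (nu R.T.b (R'.L.C (s + 1))) := by
        intro s
        have hs : R.L.C s ∈ R.CS univ := C_mem_CS.2 (mem_univ s)
        obtain ⟨s', -, hs'⟩ := mem_CS.1 (hm1.maps _ hs)
        have hf := hm1.facet _ hs
        obtain ⟨-, h2⟩ := facet_step hf (R.L.C_mem s)
        have h4 : R.L.cl (π1 (R.L.C s)) = s' := by
          rw [← hs']; exact R'.L.cl_C s'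
        rw [h4, R.L.cl_C] at h2
        have h3 := R.T.facet_nu hf
        rw [← hs', h2] at h3
        exact h3
      have e2 : ∀ s, nu R.T.b (R'.L.C s) = R.T.g t2 (nu R.T.b (R.L.C (s + 1))) := by
        intro s
        have hs : R'.L.C s ∈ R'.CS univ := C_mem_CS.2 (mem_univ s)
        obtain ⟨s', -, hs'⟩ := mem_CS.1 (hm2.maps _ hs)
        have hf := hm2.facet _ hs
        obtain ⟨-, h2⟩ := facet_step hf (R'.L.C_mem s)
        have h4 : R'.L.cl (π2 (R'.L.C s)) = s' := by
          rw [← hs']; exact R.L.cl_C s'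
        rw [h4, R'.L.cl_C] at h2
        have h3 := R'.T.facet_nu hf
        rw [← hs', h2] at h3
        exact h3
      have e3 : ∀ n : ℕ, ∃ H : E ≃ₗᵢ[ℝ] E, ∀ s,
          H (nu R.T.b (R.L.C (s + 2 * n))) = nu R.T.b (R.L.C s) := by
        intro n
        induction n with
        | zero => exact ⟨LinearIsometryEquiv.refl ℝ E, fun s => by simp⟩
        | succ n ih =>
          obtain ⟨H, hH⟩ := ih
          refine ⟨((R.T.g t2).trans (R.T.g t1)).trans H, fun s => ?_⟩
          rw [LinearIsometryEquiv.trans_apply, LinearIsometryEquiv.trans_apply]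
          have h5 : s + 2 * ((n + 1 : ℕ) : ZMod d) = (s + 2 * n + 1) + 1 := by push_cast; ring
          rw [h5, ← e2, ← e1, hH]
      obtain ⟨m, hm⟩ := R.odd
      obtain ⟨H, hH⟩ := e3 (m + 1)
      have h6 : (2 : ZMod d) * ((m + 1 : ℕ) : ZMod d) = 1 := by
        have h7 : ((2 * m + 1 : ℕ) : ZMod d) = 0 := by
          rw [← hm]; exact ZMod.natCast_self d
        have h8 : (2 : ZMod d) * ((m + 1 : ℕ) : ZMod d) = ((2 * m + 1 : ℕ) : ZMod d) + 1 := by
          push_cast; ring
        rw [h8, h7, zero_add]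
      refine ⟨⟨R, hmin, H, fun s => ?_⟩⟩
      have := hH s
      rwa [h6] at this

theorem nonempty_CRep (R : Rep d ι κ E) : Nonempty (CRep d ι κ E) := by
  classical
  have hdd := R.hd
  by_cases hA : R.L.star ∈ R.L.A
  · obtain ⟨I, hIc, hImin⟩ := R.exists_min (c := d) (by omega)
    by_cases hs : R.L.star ∈ I
    · have h0 := min_star (R.ne_univ hIc.le) hImin hA hs
      let R' : Rep d ι κ E := R.swapR hA
      have hA' : R'.L.star ∈ R'.L.A := R.L.C_mem 0
      have hI' : I = R'.CS univ := eq_CS_univ (R := R') (I := I) h0 hIc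
      exact R'.nonempty_CRep_of_mem' hA' (hI' ▸ hImin)
    · rw [eq_CS_univ hs hIc] at hImin
      exact R.nonempty_CRep_of_mem' hA hImin
  · exact R.nonempty_CRep_of_notMem hA

end Rep

open Pool.Agent.Lib.MP_9fc4df_co.Rep

namespace CRep

variable {d : ℕ} [NeZero d] {ι κ E : Type*} [Fintype ι] [Fintype κ] [NormedAddCommGroup E]
    [InnerProductSpace ℝ E] [FiniteDimensional ℝ E] [MeasurableSpace E] [BorelSpace E]

theorem coneSet_shift (R : CRep d ι κ E) (J : Finset (ZMod d)) [DecidableEq (ZMod d)] :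
    coneSet R.T.b (R.CS J) =
      R.G.symm ⁻¹' (coneSet R.T.b (R.CS (J.image (· + 1)))) := by
  have := R.nontrivial
  ext y
  simp only [coneSet, Set.mem_ofPred_eq, Set.mem_preimage]
  have key : ∀ s, 0 < lin R.T.b (R.L.C s) y ↔ 0 < lin R.T.b (R.L.C (s + 1)) (R.G.symm y) := by
    intro s
    rw [lin_eq_nu, lin_eq_nu, ← R.hG s]
    have h1 : ⟪R.G (nu R.T.b (R.L.C (s + 1))), y⟫ =
        ⟪nu R.T.b (R.L.C (s + 1)), R.G.symm y⟫ := by
      conv_lhs => rw [← R.G.apply_symm_apply y]
      rw [R.G.inner_map_map]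
    rw [h1]
    have h2 := fn_pos R.T.b (R.L.C s)
    have h3 := fn_pos R.T.b (R.L.C (s + 1))
    constructor
    · intro h
      exact mul_pos h3 (pos_of_mul_pos_right h h2.le)
    · intro h
      exact mul_pos h2 (pos_of_mul_pos_right h h3.le)
  constructor
  · intro h i hi
    obtain ⟨s, hs, rfl⟩ := mem_CS.1 hi
    obtain ⟨s', hs', rfl⟩ := mem_image.1 hs
    exact (key s').1 (h _ (C_mem_CS.2 hs'))
  · intro h i hi
    obtain ⟨s, hs, rfl⟩ := mem_CS.1 hi
    exact (key s).2 (h _ (C_mem_CS.2 (mem_image.2 ⟨s, hs, rfl⟩)))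

theorem D_shift_one (R : CRep d ι κ E) (J : Finset (ZMod d)) [DecidableEq (ZMod d)] :
    D R.T.b (R.CS (J.image (· + 1))) = D R.T.b (R.CS J) :=
  (D_eq_of_isometry R.G.symm (R.coneSet_shift J)).symm

theorem D_shift (R : CRep d ι κ E) (J : Finset (ZMod d)) [DecidableEq (ZMod d)] (u : ZMod d) :
    D R.T.b (R.CS (J.image (· + u))) = D R.T.b (R.CS J) := by
  have h : ∀ n : ℕ, D R.T.b (R.CS (J.image (· + (n : ZMod d)))) = D R.T.b (R.CS J) := by
    intro n
    induction n with
    | zero => simp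
    | succ n ih =>
      rw [← ih, ← R.D_shift_one (J.image (· + (n : ZMod d))), image_image]
      congr 3
      funext x
      simp [add_assoc]
  have := h u.val
  rwa [ZMod.natCast_zmod_val] at this

/-- Minimality is invariant under shifts. -/
theorem isMin_shift (R : CRep d ι κ E) {J : Finset (ZMod d)} [DecidableEq (ZMod d)]
    (h : IsMin R.T.b (R.CS J)) (u : ZMod d) : IsMin R.T.b (R.CS (J.image (· + u))) :=
  h.of_le (by rw [card_CS, card_CS, card_image_of_injective _ (add_left_injective u)])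
    (R.D_shift J u).le

theorem mm_shift (R : CRep d ι κ E) (s s' : ZMod d) :
    mm R.T.b (R.L.C (s + 1)) (R.L.C (s' + 1)) = mm R.T.b (R.L.C s) (R.L.C s') := by
  rw [mm, mm, ← R.hG s, ← R.hG s', R.G.inner_map_map]

theorem mm_shift' (R : CRep d ι κ E) (s s' u : ZMod d) :
    mm R.T.b (R.L.C (s + u)) (R.L.C (s' + u)) = mm R.T.b (R.L.C s) (R.L.C s') := by
  have h : ∀ n : ℕ, mm R.T.b (R.L.C (s + n)) (R.L.C (s' + n)) =
      mm R.T.b (R.L.C s) (R.L.C s') := by
    intro n
    induction n with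
    | zero => simp
    | succ n ih =>
      rw [← ih, ← R.mm_shift (s + n) (s' + n)]
      push_cast
      rw [add_assoc, add_assoc]
  have := h u.val
  rwa [ZMod.natCast_zmod_val] at this

/-- For every intermediate dimension, the minimal solid angle is attained in the cyclic cone. -/
theorem exists_min_CS (R : CRep d ι κ E) {c : ℕ} (hc : 2 ≤ c) (hcd : c < d) :
    ∃ J : Finset (ZMod d), J.card = c ∧ IsMin R.T.b (R.CS J) := by
  classical
  have := R.nontrivial
  have hdd := R.hd
  have hfact : Fact (1 < d) := ⟨by omega⟩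
  by_cases hA : R.L.star ∈ R.L.A
  · have hAll : ∀ i, i ∈ R.L.A := by
      intro i
      rcases R.L.exh i with h | ⟨s, h⟩
      · rw [h]; exact hA
      · rw [h]; exact R.L.C_mem s
    obtain ⟨I, hIc, hImin⟩ := R.exists_min (c := c) (by omega)
    obtain ⟨u, hu⟩ : ∃ u, u ∉ I.image R.L.cl := by
      by_contra hcon
      push Not at hcon
      have h1 : (univ : Finset (ZMod d)).card ≤ (I.image R.L.cl).card :=
        card_le_card fun x _ => hcon x
      rw [card_univ, ZMod.card] at h1
      have h2 : (I.image R.L.cl).card ≤ I.card := card_image_le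
      omega
    have claim : ∀ n : ℕ, ∃ I, I.card = c ∧ IsMin R.T.b I ∧ ∀ i ∈ I, R.L.cl i ≠ u + n := by
      intro n
      induction n with
      | zero =>
        refine ⟨I, hIc, hImin, fun i hi h => hu (mem_image.2 ⟨i, hi, ?_⟩)⟩
        rw [h, Nat.cast_zero, add_zero]
      | succ n ih =>
        obtain ⟨I', hc', hmin', hcl'⟩ := ih
        obtain ⟨t, J, π, hm, hJmin, hJc⟩ := R.min_step (R.ne_univ (by omega)) hmin'
        refine ⟨J, hJc.trans hc', hJmin, fun j hj h => ?_⟩
        obtain ⟨i, hi, rfl⟩ := hm.surj _ hj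
        obtain ⟨-, h2⟩ := facet_step (hm.facet _ hi) (hAll i)
        rw [h2] at h
        push_cast at h
        rw [← add_assoc] at h
        exact hcl' i hi (add_right_cancel h)
    obtain ⟨I', hc', hmin', hcl'⟩ := claim (-u).val
    rw [ZMod.natCast_zmod_val, add_neg_cancel] at hcl'
    have hs : R.L.star ∉ I' := fun h => hcl' _ h R.L.cl_star
    obtain ⟨J, hJ⟩ := R.exists_CS hs
    rw [hJ] at hc' hmin'
    rw [card_CS] at hc'
    exact ⟨J, hc', hmin'⟩
  · by_contra hcon
    push Not at hcon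
    have hCA : ∀ {t : κ} {s : ZMod d} {j : ι}, Facet R.T.b (R.T.B t) (R.L.C s) j →
        j = R.L.C (s + 1) := by
      intro t s j hf
      obtain ⟨h1, h2⟩ := facet_step hf (R.L.C_mem s)
      rw [R.L.cl_C] at h2
      rw [← h2]
      exact R.L.eq_C_of_ne_star fun h => hA (h ▸ h1)
    have hstar : ∀ I, I.card = c → IsMin R.T.b I → R.L.star ∈ I := by
      intro I hIc hImin
      by_contra hs
      obtain ⟨J, hJ⟩ := R.exists_CS hs
      rw [hJ] at hIc hImin
      rw [card_CS] at hIc
      exact hcon J hIc hImin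
    obtain ⟨I, hIc, hImin⟩ := R.exists_min (c := c) (by omega)
    obtain ⟨x, hx, hxs⟩ : ∃ x ∈ I, x ≠ R.L.star := by
      obtain ⟨x, hx, h⟩ := exists_mem_ne (by rw [hIc]; omega : 1 < I.card) R.L.star
      exact ⟨x, hx, h⟩
    obtain ⟨s0, hs0⟩ : ∃ s, x = R.L.C s := ⟨_, R.L.eq_C_of_ne_star hxs⟩
    have claim : ∀ n : ℕ, ∃ I, I.card = c ∧ IsMin R.T.b I ∧ R.L.C (s0 + n) ∈ I := by
      intro n
      induction n with
      | zero => exact ⟨I, hIc, hImin, by rw [Nat.cast_zero, add_zero, ← hs0]; exact hx⟩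
      | succ n ih =>
        obtain ⟨I', hc', hmin', hmem⟩ := ih
        obtain ⟨t, J, π, hm, hJmin, hJc⟩ := R.min_step (R.ne_univ (by omega)) hmin'
        refine ⟨J, hJc.trans hc', hJmin, ?_⟩
        have h1 := hm.maps _ hmem
        rw [hCA (hm.facet _ hmem)] at h1
        push_cast
        rwa [← add_assoc]
    refine R.no_symm R.mm_shift ?_
    intro s
    obtain ⟨I', hc', hmin', hmem⟩ := claim (s - s0).val
    rw [ZMod.natCast_zmod_val, add_sub_cancel] at hmem
    obtain ⟨t, J, π, hm, hJmin, hJc⟩ := R.min_step (R.ne_univ (by omega)) hmin'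
    have hsI := hstar I' hc' hmin'
    have hsJ := hstar J (hJc.trans hc') hJmin
    have hpstar : π R.L.star = R.L.star := by
      obtain ⟨i, hi, hpi⟩ := hm.surj _ hsJ
      rcases R.L.exh i with h1 | ⟨s, hs⟩
      · rwa [h1] at hpi
      · have h2 := hm.facet i hi
        rw [hs] at h2
        have h3 := hCA h2
        rw [← hs, hpi] at h3
        exact absurd h3.symm (R.L.star_ne _)
    have h1 := hm.facet _ hsI
    rw [hpstar] at h1
    have h2 := hm.facet _ hmem
    rw [hCA h2] at h2
    exact (R.T.facet_mm h1 h2).symm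

/-- The edge vectors at `star`. -/
noncomputable def w (R : CRep d ι κ E) (s : ZMod d) : E := R.T.b (R.L.C s) - R.T.b R.L.star

/-- The normalized edge vectors at `star`. -/
noncomputable def uu (R : CRep d ι κ E) (s : ZMod d) : E := fn R.T.b (R.L.C s) • R.w s

theorem nu_uu (R : CRep d ι κ E) [DecidableEq (ZMod d)] (s j : ZMod d) :
    ⟪nu R.T.b (R.L.C j), R.uu s⟫ = if j = s then 1 else 0 := by
  classical
  have := R.nontrivial
  rw [nu_eq_lin, uu, map_smul, w, lin_diff, smul_eq_mul, if_neg (R.L.star_ne j), sub_zero]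
  have h := (fn_pos R.T.b (R.L.C j)).ne'
  by_cases hjs : j = s
  · rw [hjs] at h ⊢
    simp [h]
  · rw [if_neg (fun hh => hjs (R.L.C_inj hh)), if_neg hjs]
    simp

theorem ext_nu (R : CRep d ι κ E) {x y : E}
    (h : ∀ j, ⟪nu R.T.b (R.L.C j), x⟫ = ⟪nu R.T.b (R.L.C j), y⟫) : x = y := by
  classical
  have := R.nontrivial
  have h1 : ∀ i, lin R.T.b i (x - y) = 0 := by
    have h2 : ∀ s, lin R.T.b (R.L.C s) (x - y) = 0 := by
      intro s
      rw [lin_eq_nu, inner_sub_right, h s, sub_self, mul_zero]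
    intro i
    rcases R.L.exh i with hi | ⟨s, hs⟩
    · have h3 := sum_lin R.T.b (x - y)
      rw [← add_sum_erase univ _ (mem_univ i), sum_eq_zero, add_zero] at h3
      · exact h3
      · intro j hj
        have hj' : j ≠ R.L.star := fun h => (mem_erase.1 hj).1 (h.trans hi.symm)
        rw [R.L.eq_C_of_ne_star hj']
        exact h2 _
    · rw [hs]; exact h2 s
  have h4 := vec_eq R.T.b 0 (x - y)
  rw [sum_eq_zero (fun i _ => by rw [h1 i, zero_smul])] at h4
  exact sub_eq_zero.1 h4

theorem G_uu (R : CRep d ι κ E) (s : ZMod d) : R.G (R.uu (s + 1)) = R.uu s := by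
  classical
  refine R.ext_nu fun j => ?_
  rw [← R.hG j, R.G.inner_map_map, nu_uu, R.hG j, nu_uu]
  by_cases h : j = s
  · simp [h]
  · rw [if_neg h, if_neg (fun hh => h (add_right_cancel hh))]

theorem inner_uu (R : CRep d ι κ E) (s s' u : ZMod d) :
    ⟪R.uu (s + u), R.uu (s' + u)⟫ = ⟪R.uu s, R.uu s'⟫ := by
  have h : ∀ n : ℕ, ⟪R.uu (s + n), R.uu (s' + n)⟫ = ⟪R.uu s, R.uu s'⟫ := by
    intro n
    induction n with
    | zero => simp
    | succ n ih =>
      rw [← ih, ← R.G_uu (s + n), ← R.G_uu (s' + n), R.G.inner_map_map]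
      push_cast
      rw [add_assoc, add_assoc]
  have := h u.val
  rwa [ZMod.natCast_zmod_val] at this

theorem norm_uu (R : CRep d ι κ E) (s : ZMod d) : ‖R.uu s‖ = ‖R.uu 0‖ := by
  have h := R.inner_uu 0 0 s
  rw [zero_add, real_inner_self_eq_norm_sq, real_inner_self_eq_norm_sq] at h
  exact (sq_eq_sq₀ (norm_nonneg _) (norm_nonneg _)).1 h

theorem uu_ne_zero (R : CRep d ι κ E) (s : ZMod d) : R.uu s ≠ 0 := by
  classical
  intro h
  have := R.nu_uu s s
  rw [h, inner_zero_right, if_pos rfl] at this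
  norm_num at this

theorem norm_uu_pos (R : CRep d ι κ E) : 0 < ‖R.uu 0‖ := norm_pos_iff.2 (R.uu_ne_zero 0)

theorem w_eq (R : CRep d ι κ E) (s : ZMod d) : R.w s = (fn R.T.b (R.L.C s))⁻¹ • R.uu s := by
  have := R.nontrivial
  rw [uu, smul_smul, inv_mul_cancel₀ (fn_pos _ _).ne', one_smul]

theorem norm_w (R : CRep d ι κ E) (s : ZMod d) :
    ‖R.w s‖ = ‖R.uu 0‖ / fn R.T.b (R.L.C s) := by
  have := R.nontrivial
  rw [w_eq, norm_smul, norm_uu, norm_inv, Real.norm_of_nonneg (fn_pos _ _).le]
  field_simp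

end CRep

end Pool.Agent.Lib.MP_9fc4df_co
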