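import Mathlib

/-!
The cyclic structure of a nonnegative integer matrix with an eigenvalue `k ^ ((d - 1) / d)`.
-/

open Finset Polynomial

namespace Pool.Agent.Lib.MP_9fc4df_co

/-- Every conjugate of `lam` gives an eigenvector. -/
theorem exists_conj_vector {ι : Type*} [Fintype ι] [DecidableEq ι] {d k : ℕ} (hd : 0 < d)
    (hirr : Irreducible (X ^ d - C (k : ℚ) : ℚ[X])) {lam : ℝ} (hlam : lam ^ d = k)
    (Bm : ι → ι → ℕ) (f : ι → ℝ) (hf : ∃ i, f i ≠ 0)
    (hrel : ∀ i, (k : ℝ) * f i = lam * ∑ j, (Bm i j : ℝ) * f j) {z : ℂ} (hz : z ^ d = k) :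
    ∃ g : ι → ℂ, (∃ i, g i ≠ 0) ∧ ∀ i, (k : ℂ) * g i = z * ∑ j, (Bm i j : ℂ) * g j := by
  let M : Matrix ι ι ℚ[X] := fun i j => (if i = j then C (k : ℚ) else 0) - X * C (Bm i j : ℚ)
  have hP1 : aeval lam M.det = 0 := by
    have h1 : aeval lam M.det = ((aeval lam : ℚ[X] →ₐ[ℚ] ℝ).toRingHom.mapMatrix M).det :=
      RingHom.map_det (aeval lam : ℚ[X] →ₐ[ℚ] ℝ).toRingHom M
    rw [h1]
    rw [← Matrix.exists_mulVec_eq_zero_iff]
    refine ⟨f, ?_, ?_⟩
    · obtain ⟨i, hi⟩ := hf
      intro h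
      exact hi (congrFun h i)
    · funext i
      have h2 : ∀ j, ((aeval lam : ℚ[X] →ₐ[ℚ] ℝ).toRingHom.mapMatrix M) i j =
          (if i = j then (k : ℝ) else 0) - lam * (Bm i j : ℝ) := by
        intro j
        change aeval lam (M i j) = _
        simp only [M]
        split_ifs <;> simp
      simp only [Matrix.mulVec, dotProduct, h2, sub_mul, sum_sub_distrib, ite_mul, zero_mul,
        sum_ite_eq, mem_univ, if_true, Pi.zero_apply]
      rw [hrel i, mul_sum]
      simp only [mul_assoc, sub_self]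
  have hmin : minpoly ℚ lam = X ^ d - C (k : ℚ) := by
    symm
    refine minpoly.eq_of_irreducible_of_monic hirr ?_ (monic_X_pow_sub_C _ hd.ne')
    simp [hlam]
  have hdvd : X ^ d - C (k : ℚ) ∣ M.det := by
    rw [← hmin]
    exact minpoly.dvd ℚ lam hP1
  have hP2 : aeval z M.det = 0 := by
    obtain ⟨Q, hQ⟩ := hdvd
    rw [hQ]
    simp [hz]
  have h1 : aeval z M.det = ((aeval z : ℚ[X] →ₐ[ℚ] ℂ).toRingHom.mapMatrix M).det :=
    RingHom.map_det (aeval z : ℚ[X] →ₐ[ℚ] ℂ).toRingHom M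
  rw [h1, ← Matrix.exists_mulVec_eq_zero_iff] at hP2
  obtain ⟨g, hg0, hg⟩ := hP2
  refine ⟨g, ?_, fun i => ?_⟩
  · by_contra hcon
    push Not at hcon
    exact hg0 (funext hcon)
  · have h2 : ∀ j, ((aeval z : ℚ[X] →ₐ[ℚ] ℂ).toRingHom.mapMatrix M) i j =
          (if i = j then (k : ℂ) else 0) - z * (Bm i j : ℂ) := by
      intro j
      change aeval z (M i j) = _
      simp only [M]
      split_ifs <;> simp
    have h3 := congrFun hg i
    simp only [Matrix.mulVec, dotProduct, h2, sub_mul, sum_sub_distrib, ite_mul, zero_mul,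
        sum_ite_eq, mem_univ, if_true, Pi.zero_apply] at h3
    rw [mul_sum]
    simp only [mul_assoc] at h3
    exact sub_eq_zero.1 h3

/-- Rigidity of convex combinations of maximal modulus. -/
theorem eq_of_convex_comb {ι : Type*} [Fintype ι] (p : ι → ℝ) (hp : ∀ i, 0 ≤ p i)
    (hsum : ∑ i, p i = 1) (h : ι → ℂ) {t : ℝ} (hle : ∀ i, ‖h i‖ ≤ t) {c : ℂ}
    (hc : c = ∑ i, (p i : ℂ) * h i) (hct : ‖c‖ = t) : ∀ i, p i ≠ 0 → h i = c := by
  have ht : 0 ≤ t := hct ▸ norm_nonneg c
  have h1 : ∑ i, p i * ‖h i - c‖ ^ 2 ≤ 0 := by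
    have h2 : ∀ i, ‖h i - c‖ ^ 2 = ‖h i‖ ^ 2 - 2 * (h i * (starRingEnd ℂ) c).re + ‖c‖ ^ 2 := by
      intro i
      simp only [Complex.sq_norm, Complex.normSq_sub]
      ring
    have h3 : ∑ i, p i * (h i * (starRingEnd ℂ) c).re = ‖c‖ ^ 2 := by
      have h4 : (∑ i, (p i : ℂ) * (h i * (starRingEnd ℂ) c)).re = ‖c‖ ^ 2 := by
        have : ∑ i, (p i : ℂ) * (h i * (starRingEnd ℂ) c) = c * (starRingEnd ℂ) c := by
          conv_rhs => rw [hc]
          rw [sum_mul, ← hc]
          exact sum_congr rfl fun i _ => by ring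
        rw [this, Complex.mul_conj, Complex.ofReal_re, Complex.sq_norm]
      rw [← h4, Complex.re_sum]
      refine sum_congr rfl fun i _ => ?_
      rw [Complex.re_ofReal_mul]
    have h5 : ∑ i, p i * ‖h i - c‖ ^ 2 =
        ∑ i, p i * ‖h i‖ ^ 2 - 2 * ∑ i, p i * (h i * (starRingEnd ℂ) c).re +
          (∑ i, p i) * ‖c‖ ^ 2 := by
      rw [mul_sum, sum_mul, ← sum_sub_distrib, ← sum_add_distrib]
      refine sum_congr rfl fun i _ => ?_
      rw [h2 i]; ring
    rw [h5, h3, hsum]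
    have h6 : ∑ i, p i * ‖h i‖ ^ 2 ≤ ∑ i, p i * t ^ 2 := by
      refine sum_le_sum fun i _ => mul_le_mul_of_nonneg_left ?_ (hp i)
      exact pow_le_pow_left₀ (norm_nonneg _) (hle i) 2
    rw [← sum_mul, hsum, one_mul] at h6
    rw [hct]
    linarith
  intro i hi
  have h2 := (sum_eq_zero_iff_of_nonneg (fun i _ => mul_nonneg (hp i) (by positivity))).1
    (le_antisymm h1 (sum_nonneg fun i _ => mul_nonneg (hp i) (by positivity))) i (mem_univ i)
  rcases mul_eq_zero.1 h2 with h3 | h3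
  · exact absurd h3 hi
  · have : ‖h i - c‖ = 0 := by simpa using h3
    exact sub_eq_zero.1 (norm_eq_zero.1 this)

/-- A cyclic labelling of an index set with `d + 1` elements. -/
structure Lab (d : ℕ) (ι : Type*) (Bm : ι → ι → ℕ) where
  /-- the labels of the cyclic part -/
  C : ZMod d → ι
  /-- the remaining index -/
  star : ι
  /-- the closed part -/
  A : Finset ι
  /-- the class -/
  cl : ι → ZMod d
  C_inj : Function.Injective C
  star_ne : ∀ s, C s ≠ star
  exh : ∀ x, x = star ∨ ∃ s, x = C s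
  cl_C : ∀ s, cl (C s) = s
  cl_star : cl star = 0
  C_mem : ∀ s, C s ∈ A
  step : ∀ i ∈ A, ∀ j, Bm i j ≠ 0 → j ∈ A ∧ cl j = cl i + 1

theorem exists_phases {ι : Type*} [Fintype ι] [DecidableEq ι] {d k : ℕ} (hd : 0 < d)
    (hirr : Irreducible (X ^ d - C (k : ℚ) : ℚ[X])) {lam : ℝ} (hpos : 0 < lam)
    (hlam : lam ^ d = k)
    (Bm : ι → ι → ℕ) (f : ι → ℝ) (hf : ∀ i, 0 < f i) (hne : Nonempty ι)
    (hrel : ∀ i, (k : ℝ) * f i = lam * ∑ j, (Bm i j : ℝ) * f j) :
    ∃ (ζ : ℂ) (A : Finset ι) (h : ι → ℂ), IsPrimitiveRoot ζ d ∧ A.Nonempty ∧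
      (∀ i ∈ A, h i ≠ 0) ∧ ∀ i ∈ A, ∀ j, Bm i j ≠ 0 → j ∈ A ∧ h j = ζ * h i := by
  obtain ⟨ω, hω⟩ : ∃ ω : ℂ, IsPrimitiveRoot ω d := ⟨_, Complex.isPrimitiveRoot_exp d hd.ne'⟩
  have hk : (0 : ℝ) < k := by rw [← hlam]; positivity
  have hkC : (k : ℂ) ≠ 0 := by exact_mod_cast hk.ne'
  have hz : ((lam : ℂ) * ω) ^ d = k := by
    rw [mul_pow, hω.pow_eq_one, mul_one]
    exact_mod_cast hlam
  obtain ⟨i0⟩ := hne
  obtain ⟨g, ⟨i1, hg0⟩, hg⟩ := exists_conj_vector hd hirr hlam Bm f ⟨i0, (hf i0).ne'⟩ hrel hz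
  have hω0 : ω ≠ 0 := hω.ne_zero hd.ne'
  have hωn : ‖ω‖ = 1 := by
    have := hω.pow_eq_one
    have h2 : ‖ω‖ ^ d = 1 := by rw [← norm_pow, this, norm_one]
    exact (pow_eq_one_iff_of_nonneg (norm_nonneg _) hd.ne').1 h2
  let h : ι → ℂ := fun i => g i / f i
  obtain ⟨m, -, hm⟩ := exists_max_image univ (fun i => ‖h i‖) ⟨i0, mem_univ _⟩
  set t := ‖h m‖ with ht
  have htpos : 0 < t := by
    have h1 := hm i1 (mem_univ _)
    refine lt_of_lt_of_le ?_ h1
    rw [norm_pos_iff]
    exact div_ne_zero hg0 (by exact_mod_cast (hf i1).ne')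
  refine ⟨ω⁻¹, univ.filter (fun i => ‖h i‖ = t), h, hω.inv, ⟨m, by simp [ht]⟩, ?_, ?_⟩
  · intro i hi h0
    have : ‖h i‖ = t := by simpa using hi
    rw [h0, norm_zero] at this
    exact htpos.ne this
  · intro i hi j hj
    have hi' : ‖h i‖ = t := by simpa using hi
    have hfi := hf i
    let p : ι → ℝ := fun j => lam * (Bm i j : ℝ) * f j / (k * f i)
    have hp : ∀ j, 0 ≤ p j := fun j => by
      have := (hf j).le
      positivity
    have hsum : ∑ j, p j = 1 := by
      simp only [p]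
      rw [← sum_div, div_eq_one_iff_eq (by positivity), hrel i, mul_sum]
      exact sum_congr rfl fun j _ => by ring
    have hc : ω⁻¹ * h i = ∑ j, (p j : ℂ) * h j := by
      have h1 := hg i
      have hfiC : (f i : ℂ) ≠ 0 := by exact_mod_cast hfi.ne'
      have h2 : ∀ j, (p j : ℂ) * h j = lam * ((Bm i j : ℂ) * g j) / (k * f i) := by
        intro j
        have hfjC : (f j : ℂ) ≠ 0 := by exact_mod_cast (hf j).ne'
        simp only [p, h]
        push_cast
        field_simp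
      simp only [h2]
      rw [← sum_div, ← mul_sum, eq_div_iff (mul_ne_zero hkC hfiC)]
      have h3 : ω⁻¹ * h i * (k * f i) = ω⁻¹ * (k * g i) := by
        simp only [h]
        field_simp
      rw [h3, h1]
      field_simp
    have hres := eq_of_convex_comb p hp hsum h (t := t) (fun j => hm j (mem_univ j)) hc
      (by rw [norm_mul, norm_inv, hωn, inv_one, one_mul, hi']) j (by
        have h1 := hf j
        have h2 : (0 : ℝ) < Bm i j := by exact_mod_cast Nat.pos_of_ne_zero hj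
        have : 0 < p j := by
          simp only [p]
          positivity
        exact this.ne')
    refine ⟨?_, hres⟩
    simp only [mem_filter, mem_univ, true_and]
    rw [hres, norm_mul, norm_inv, hωn, inv_one, one_mul, hi']

theorem exists_lab {ι : Type*} [Fintype ι] [DecidableEq ι] {d k : ℕ} (hd : 2 ≤ d)
    (hcard : Fintype.card ι = d + 1)
    (hirr : Irreducible (X ^ d - C (k : ℚ) : ℚ[X])) {lam : ℝ} (hpos : 0 < lam)
    (hlam : lam ^ d = k)
    (Bm : ι → ι → ℕ) (f : ι → ℝ) (hf : ∀ i, 0 < f i)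
    (hrel : ∀ i, (k : ℝ) * f i = lam * ∑ j, (Bm i j : ℝ) * f j) :
    Nonempty (Lab d ι Bm) := by
  classical
  have : NeZero d := ⟨by omega⟩
  have hne : Nonempty ι := Fintype.card_pos_iff.1 (by omega)
  obtain ⟨ζ, A, h, hζ, ⟨i0, hi0⟩, hh, hstep⟩ :=
    exists_phases (by omega) hirr hpos hlam Bm f hf hne hrel
  have hk : (0 : ℝ) < k := by rw [← hlam]; positivity
  have hNne : ∀ i, ∃ j, Bm i j ≠ 0 := by
    intro i
    by_contra hcon
    push Not at hcon
    have h1 := hrel i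
    rw [sum_eq_zero (fun j _ => by rw [hcon j]; simp), mul_zero] at h1
    have := mul_pos hk (hf i)
    linarith
  choose N hN using hNne
  have hζ0 : ζ ≠ 0 := hζ.ne_zero (by omega)
  -- the exponential on `ZMod d`
  let e : ZMod d → ℂ := fun s => ζ ^ s.val
  have he1 : ∀ s, e (s + 1) = ζ * e s := by
    intro s
    simp only [e]
    rw [← pow_succ', ZMod.val_add, ZMod.val_one'' (by omega)]
    conv_rhs => rw [← Nat.mod_add_div (s.val + 1) d, pow_add, pow_mul, hζ.pow_eq_one, one_pow,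
      mul_one]
  have heinj : Function.Injective e := by
    intro s s' hss
    exact ZMod.val_injective d (hζ.pow_inj (ZMod.val_lt s) (ZMod.val_lt s') hss)
  let it : ℕ → ι := fun n => N^[n] i0
  have hit : ∀ n, it n ∈ A ∧ h (it n) = ζ ^ n * h i0 := by
    intro n
    induction n with
    | zero => exact ⟨hi0, by simp [it]⟩
    | succ n ih =>
      have h1 : it (n + 1) = N (it n) := by
        simp only [it, Function.iterate_succ', Function.comp_apply]
      rw [h1]
      obtain ⟨h2, h3⟩ := hstep (it n) ih.1 _ (hN (it n))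
      refine ⟨h2, ?_⟩
      rw [h3, ih.2, pow_succ']; ring
  let C0 : ZMod d → ι := fun s => it s.val
  have hC0 : ∀ s, C0 s ∈ A ∧ h (C0 s) = e s * h i0 := fun s => hit s.val
  have hC0inj : Function.Injective C0 := by
    intro s s' hss
    have h1 := (hC0 s).2
    have h2 := (hC0 s').2
    rw [hss, h2] at h1
    exact (heinj (mul_right_cancel₀ (hh i0 hi0) h1)).symm
  -- the remaining element
  have hcardim : (univ.image C0).card = d := by
    rw [card_image_of_injective _ hC0inj, card_univ, ZMod.card]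
  have hcompl : ((univ.image C0)ᶜ).card = 1 := by
    rw [card_compl, hcardim, hcard]; omega
  obtain ⟨star, hstar⟩ := card_eq_one.1 hcompl
  have hstar_ne : ∀ s, C0 s ≠ star := by
    intro s hs
    have : star ∈ (univ.image C0)ᶜ := by rw [hstar]; exact mem_singleton_self _
    rw [mem_compl] at this
    exact this (mem_image.2 ⟨s, mem_univ _, hs⟩)
  have hexh : ∀ x, x = star ∨ ∃ s, x = C0 s := by
    intro x
    by_cases hx : x ∈ univ.image C0
    · obtain ⟨s, -, hs⟩ := mem_image.1 hx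
      exact Or.inr ⟨s, hs.symm⟩
    · have : x ∈ (univ.image C0)ᶜ := mem_compl.2 hx
      rw [hstar, mem_singleton] at this
      exact Or.inl this
  obtain ⟨s0, hs0⟩ : ∃ s0 : ZMod d, star ∈ A → h star = e s0 * h i0 := by
    by_cases hsA : star ∈ A
    · obtain ⟨h1, h2⟩ := hstep star hsA _ (hN star)
      rcases hexh (N star) with h3 | ⟨s, hs⟩
      · rw [h3] at h2
        have h4 : ζ = 1 := by
          have h5 : (1 : ℂ) * h star = ζ * h star := by rw [one_mul]; exact h2
          exact (mul_right_cancel₀ (hh star hsA) h5).symm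
        have := hζ.pow_inj (i := 0) (j := 1) (by omega) (by omega) (by rw [h4]; simp)
        omega
      · refine ⟨s - 1, fun _ => ?_⟩
        rw [hs, (hC0 s).2] at h2
        have h3 : e s = ζ * e (s - 1) := by rw [← he1, sub_add_cancel]
        rw [h3, mul_assoc] at h2
        exact (mul_left_cancel₀ hζ0 h2).symm
    · exact ⟨0, fun h => absurd h hsA⟩
  -- relabel
  let C1 : ZMod d → ι := fun s => C0 (s + s0)
  have hC1inj : Function.Injective C1 := fun s s' hss => add_right_cancel (hC0inj hss)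
  have hexh1 : ∀ x, x = star ∨ ∃ s, x = C1 s := by
    intro x
    rcases hexh x with h1 | ⟨s, hs⟩
    · exact Or.inl h1
    · exact Or.inr ⟨s - s0, by simp only [C1, sub_add_cancel]; exact hs⟩
  let cl : ι → ZMod d := fun x => if hx : ∃ s, C1 s = x then hx.choose else 0
  have hclC : ∀ s, cl (C1 s) = s := by
    intro s
    have hx : ∃ s', C1 s' = C1 s := ⟨s, rfl⟩
    simp only [cl, dif_pos hx]
    exact hC1inj hx.choose_spec
  have hclstar : cl star = 0 := by
    simp only [cl]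
    rw [dif_neg]
    rintro ⟨s, hs⟩
    exact hstar_ne _ hs
  have hphase : ∀ i ∈ A, h i = e (cl i + s0) * h i0 := by
    intro i hi
    rcases hexh1 i with h1 | ⟨s, hs⟩
    · rw [h1, hclstar, zero_add]
      exact hs0 (h1 ▸ hi)
    · rw [hs, hclC]
      exact (hC0 _).2
  refine ⟨⟨C1, star, A, cl, hC1inj, fun s => hstar_ne _, hexh1, hclC, hclstar,
    fun s => (hC0 _).1, ?_⟩⟩
  intro i hi j hj
  obtain ⟨h1, h2⟩ := hstep i hi j hj
  refine ⟨h1, ?_⟩
  rw [hphase j h1, hphase i hi, ← mul_assoc, ← he1] at h2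
  have h3 := heinj (mul_right_cancel₀ (hh i0 hi0) h2)
  have h4 : cl i + s0 + 1 = (cl i + 1) + s0 := by ring
  rw [h4] at h3
  exact add_right_cancel h3

end Pool.Agent.Lib.MP_9fc4df_co
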