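import Mathlib

/-!
Definition of `k`-reptile simplices.
-/

namespace Pool.Agent.Lib.MP_9fc4df_co

/-- The closed simplex spanned by the vertices of `s`. -/
def body {d : ℕ} (s : Affine.Simplex ℝ (EuclideanSpace ℝ (Fin d)) d) :
    Set (EuclideanSpace ℝ (Fin d)) :=
  convexHull ℝ (Set.range s.points)

/-- Two subsets of a metric space are congruent if a surjective isometry of the space maps one
onto the other. -/
def SetCongruent {E : Type*} [MetricSpace E] (A B : Set E) : Prop :=
  ∃ f : E ≃ᵢ E, f '' A = B

/-- Two subsets of a metric space are similar if a bijective dilation of the space (a bijection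
multiplying all distances by a positive constant) maps one onto the other. -/
def SetSimilar {E : Type*} [MetricSpace E] (A B : Set E) : Prop :=
  ∃ f : E ≃ᵈ E, f '' A = B

/-- The `d`-dimensional simplex `s` is a `k`-reptile: it is the union of `k` simplices with pairwise
disjoint interiors, all congruent to one another and each similar to `s`. -/
def IsReptile {d : ℕ} (k : ℕ) (s : Affine.Simplex ℝ (EuclideanSpace ℝ (Fin d)) d) : Prop :=
  ∃ T : Fin k → Affine.Simplex ℝ (EuclideanSpace ℝ (Fin d)) d,
    body s = ⋃ j, body (T j) ∧
    (∀ i j, i ≠ j → Disjoint (interior (body (T i))) (interior (body (T j)))) ∧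
    (∀ i j, SetCongruent (body (T i)) (body (T j))) ∧
    ∀ j, SetSimilar (body s) (body (T j))

end Pool.Agent.Lib.MP_9fc4df_co
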