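import Pool.Agent.Lib.MP_9fc4df_co.Star

/-!
The edges at `star` are good: near a generic point there is a unique tile, with the shifted
matching.
-/

open MeasureTheory Filter Topology Finset Module
open scoped RealInnerProductSpace Pointwise

set_option linter.unusedSectionVars false

open Pool.Agent.Lib.MP_9fc4df_co.Rep

namespace Pool.Agent.Lib.MP_9fc4df_co

section

variable {ι κ E : Type*} [Fintype ι] [Fintype κ] [NormedAddCommGroup E] [InnerProductSpace ℝ E]

/-- A tile containing a vertex of the big simplex has it as a vertex. -/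
theorem Tiling.vertex (T : Tiling ι κ E) {t : κ} {p : ι} (h : InS (T.B t) (T.b p)) :
    ∃ p', T.B t p' = T.b p := by
  classical
  obtain ⟨j, hj⟩ := exists_notMem_Z (T.B t) (T.b p)
  refine ⟨j, ?_⟩
  have hall : ∀ i, i ≠ p → T.b.coord i (T.B t j) = 0 := by
    intro i hi
    refine pair_zero (fun i j => T.sub t i j) h (i := i) ?_ hj
    rw [mem_Z, T.b.coord_apply_ne hi]
  have hp : T.b.coord p (T.B t j) = 1 := by
    have h1 := T.b.sum_coord_apply_eq_one (T.B t j)
    rwa [sum_eq_single p (fun i _ hi => hall i hi) (fun h => absurd (mem_univ _) h)] at h1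
  refine T.b.ext_elem fun i => ?_
  by_cases hi : i = p
  · rw [hi, hp, T.b.coord_apply_eq]
  · rw [hall i hi, T.b.coord_apply_ne hi]

end

namespace CRep

variable {d : ℕ} [NeZero d] {ι κ E : Type*} [Fintype ι] [Fintype κ] [NormedAddCommGroup E]
    [InnerProductSpace ℝ E] [FiniteDimensional ℝ E] [MeasurableSpace E] [BorelSpace E]

theorem isMin_edge (R : CRep d ι κ E) [DecidableEq (ZMod d)] (j : ZMod d) :
    IsMin R.T.b (R.CS (univ.erase j)) := by
  have hdd := R.hd
  obtain ⟨J, hJc, hJmin⟩ := R.exists_min_CS (c := d - 1) (by omega) (by omega)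
  obtain ⟨u, hu⟩ : ∃ u, u ∉ J := by
    by_contra hcon
    push Not at hcon
    have : J = univ := eq_univ_iff_forall.2 hcon
    rw [this, card_univ, ZMod.card] at hJc
    omega
  have hJ : J = univ.erase u := by
    refine eq_of_subset_of_card_le (fun x hx => mem_erase.2 ⟨?_, mem_univ _⟩) ?_
    · intro h; exact hu (h ▸ hx)
    · rw [card_erase_of_mem (mem_univ u), card_univ, ZMod.card, hJc]
  rw [hJ] at hJmin
  have h1 := R.isMin_shift hJmin (j - u)
  have h2 : (univ.erase u).image (· + (j - u)) = univ.erase j := by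
    ext x
    simp only [mem_image, mem_erase, mem_univ, and_true]
    constructor
    · rintro ⟨y, hy, rfl⟩ h
      apply hy
      linear_combination h
    · intro hx
      refine ⟨x - (j - u), ?_, by ring⟩
      intro h
      apply hx
      linear_combination h
  rwa [h2] at h1

theorem edge_generic (R : CRep d ι κ E) [DecidableEq (ZMod d)] (j : ZMod d) {G : Set E}
    (hG : G.Nonempty) (hopen : OpenIn R.T.b (R.CS (univ.erase j)) G)
    (hGF : G ⊆ Face R.T.b (R.CS (univ.erase j))) :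
    ∃ x ∈ G, ∃ t, R.T.Only t x ∧
      ∀ s, s ≠ j → Facet R.T.b (R.T.B t) (R.L.C s) (R.L.C (s + 1)) := by
  have := R.nontrivial
  have hdd := R.hd
  have hfact : Fact (1 < d) := ⟨by omega⟩
  obtain ⟨x, hx, t, honly, π, hm, -, -⟩ := R.T.min_step CS_ne_univ (R.isMin_edge j) hG hopen hGF
  refine ⟨x, hx, t, honly, ?_⟩
  have hmem : ∀ s, s ≠ j → R.L.C s ∈ R.CS (univ.erase j) := fun s hs =>
    C_mem_CS.2 (mem_erase.2 ⟨hs, mem_univ _⟩)
  have hgood : ∀ s, s ≠ j → s + 1 ≠ 0 → π (R.L.C s) = R.L.C (s + 1) := by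
    intro s hs hs1
    obtain ⟨-, h2⟩ := facet_step (hm.facet _ (hmem s hs)) (R.L.C_mem s)
    rw [R.L.cl_C] at h2
    have h3 := R.L.eq_C_of_cl_ne_zero (x := π (R.L.C s)) (by rw [h2]; exact hs1)
    rwa [h2] at h3
  have hall : ∀ s, s ≠ j → π (R.L.C s) = R.L.C (s + 1) := by
    intro s hs
    by_cases hs1 : s + 1 = 0
    swap
    · exact hgood s hs hs1
    obtain ⟨h1, h2⟩ := facet_step (hm.facet _ (hmem s hs)) (R.L.C_mem s)
    rw [R.L.cl_C, hs1] at h2
    rcases R.L.exh (π (R.L.C s)) with h3 | ⟨s', h3⟩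
    · exfalso
      rw [h3] at h1
      have hj0 : j + 1 ≠ 0 := by
        intro h
        apply hs
        rw [eq_neg_of_add_eq_zero_left h, eq_neg_of_add_eq_zero_left hs1]
      refine R.no_xone h1 hj0 fun l hl hlj => ?_
      have hl1 : l - 1 ≠ j := fun h => hlj (by rw [← h, sub_add_cancel])
      have hls : l - 1 + 1 ≠ 0 := by rwa [sub_add_cancel]
      have e1 := hgood (l - 1) hl1 hls
      rw [sub_add_cancel] at e1
      have f1 := hm.facet _ (hmem (l - 1) hl1)
      rw [e1] at f1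
      have f2 := hm.facet _ (hmem s hs)
      rw [h3] at f2
      have f3 := R.T.facet_mm f2 f1
      have f4 := R.mm_shift s (l - 1)
      rw [hs1, sub_add_cancel] at f4
      rw [← f3, f4]
    · rw [h3, R.L.cl_C] at h2
      rw [h3, h2, hs1]
  intro s hs
  have := hm.facet _ (hmem s hs)
  rwa [hall s hs] at this

/-- The points of the edge from `C j` to `star`. -/
noncomputable def ep (R : CRep d ι κ E) (j : ZMod d) (δ : ℝ) : E :=
  R.T.b (R.L.C j) + δ • (R.T.b R.L.star - R.T.b (R.L.C j))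

theorem ep_mem_face (R : CRep d ι κ E) [DecidableEq (ZMod d)] (j : ZMod d) {δ : ℝ} (h0 : 0 < δ)
    (h1 : δ < 1) : R.ep j δ ∈ Face R.T.b (R.CS (univ.erase j)) := by
  classical
  constructor
  · intro i hi
    obtain ⟨s, hs, rfl⟩ := mem_CS.1 hi
    rw [ep, coord_add_smul, lin_diff, AffineBasis.coord_apply, if_neg (R.L.star_ne s),
      if_neg (fun h => (mem_erase.1 hs).1 (R.L.C_inj h))]
    ring
  · intro i hi
    rcases R.L.exh i with h | ⟨s, h⟩
    · rw [h, ep, coord_add_smul, lin_diff, AffineBasis.coord_apply, if_pos rfl,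
        if_neg (R.L.star_ne j).symm]
      linarith
    · have hs : s = j := by
        by_contra hne
        rw [h] at hi
        exact hi (C_mem_CS.2 (mem_erase.2 ⟨hne, mem_univ _⟩))
      rw [h, hs, ep, coord_add_smul, lin_diff, AffineBasis.coord_apply, if_pos rfl,
        if_neg (R.L.star_ne j)]
      linarith

theorem openIn_ep (R : CRep d ι κ E) [DecidableEq (ZMod d)] (j : ZMod d) {ε : ℝ} :
    OpenIn R.T.b (R.CS (univ.erase j)) {x | ∃ δ, 0 < δ ∧ δ < ε ∧ x = R.ep j δ} := by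
  classical
  rintro x ⟨δ, h0, h1, rfl⟩ y hy
  have hy2 : y = lin R.T.b R.L.star y • (R.T.b R.L.star - R.T.b (R.L.C j)) := by
    conv_lhs => rw [vec_eq R.T.b (R.T.b (R.L.C j)) y]
    rw [R.sum_split, add_eq_left]
    refine sum_eq_zero fun s _ => ?_
    by_cases hs : s = j
    · rw [hs, sub_self, smul_zero]
    · rw [hy _ (C_mem_CS.2 (mem_erase.2 ⟨hs, mem_univ _⟩)), zero_smul]
  have hc : Continuous fun e : ℝ => δ + e * lin R.T.b R.L.star y := by fun_prop
  have h2 := hc.tendsto 0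
  simp only [zero_mul, add_zero] at h2
  filter_upwards [h2.eventually (lt_mem_nhds h0), h2.eventually (gt_mem_nhds h1)] with e he1 he2
  refine ⟨δ + e * lin R.T.b R.L.star y, he1, he2, ?_⟩
  conv_lhs => rw [hy2]
  rw [ep, ep, add_smul, smul_smul, add_assoc]

/-- The tile at the vertex `C j` along the edge to `star`. -/
theorem good_edge_vertex (R : CRep d ι κ E) [DecidableEq (ZMod d)] (j : ZMod d) :
    ∃ t, (∀ s, s ≠ j → Facet R.T.b (R.T.B t) (R.L.C s) (R.L.C (s + 1))) ∧
      ∀ t', (∀ᶠ δ in 𝓝[>] (0 : ℝ), InS (R.T.B t') (R.ep j δ)) → t' = t := by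
  have := R.nontrivial
  set v := R.T.b (R.L.C j) with hv
  set y := R.T.b R.L.star - R.T.b (R.L.C j) with hy
  -- tiles meeting the edge near `v` contain `v`
  have h1 : ∀ᶠ δ in 𝓝 (0 : ℝ), ∀ t, InS (R.T.B t) (v + δ • y) → InS (R.T.B t) v := by
    rw [eventually_all]
    intro t
    by_cases ht : InS (R.T.B t) v
    · exact Eventually.of_forall fun _ _ => ht
    · filter_upwards [eventually_notIn (R.T.B t) ht y] with ε hε h
      exact absurd h hε
  obtain ⟨ε, hε, hε2⟩ := Metric.eventually_nhds_iff.1 h1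
  -- generic points arbitrarily close to `v`
  have hgen : ∀ e : ℝ, 0 < e → ∃ δ, 0 < δ ∧ δ < e ∧ ∃ t, R.T.Only t (R.ep j δ) ∧
      ∀ s, s ≠ j → Facet R.T.b (R.T.B t) (R.L.C s) (R.L.C (s + 1)) := by
    intro e he
    have hpos : 0 < min e 1 := lt_min he one_pos
    obtain ⟨x, ⟨δ, h0, hδ, rfl⟩, t, ht1, ht2⟩ := R.edge_generic j
      (G := {x | ∃ δ, 0 < δ ∧ δ < min e 1 ∧ x = R.ep j δ})
      ⟨R.ep j (min e 1 / 2), min e 1 / 2, by linarith, by linarith, rfl⟩ (R.openIn_ep j) (by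
        rintro x ⟨δ, h0, hδ, rfl⟩
        exact R.ep_mem_face j h0 (hδ.trans_le (min_le_right _ _)))
    exact ⟨δ, h0, hδ.trans_le (min_le_left _ _), t, ht1, ht2⟩
  obtain ⟨δ0, h0, hδ0, t, ht1, ht2⟩ := hgen ε hε
  have htv : InS (R.T.B t) v := by
    refine @hε2 δ0 ?_ t ht1.1
    rw [Real.dist_eq, sub_zero, abs_of_pos h0]
    exact hδ0
  have hseg : ∀ δ, 0 ≤ δ → δ ≤ δ0 → InS (R.T.B t) (R.ep j δ) := by
    intro δ hδ1 hδ2 i
    have e1 := htv i
    have e2 := ht1.1 i
    rw [ep, coord_add_smul] at e2 ⊢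
    have e3 : 0 ≤ δ0 - δ := by linarith
    have e4 : δ0 * ((R.T.B t).coord i v + δ * lin (R.T.B t) i y) =
        (δ0 - δ) * (R.T.B t).coord i v +
          δ * ((R.T.B t).coord i v + δ0 * lin (R.T.B t) i y) := by ring
    have e5 : 0 ≤ δ0 * ((R.T.B t).coord i v + δ * lin (R.T.B t) i y) := by
      rw [e4]
      exact add_nonneg (mul_nonneg e3 e1) (mul_nonneg hδ1 e2)
    exact nonneg_of_mul_nonneg_right e5 h0
  refine ⟨t, ht2, fun t' ht' => ?_⟩
  obtain ⟨e, he, he1⟩ := Metric.eventually_nhds_iff.1 (eventually_nhdsWithin_iff.1 ht')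
  have he2 : ∀ δ, 0 < δ → δ < e → InS (R.T.B t') (R.ep j δ) := by
    intro δ hδ1 hδ2
    exact @he1 δ (by rw [Real.dist_eq, sub_zero, abs_of_pos hδ1]; exact hδ2) hδ1
  obtain ⟨δ, hd0, hd1, t'', ht'', -⟩ := hgen (min e δ0) (lt_min he h0)
  have a1 := ht''.2 t (hseg δ hd0.le (hd1.le.trans (min_le_right _ _)))
  have a2 := ht''.2 t' (he2 δ hd0 (hd1.trans_le (min_le_left _ _)))
  rw [a1, a2]

end CRep

end Pool.Agent.Lib.MP_9fc4df_co
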