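import Pool.Agent.Lib.MP_9fc4df_co.Sims

/-!
The fundamental alcove of the affine Weyl group of type `F₄` is a `4`-reptile simplex.
-/

open Finset

namespace Pool.Agent.Lib.MP_9fc4df_co.FFour

open Sims

/-- Euclidean `4`-space. -/
abbrev E := EuclideanSpace ℝ (Fin 4)

/-- The affine functional with the given coefficients. -/
noncomputable def aff (a b c d e : ℝ) : E →ᵃ[ℝ] ℝ where
  toFun x := a * x 0 + b * x 1 + c * x 2 + d * x 3 + e
  linear :=
    { toFun := fun x => a * x 0 + b * x 1 + c * x 2 + d * x 3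
      map_add' := by intro x y; simp; ring
      map_smul' := by intro m x; simp; ring }
  map_vadd' := by intro x y; simp; ring

theorem aff_apply (a b c d e : ℝ) (x : E) :
    aff a b c d e x = a * x 0 + b * x 1 + c * x 2 + d * x 3 + e := rfl

/-- The vertices of the alcove. -/
noncomputable def pts : Fin 5 → E :=
  ![!₂[0, 0, 0, 0], !₂[6, 6, 0, 0], !₂[12, 0, 0, 0], !₂[9, 3, 3, 3], !₂[8, 4, 4, 0]]

/-- The barycentric coordinates of the alcove. -/
noncomputable def dual : Fin 5 → (E →ᵃ[ℝ] ℝ) :=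
  ![aff (-1/12) (-1/12) 0 0 1, aff 0 (1/6) (-1/6) 0 0, aff (1/12) (-1/12) (-1/12) (-1/12) 0,
    aff 0 0 0 (1/3) 0, aff 0 0 (1/4) (-1/4) 0]

theorem dual_pts (i j : Fin 5) : dual i (pts j) = if i = j then 1 else 0 := by
  fin_cases i <;> fin_cases j <;> simp [dual, pts, aff_apply] <;> norm_num

/-- The alcove. -/
noncomputable def alcove : Affine.Simplex ℝ E 4 := ⟨pts, indep_of_dual pts dual dual_pts⟩

theorem forall_dual (P : ℝ → Prop) (x : E) : (∀ i, P (dual i x)) ↔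
    P ((-1/12) * x 0 + (-1/12) * x 1 + 0 * x 2 + 0 * x 3 + 1) ∧
    P (0 * x 0 + (1/6) * x 1 + (-1/6) * x 2 + 0 * x 3 + 0) ∧
    P ((1/12) * x 0 + (-1/12) * x 1 + (-1/12) * x 2 + (-1/12) * x 3 + 0) ∧
    P (0 * x 0 + 0 * x 1 + 0 * x 2 + (1/3) * x 3 + 0) ∧
    P (0 * x 0 + 0 * x 1 + (1/4) * x 2 + (-1/4) * x 3 + 0) := by
  constructor
  · intro h
    exact ⟨h 0, h 1, h 2, h 3, h 4⟩
  · rintro ⟨h0, h1, h2, h3, h4⟩ i
    fin_cases i
    exacts [h0, h1, h2, h3, h4]

theorem mem_body (x : E) : x ∈ body alcove ↔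
    x 0 + x 1 ≤ 12 ∧ x 2 ≤ x 1 ∧ x 1 + x 2 + x 3 ≤ x 0 ∧ 0 ≤ x 3 ∧ x 3 ≤ x 2 := by
  rw [body_of_dual alcove dual dual_pts, Set.mem_ofPred_eq, forall_dual (fun t => 0 ≤ t)]
  constructor
  · rintro ⟨h0, h1, h2, h3, h4⟩
    refine ⟨?_, ?_, ?_, ?_, ?_⟩ <;> linarith
  · rintro ⟨h0, h1, h2, h3, h4⟩
    refine ⟨?_, ?_, ?_, ?_, ?_⟩ <;> linarith

theorem mem_interior (x : E) : x ∈ interior (body alcove) ↔
    x 0 + x 1 < 12 ∧ x 2 < x 1 ∧ x 1 + x 2 + x 3 < x 0 ∧ 0 < x 3 ∧ x 3 < x 2 := by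
  rw [interior_body_of_dual alcove dual dual_pts, Set.mem_ofPred_eq,
    forall_dual (fun t => 0 < t)]
  constructor
  · rintro ⟨h0, h1, h2, h3, h4⟩
    refine ⟨?_, ?_, ?_, ?_, ?_⟩ <;> linarith
  · rintro ⟨h0, h1, h2, h3, h4⟩
    refine ⟨?_, ?_, ?_, ?_, ?_⟩ <;> linarith

/-- The similarity of ratio `1/√2` mapping the alcove onto the first tile. -/
noncomputable def f0 : E ≃ E where
  toFun x := !₂[(x 0 + x 1) / 2, (x 0 - x 1) / 2, (x 2 + x 3) / 2, (x 2 - x 3) / 2]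
  invFun x := !₂[x 0 + x 1, x 0 - x 1, x 2 + x 3, x 2 - x 3]
  left_inv x := by
    ext i
    fin_cases i <;> simp <;> ring
  right_inv x := by
    ext i
    fin_cases i <;> simp

/-- The reflection mapping the first tile onto the second tile. -/
noncomputable def R1 : E ≃ E where
  toFun x := !₂[12 - x 0, x 1, x 2, x 3]
  invFun x := !₂[12 - x 0, x 1, x 2, x 3]
  left_inv x := by
    ext i
    fin_cases i <;> simp
  right_inv x := by
    ext i
    fin_cases i <;> simp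

/-- The reflection mapping the second tile onto the third tile. -/
noncomputable def R2 : E ≃ E where
  toFun x := !₂[x 0 + (12 - (x 0 + x 1 + x 2 + x 3)) / 2, x 1 + (12 - (x 0 + x 1 + x 2 + x 3)) / 2,
    x 2 + (12 - (x 0 + x 1 + x 2 + x 3)) / 2, x 3 + (12 - (x 0 + x 1 + x 2 + x 3)) / 2]
  invFun x := !₂[x 0 + (12 - (x 0 + x 1 + x 2 + x 3)) / 2,
    x 1 + (12 - (x 0 + x 1 + x 2 + x 3)) / 2,
    x 2 + (12 - (x 0 + x 1 + x 2 + x 3)) / 2, x 3 + (12 - (x 0 + x 1 + x 2 + x 3)) / 2]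
  left_inv x := by
    ext i
    fin_cases i <;> simp <;> ring
  right_inv x := by
    ext i
    fin_cases i <;> simp <;> ring

/-- The reflection mapping the third tile onto the fourth tile. -/
noncomputable def R3 : E ≃ E where
  toFun x := !₂[x 0 + (12 - (x 0 + x 1 + x 2 - x 3)) / 2, x 1 + (12 - (x 0 + x 1 + x 2 - x 3)) / 2,
    x 2 + (12 - (x 0 + x 1 + x 2 - x 3)) / 2, x 3 - (12 - (x 0 + x 1 + x 2 - x 3)) / 2]
  invFun x := !₂[x 0 + (12 - (x 0 + x 1 + x 2 - x 3)) / 2,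
    x 1 + (12 - (x 0 + x 1 + x 2 - x 3)) / 2,
    x 2 + (12 - (x 0 + x 1 + x 2 - x 3)) / 2, x 3 - (12 - (x 0 + x 1 + x 2 - x 3)) / 2]
  left_inv x := by
    ext i
    fin_cases i <;> simp <;> ring
  right_inv x := by
    ext i
    fin_cases i <;> simp <;> ring

theorem dist_f0 (x y : E) : dist (f0 x) (f0 y) = Real.sqrt (1 / 2) * dist x y := by
  rw [EuclideanSpace.dist_eq, EuclideanSpace.dist_eq, ← Real.sqrt_mul (by norm_num)]
  congr 1
  simp only [f0, Equiv.coe_fn_mk, Fin.sum_univ_four, Real.dist_eq, sq_abs]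
  simp
  ring

theorem dist_R1 (x y : E) : dist (R1 x) (R1 y) = dist x y := by
  rw [EuclideanSpace.dist_eq, EuclideanSpace.dist_eq]
  congr 1
  simp only [R1, Equiv.coe_fn_mk, Fin.sum_univ_four, Real.dist_eq, sq_abs]
  simp
  ring

theorem dist_R2 (x y : E) : dist (R2 x) (R2 y) = dist x y := by
  rw [EuclideanSpace.dist_eq, EuclideanSpace.dist_eq]
  congr 1
  simp only [R2, Equiv.coe_fn_mk, Fin.sum_univ_four, Real.dist_eq, sq_abs]
  simp
  ring

theorem dist_R3 (x y : E) : dist (R3 x) (R3 y) = dist x y := by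
  rw [EuclideanSpace.dist_eq, EuclideanSpace.dist_eq]
  congr 1
  simp only [R3, Equiv.coe_fn_mk, Fin.sum_univ_four, Real.dist_eq, sq_abs]
  simp
  ring

/-- The four similarities. -/
noncomputable def f : Fin 4 → (E ≃ E) :=
  ![f0, f0.trans R1, (f0.trans R1).trans R2, ((f0.trans R1).trans R2).trans R3]

theorem dist_f (j : Fin 4) (x y : E) : dist (f j x) (f j y) = Real.sqrt (1 / 2) * dist x y := by
  fin_cases j
  · exact dist_f0 x y
  · exact (dist_R1 _ _).trans (dist_f0 x y)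
  · exact (dist_R2 _ _).trans ((dist_R1 _ _).trans (dist_f0 x y))
  · exact (dist_R3 _ _).trans ((dist_R2 _ _).trans ((dist_R1 _ _).trans (dist_f0 x y)))

theorem symm_zero (x : E) : (f 0).symm x = !₂[x 0 + x 1, x 0 - x 1, x 2 + x 3, x 2 - x 3] := rfl

theorem symm_one (x : E) : (f 1).symm x =
    !₂[12 - x 0 + x 1, 12 - x 0 - x 1, x 2 + x 3, x 2 - x 3] := rfl

theorem symm_two (x : E) : (f 2).symm x =
    !₂[12 - x 0 + x 1, x 2 + x 3, 12 - x 0 - x 1, x 2 - x 3] := by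
  change (f 1).symm (R2.symm x) = _
  rw [symm_one]
  ext i
  fin_cases i <;> simp [R2] <;> ring

theorem symm_three (x : E) : (f 3).symm x =
    !₂[12 - x 0 + x 1, x 2 + x 3, x 2 - x 3, 12 - x 0 - x 1] := by
  change (f 2).symm (R3.symm x) = _
  rw [symm_two]
  ext i
  fin_cases i <;> simp [R3] <;> ring

theorem mem_body_mk (a b c d : ℝ) : (!₂[a, b, c, d] : E) ∈ body alcove ↔
    a + b ≤ 12 ∧ c ≤ b ∧ b + c + d ≤ a ∧ 0 ≤ d ∧ d ≤ c := mem_body _

theorem mem_interior_mk (a b c d : ℝ) : (!₂[a, b, c, d] : E) ∈ interior (body alcove) ↔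
    a + b < 12 ∧ c < b ∧ b + c + d < a ∧ 0 < d ∧ d < c := mem_interior _

/-- The alcove is the union of its four tiles. -/
theorem union_iff (x : E) : x ∈ body alcove ↔ ∃ j, (f j).symm x ∈ body alcove := by
  have h : (∃ j, (f j).symm x ∈ body alcove) ↔ ((f 0).symm x ∈ body alcove ∨
      (f 1).symm x ∈ body alcove ∨ (f 2).symm x ∈ body alcove ∨ (f 3).symm x ∈ body alcove) := by
    constructor
    · rintro ⟨j, hj⟩
      fin_cases j
      exacts [.inl hj, .inr (.inl hj), .inr (.inr (.inl hj)), .inr (.inr (.inr hj))]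
    · rintro (h | h | h | h)
      exacts [⟨0, h⟩, ⟨1, h⟩, ⟨2, h⟩, ⟨3, h⟩]
  rw [h, symm_zero, symm_one, symm_two, symm_three, mem_body_mk, mem_body_mk, mem_body_mk,
    mem_body_mk, mem_body]
  constructor
  · rintro ⟨h0, h1, h2, h3, h4⟩
    rcases le_total (x 0) 6 with h5 | h5
    · left
      refine ⟨?_, ?_, ?_, ?_, ?_⟩ <;> linarith
    rcases le_total (x 0 + x 1 + x 2 + x 3) 12 with h6 | h6
    · right; left
      refine ⟨?_, ?_, ?_, ?_, ?_⟩ <;> linarith
    rcases le_total (x 0 + x 1 + x 2 - x 3) 12 with h7 | h7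
    · right; right; left
      refine ⟨?_, ?_, ?_, ?_, ?_⟩ <;> linarith
    · right; right; right
      refine ⟨?_, ?_, ?_, ?_, ?_⟩ <;> linarith
  · rintro (⟨h0, h1, h2, h3, h4⟩ | ⟨h0, h1, h2, h3, h4⟩ | ⟨h0, h1, h2, h3, h4⟩ |
      ⟨h0, h1, h2, h3, h4⟩) <;>
    · refine ⟨?_, ?_, ?_, ?_, ?_⟩ <;> linarith

/-- The index of the tile containing a point in its interior. -/
theorem tile_index (x : E) (j : Fin 4) (hj : (f j).symm x ∈ interior (body alcove)) :
    (j = 0 ↔ x 0 < 6) ∧ (j = 3 ↔ 12 < x 0 + x 1 + x 2 - x 3) ∧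
    ((j = 0 ∨ j = 1) ↔ x 0 + x 1 + x 2 + x 3 < 12) := by
  fin_cases j
  · change (f 0).symm x ∈ _ at hj
    rw [symm_zero, mem_interior_mk] at hj
    obtain ⟨h0, h1, h2, h3, h4⟩ := hj
    refine ⟨⟨fun _ => by linarith, fun _ => rfl⟩, ⟨fun h => absurd h (by decide), fun h => ?_⟩,
      ⟨fun _ => by linarith, fun _ => .inl rfl⟩⟩
    exfalso; linarith
  · change (f 1).symm x ∈ _ at hj
    rw [symm_one, mem_interior_mk] at hj
    obtain ⟨h0, h1, h2, h3, h4⟩ := hj
    refine ⟨⟨fun h => absurd h (by decide), fun h => ?_⟩,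
      ⟨fun h => absurd h (by decide), fun h => ?_⟩,
      ⟨fun _ => by linarith, fun _ => .inr rfl⟩⟩
    · exfalso; linarith
    · exfalso; linarith
  · change (f 2).symm x ∈ _ at hj
    rw [symm_two, mem_interior_mk] at hj
    obtain ⟨h0, h1, h2, h3, h4⟩ := hj
    refine ⟨⟨fun h => absurd h (by decide), fun h => ?_⟩,
      ⟨fun h => absurd h (by decide), fun h => ?_⟩,
      ⟨fun h => absurd h (by decide), fun h => ?_⟩⟩ <;> (exfalso; linarith)
  · change (f 3).symm x ∈ _ at hj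
    rw [symm_three, mem_interior_mk] at hj
    obtain ⟨h0, h1, h2, h3, h4⟩ := hj
    refine ⟨⟨fun h => absurd h (by decide), fun h => ?_⟩,
      ⟨fun h => by linarith, fun h => rfl⟩,
      ⟨fun h => absurd h (by decide), fun h => ?_⟩⟩ <;> (exfalso; linarith)

/-- The alcove is a `4`-reptile simplex. -/
theorem isReptile_four : IsReptile 4 alcove := by
  refine isReptile_of_sims' alcove f (Real.sqrt_pos.2 (by norm_num : (0 : ℝ) < 1 / 2)) dist_f
    union_iff ?_
  intro i j hij x hi hj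
  have h1 := tile_index x i hi
  have h2 := tile_index x j hj
  have h3 : (i = 0 ↔ j = 0) := h1.1.trans h2.1.symm
  have h4 : (i = 3 ↔ j = 3) := h1.2.1.trans h2.2.1.symm
  have h5 : ((i = 0 ∨ i = 1) ↔ (j = 0 ∨ j = 1)) := h1.2.2.trans h2.2.2.symm
  clear h1 h2 hi hj
  revert i j
  decide

/-- The trivial tiling. -/
theorem isReptile_one : IsReptile 1 alcove := by
  refine isReptile_of_sims' alcove (fun _ => Equiv.refl _) one_pos (fun j x y => by simp)
    (fun x => by simp) ?_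
  intro i j hij
  exact absurd (Subsingleton.elim i j) hij

/-- The alcove is a `4 ^ n`-reptile simplex for every `n`. -/
theorem isReptile_four_pow (n : ℕ) : IsReptile (4 ^ n) alcove := by
  induction n with
  | zero => exact isReptile_one
  | succ n ih =>
    rw [pow_succ]
    exact isReptile_mul ih isReptile_four

end Pool.Agent.Lib.MP_9fc4df_co.FFour
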