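import Pool.Agent.Lib.MP_9fc4df_co.Vol

/-!
The facet relation `fn i * r = r ^ d * ∑ j, B i j * fn j`.
-/

open MeasureTheory Filter Topology Finset Module
open scoped RealInnerProductSpace Pointwise

set_option linter.unusedSectionVars false

namespace Pool.Agent.Lib.MP_9fc4df_co

theorem hasDeriv_one_sub (n : ℕ) (c : ℝ) :
    HasDerivAt (fun δ : ℝ => 1 - (1 - c * δ) ^ n) (n * c) 0 := by
  have h1 : HasDerivAt (fun δ : ℝ => 1 - c * δ) (-c) 0 := by
    have := ((hasDerivAt_id (0 : ℝ)).const_mul c).const_sub 1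
    simpa using this
  have h2 := (h1.pow n).const_sub 1
  have h3 : -(↑n * (1 - c * 0) ^ (n - 1) * -c) = n * c := by simp
  rw [h3] at h2
  exact h2

section

variable {ι κ E : Type*} [Fintype ι] [Fintype κ] [NormedAddCommGroup E] [InnerProductSpace ℝ E]
  [FiniteDimensional ℝ E] [MeasurableSpace E] [BorelSpace E]

open Classical in
/-- The number of tiles whose facet `j` lies in the facet `i` of the big simplex. -/
noncomputable def Tiling.BB (T : Tiling ι κ E) (i j : ι) : ℕ :=
  (univ.filter (fun t => Facet T.b (T.B t) i j)).card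

theorem Tiling.BB_pos_iff (T : Tiling ι κ E) (i j : ι) :
    T.BB i j ≠ 0 ↔ ∃ t, Facet T.b (T.B t) i j := by
  classical
  rw [Tiling.BB, Ne, card_eq_zero, filter_eq_empty_iff]
  push Not
  simp

open Classical in
theorem Tiling.tendsto_tile [Nontrivial ι] (T : Tiling ι κ E) (i : ι) (t : κ) :
    Tendsto (fun δ : ℝ => δ⁻¹ * (volume : Measure E).real
      (SS (T.B t) ∩ {x | T.b.coord i x < δ})) (𝓝[>] 0)
      (𝓝 ((finrank ℝ E : ℝ) * (∑ j, if Facet T.b (T.B t) i j then
        fn T.b j / (T.r * fn T.b i) else 0) * (volume : Measure E).real (SS (T.B t)))) := by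
  have hfi := fn_pos T.b i
  have hr := T.r_pos
  by_cases h : ∃ j, Facet T.b (T.B t) i j
  · obtain ⟨j, hj⟩ := h
    have hsum : (∑ j, if Facet T.b (T.B t) i j then fn T.b j / (T.r * fn T.b i) else 0) =
        fn T.b j / (T.r * fn T.b i) := by
      rw [sum_eq_single j]
      · rw [if_pos hj]
      · intro j' _ hne
        rw [if_neg]
        intro hj'
        exact hne (hj'.inj_right hj)
      · intro h; exact absurd (mem_univ j) h
    rw [hsum]
    have hfj := fn_pos T.b j
    set c : ℝ := fn T.b j / (T.r * fn T.b i) with hc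
    have hcpos : 0 < c := by positivity
    have hcoord : ∀ x, T.b.coord i x = c⁻¹ * (T.B t).coord j x := by
      intro x
      rw [T.facet_coord hj x, hc, inv_div]
    have h1 := (hasDeriv_one_sub (finrank ℝ E) c).tendsto_slope_zero_right
    have h2 := h1.mul_const ((volume : Measure E).real (SS (T.B t)))
    refine h2.congr' ?_
    have hsmall : ∀ᶠ δ in 𝓝[>] (0 : ℝ), c * δ < 1 := by
      have : Tendsto (fun δ : ℝ => c * δ) (𝓝[>] 0) (𝓝 0) := by
        have h0 : Tendsto (fun δ : ℝ => c * δ) (𝓝 0) (𝓝 (c * 0)) :=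
          (continuous_const.mul continuous_id).tendsto 0
        rw [mul_zero] at h0
        exact h0.mono_left nhdsWithin_le_nhds
      exact this.eventually (gt_mem_nhds one_pos)
    filter_upwards [hsmall, self_mem_nhdsWithin] with δ hδ hδ0
    have hδ0' : 0 < δ := hδ0
    have hset : {x | T.b.coord i x < δ} = {x | (T.B t).coord j x < c * δ} := by
      ext x
      simp only [Set.mem_ofPred_eq, hcoord x]
      rw [inv_mul_lt_iff₀ hcpos]
    rw [hset, vol_lt (T.B t) j (by positivity) hδ]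
    simp only [zero_add, mul_zero, sub_zero, one_pow, sub_self, smul_eq_mul]
    ring
  · have hsum : (∑ j, if Facet T.b (T.B t) i j then fn T.b j / (T.r * fn T.b i) else 0) = 0 := by
      refine sum_eq_zero fun j _ => ?_
      rw [if_neg]
      intro hj
      exact h ⟨j, hj⟩
    rw [hsum, mul_zero, zero_mul]
    -- two positive coefficients
    have hpos : ∃ j j', j ≠ j' ∧ 0 < T.b.coord i (T.B t j) ∧ 0 < T.b.coord i (T.B t j') := by
      have h1 : ∃ j, 0 < T.b.coord i (T.B t j) := by
        by_contra hcon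
        push Not at hcon
        have h2 := pair_coord T.b (T.B t) i (T.b i)
        rw [T.b.coord_apply_eq, sum_eq_zero] at h2
        · norm_num at h2
        · intro j _
          rw [le_antisymm (hcon j) (T.sub t i j), mul_zero]
      obtain ⟨j, hj⟩ := h1
      by_contra hcon
      push Not at hcon
      refine h ⟨j, T.b.coord i (T.B t j), hj, fun x => ?_⟩
      rw [pair_coord T.b (T.B t) i x, sum_eq_single j]
      · ring
      · intro j' _ hne
        rw [le_antisymm (hcon j j' hne.symm hj) (T.sub t i j'), mul_zero]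
      · intro h; exact absurd (mem_univ j) h
    obtain ⟨j, j', hne, hj, hj'⟩ := hpos
    set a := T.b.coord i (T.B t j) with ha
    set a' := T.b.coord i (T.B t j') with ha'
    have hd : HasDerivAt (fun δ : ℝ => ((1 - (1 - a⁻¹ * δ) ^ finrank ℝ E) +
        (1 - (1 - a'⁻¹ * δ) ^ finrank ℝ E)) - (1 - (1 - (a⁻¹ + a'⁻¹) * δ) ^ finrank ℝ E))
        (((finrank ℝ E : ℝ) * a⁻¹ + (finrank ℝ E : ℝ) * a'⁻¹) -
          (finrank ℝ E : ℝ) * (a⁻¹ + a'⁻¹)) 0 :=
      ((hasDeriv_one_sub (finrank ℝ E) a⁻¹).add (hasDeriv_one_sub (finrank ℝ E) a'⁻¹)).sub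
        (hasDeriv_one_sub (finrank ℝ E) (a⁻¹ + a'⁻¹))
    have h0 : ((finrank ℝ E : ℝ) * a⁻¹ + (finrank ℝ E : ℝ) * a'⁻¹) -
          (finrank ℝ E : ℝ) * (a⁻¹ + a'⁻¹) = 0 := by ring
    rw [h0] at hd
    have h1 := hd.tendsto_slope_zero_right
    have h2 := h1.mul_const ((volume : Measure E).real (SS (T.B t)))
    rw [zero_mul] at h2
    refine tendsto_of_tendsto_of_tendsto_of_le_of_le' tendsto_const_nhds h2 ?_ ?_
    · filter_upwards [self_mem_nhdsWithin] with δ hδ
      have : 0 < δ := hδ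
      positivity
    · have hsmall : ∀ᶠ δ in 𝓝[>] (0 : ℝ), (a⁻¹ + a'⁻¹) * δ < 1 := by
        have : Tendsto (fun δ : ℝ => (a⁻¹ + a'⁻¹) * δ) (𝓝[>] 0) (𝓝 0) := by
          have h0 : Tendsto (fun δ : ℝ => (a⁻¹ + a'⁻¹) * δ) (𝓝 0) (𝓝 ((a⁻¹ + a'⁻¹) * 0)) :=
            (continuous_const.mul continuous_id).tendsto 0
          rw [mul_zero] at h0
          exact h0.mono_left nhdsWithin_le_nhds
        exact this.eventually (gt_mem_nhds one_pos)
      filter_upwards [hsmall, self_mem_nhdsWithin] with δ hδ hδ0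
      have hδ0' : 0 < δ := hδ0
      have hle : (volume : Measure E).real (SS (T.B t) ∩ {x | T.b.coord i x < δ}) ≤
          (volume : Measure E).real (SS (T.B t) ∩
            {x | (T.B t).coord j x < a⁻¹ * δ ∧ (T.B t).coord j' x < a'⁻¹ * δ}) := by
        refine measureReal_mono ?_
          ((measure_mono Set.inter_subset_left).trans_lt (isCompact_SS (T.B t)).measure_lt_top).ne
        rintro x ⟨hx, hxi⟩
        have hxi' : T.b.coord i x < δ := hxi
        rw [pair_coord T.b (T.B t) i x] at hxi'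
        have hterm : ∀ l ∈ (univ : Finset ι), 0 ≤ (T.B t).coord l x * T.b.coord i (T.B t l) :=
          fun l _ => mul_nonneg (hx l) (T.sub t i l)
        have h3 := single_le_sum hterm (mem_univ j)
        have h4 := single_le_sum hterm (mem_univ j')
        refine ⟨hx, ?_, ?_⟩
        · rw [lt_inv_mul_iff₀ hj, mul_comm]
          exact lt_of_le_of_lt h3 hxi'
        · rw [lt_inv_mul_iff₀ hj', mul_comm]
          exact lt_of_le_of_lt h4 hxi'
      rw [vol_lt_lt (T.B t) hne (by positivity) (by positivity) (by linarith)] at hle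
      have h5 : δ⁻¹ * (volume : Measure E).real (SS (T.B t) ∩ {x | T.b.coord i x < δ}) ≤
          δ⁻¹ * ((1 - (1 - a⁻¹ * δ) ^ finrank ℝ E - (1 - a'⁻¹ * δ) ^ finrank ℝ E +
            (1 - a⁻¹ * δ - a'⁻¹ * δ) ^ finrank ℝ E) * (volume : Measure E).real (SS (T.B t))) :=
        mul_le_mul_of_nonneg_left hle (by positivity)
      refine h5.trans (le_of_eq ?_)
      simp only [zero_add, mul_zero, sub_zero, one_pow, sub_self, smul_eq_mul]
      have h6 : 1 - a⁻¹ * δ - a'⁻¹ * δ = 1 - (a⁻¹ + a'⁻¹) * δ := by ring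
      rw [h6]
      ring

/-- (F4) The facet relation. -/
theorem Tiling.facet_rel [Nontrivial ι] (T : Tiling ι κ E) (hd : 0 < finrank ℝ E) (i : ι) :
    T.r * fn T.b i = T.r ^ finrank ℝ E * ∑ j, (T.BB i j : ℝ) * fn T.b j := by
  classical
  have hfi := fn_pos T.b i
  have hr := T.r_pos
  have hV := vol_SS_pos T.b
  have h1 : Tendsto (fun δ : ℝ => δ⁻¹ * (volume : Measure E).real
      (SS T.b ∩ {x | T.b.coord i x < δ})) (𝓝[>] 0)
      (𝓝 (∑ t, ((finrank ℝ E : ℝ) * (∑ j, if Facet T.b (T.B t) i j then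
        fn T.b j / (T.r * fn T.b i) else 0) * (volume : Measure E).real (SS (T.B t))))) := by
    have h2 := tendsto_finsetSum univ (fun t _ => T.tendsto_tile i t)
    refine h2.congr' ?_
    filter_upwards with δ
    rw [T.vol_add (isOpen_lt (continuous_coord T.b i) continuous_const).measurableSet, mul_sum]
  have h2 : Tendsto (fun δ : ℝ => δ⁻¹ * (volume : Measure E).real
      (SS T.b ∩ {x | T.b.coord i x < δ})) (𝓝[>] 0)
      (𝓝 ((finrank ℝ E : ℝ) * 1 * (volume : Measure E).real (SS T.b))) := by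
    have h1 := (hasDeriv_one_sub (finrank ℝ E) 1).tendsto_slope_zero_right
    have h2 := h1.mul_const ((volume : Measure E).real (SS T.b))
    refine h2.congr' ?_
    have hsmall : ∀ᶠ δ in 𝓝[>] (0 : ℝ), δ < 1 :=
      (gt_mem_nhds one_pos).filter_mono nhdsWithin_le_nhds
    filter_upwards [hsmall, self_mem_nhdsWithin] with δ hδ hδ0
    have hδ0' : 0 < δ := hδ0
    rw [vol_lt T.b i hδ0'.le hδ]
    simp only [zero_add, mul_zero, sub_zero, one_pow, sub_self, smul_eq_mul, one_mul]
    ring
  have h3 := tendsto_nhds_unique h1 h2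
  simp only [T.vol_tile] at h3
  have h4 : ∑ t, ((finrank ℝ E : ℝ) * (∑ j, if Facet T.b (T.B t) i j then
        fn T.b j / (T.r * fn T.b i) else 0) * (T.r ^ finrank ℝ E *
          (volume : Measure E).real (SS T.b))) =
      (finrank ℝ E : ℝ) * (volume : Measure E).real (SS T.b) * (T.r ^ finrank ℝ E *
        ((∑ j, (T.BB i j : ℝ) * fn T.b j) / (T.r * fn T.b i))) := by
    have h5 : ∑ t, ∑ j, (if Facet T.b (T.B t) i j then fn T.b j / (T.r * fn T.b i) else 0) =
        (∑ j, (T.BB i j : ℝ) * fn T.b j) / (T.r * fn T.b i) := by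
      rw [sum_comm, sum_div]
      refine sum_congr rfl fun j _ => ?_
      rw [← sum_filter, sum_const, nsmul_eq_mul, Tiling.BB, mul_div_assoc]
    rw [← h5, ← sum_mul, ← mul_sum]
    ring
  rw [h4] at h3
  have hd' : (0 : ℝ) < finrank ℝ E := by exact_mod_cast hd
  have h6 : T.r ^ finrank ℝ E * ((∑ j, (T.BB i j : ℝ) * fn T.b j) / (T.r * fn T.b i)) = 1 := by
    have h7 : (finrank ℝ E : ℝ) * (volume : Measure E).real (SS T.b) ≠ 0 := by positivity
    have h8 : (finrank ℝ E : ℝ) * (volume : Measure E).real (SS T.b) * (T.r ^ finrank ℝ E *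
        ((∑ j, (T.BB i j : ℝ) * fn T.b j) / (T.r * fn T.b i))) =
        (finrank ℝ E : ℝ) * (volume : Measure E).real (SS T.b) * 1 := by
      rw [h3]; ring
    exact mul_left_cancel₀ h7 h8
  field_simp at h6
  linarith

end

end Pool.Agent.Lib.MP_9fc4df_co
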