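import Pool.Agent.Lib.MP_9fc4df_co.Tiling

/-!
Gradients of the barycentric coordinates and unit normals of the facets.
-/

open MeasureTheory Filter Topology Finset
open scoped RealInnerProductSpace

set_option linter.unusedSectionVars false

namespace Pool.Agent.Lib.MP_9fc4df_co

section

variable {ι κ E : Type*} [Fintype ι] [Fintype κ] [NormedAddCommGroup E] [InnerProductSpace ℝ E]
  [FiniteDimensional ℝ E]

/-- The gradient of a barycentric coordinate. -/
noncomputable def grad (b : AffineBasis ι ℝ E) (i : ι) : E :=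
  (InnerProductSpace.toDual ℝ E).symm (LinearMap.toContinuousLinearMap (lin b i))

theorem inner_grad (b : AffineBasis ι ℝ E) (i : ι) (y : E) : ⟪grad b i, y⟫ = lin b i y := by
  simp [grad]

/-- The length of the gradient. -/
noncomputable def fn (b : AffineBasis ι ℝ E) (i : ι) : ℝ := ‖grad b i‖

theorem grad_ne_zero [Nontrivial ι] (b : AffineBasis ι ℝ E) (i : ι) : grad b i ≠ 0 := by
  classical
  intro h
  obtain ⟨p, hp⟩ := exists_ne i
  have h1 := inner_grad b i (b i - b p)
  rw [h, inner_zero_left, lin_diff, if_pos rfl, if_neg (Ne.symm hp)] at h1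
  norm_num at h1

theorem fn_pos [Nontrivial ι] (b : AffineBasis ι ℝ E) (i : ι) : 0 < fn b i :=
  norm_pos_iff.2 (grad_ne_zero b i)

/-- The inner unit normal of a facet. -/
noncomputable def nu (b : AffineBasis ι ℝ E) (i : ι) : E := (fn b i)⁻¹ • grad b i

theorem grad_eq [Nontrivial ι] (b : AffineBasis ι ℝ E) (i : ι) : grad b i = fn b i • nu b i := by
  rw [nu, smul_smul, mul_inv_cancel₀ (fn_pos b i).ne', one_smul]

theorem norm_nu [Nontrivial ι] (b : AffineBasis ι ℝ E) (i : ι) : ‖nu b i‖ = 1 := by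
  rw [nu, norm_smul, norm_inv, Real.norm_of_nonneg (fn_pos b i).le]
  exact inv_mul_cancel₀ (fn_pos b i).ne'

theorem lin_eq_nu [Nontrivial ι] (b : AffineBasis ι ℝ E) (i : ι) (y : E) :
    lin b i y = fn b i * ⟪nu b i, y⟫ := by
  rw [← inner_grad, grad_eq b i, real_inner_smul_left]

theorem nu_eq_lin [Nontrivial ι] (b : AffineBasis ι ℝ E) (i : ι) (y : E) :
    ⟪nu b i, y⟫ = (fn b i)⁻¹ * lin b i y := by
  rw [lin_eq_nu, ← mul_assoc, inv_mul_cancel₀ (fn_pos b i).ne', one_mul]

theorem sum_grad (b : AffineBasis ι ℝ E) : ∑ i, grad b i = 0 := by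
  refine ext_inner_right ℝ fun y => ?_
  rw [sum_inner, inner_zero_left]
  simp only [inner_grad, sum_lin]

theorem sum_fn_nu [Nontrivial ι] (b : AffineBasis ι ℝ E) : ∑ i, fn b i • nu b i = 0 := by
  rw [← sum_grad b]
  exact sum_congr rfl fun i _ => (grad_eq b i).symm

theorem nu_indep [Nontrivial ι] (b : AffineBasis ι ℝ E) {I : Finset ι} (hI : I ≠ univ) (c : ι → ℝ)
    (h : ∑ i ∈ I, c i • nu b i = 0) : ∀ i ∈ I, c i = 0 := by
  have h1 := lin_indep b hI (fun i => c i * (fn b i)⁻¹) (fun y => by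
    have h2 : ⟪∑ i ∈ I, c i • nu b i, y⟫ = 0 := by rw [h, inner_zero_left]
    rw [sum_inner] at h2
    rw [← h2]
    refine sum_congr rfl fun i _ => ?_
    rw [real_inner_smul_left, nu_eq_lin, mul_assoc])
  intro i hi
  have h3 := h1 i hi
  rcases mul_eq_zero.1 h3 with h4 | h4
  · exact h4
  · exact absurd (inv_eq_zero.1 h4) (fn_pos b i).ne'

theorem Tiling.facet_grad (T : Tiling ι κ E) {t : κ} {i j : ι} {a : ℝ}
    (h : ∀ y, lin T.b i y = a * lin (T.B t) j y) :
    grad T.b i = (a * T.r⁻¹) • T.g t (grad T.b j) := by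
  refine ext_inner_right ℝ fun y => ?_
  rw [inner_grad, h y, T.lin_tile, real_inner_smul_left]
  have : ⟪T.g t (grad T.b j), y⟫ = ⟪grad T.b j, (T.g t).symm y⟫ := by
    conv_lhs => rw [← (T.g t).apply_symm_apply y]
    rw [(T.g t).inner_map_map]
  rw [this, inner_grad, mul_assoc]

theorem Tiling.facet_nu [Nontrivial ι] (T : Tiling ι κ E) {t : κ} {i j : ι}
    (h : Facet T.b (T.B t) i j) : nu T.b i = T.g t (nu T.b j) := by
  obtain ⟨a, ha, -, h⟩ := h.lin
  have hg := T.facet_grad h
  have hr := inv_pos.2 T.r_pos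
  have hf : fn T.b i = (a * T.r⁻¹) * fn T.b j := by
    rw [fn, hg, norm_smul, Real.norm_of_nonneg (by positivity), (T.g t).norm_map, fn]
  rw [nu, nu, hg, hf, map_smul, smul_smul]
  congr 1
  have := fn_pos T.b j
  have hr0 := T.r_pos.ne'
  field_simp

theorem Tiling.facet_coord [Nontrivial ι] (T : Tiling ι κ E) {t : κ} {i j : ι}
    (h : Facet T.b (T.B t) i j) (x : E) :
    T.b.coord i x = (T.r * fn T.b i / fn T.b j) * (T.B t).coord j x := by
  obtain ⟨a, ha, h0, h⟩ := h.lin
  have hg := T.facet_grad h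
  have hr := T.r_pos
  have hr' := inv_pos.2 T.r_pos
  have hf : fn T.b i = (a * T.r⁻¹) * fn T.b j := by
    rw [fn, hg, norm_smul, Real.norm_of_nonneg (by positivity), (T.g t).norm_map, fn]
  rw [h0 x, hf]
  have := fn_pos T.b j
  field_simp

/-- The Gram matrix of the unit normals. -/
noncomputable def mm (b : AffineBasis ι ℝ E) (i j : ι) : ℝ := ⟪nu b i, nu b j⟫

theorem mm_comm (b : AffineBasis ι ℝ E) (i j : ι) : mm b i j = mm b j i := real_inner_comm _ _

theorem mm_self [Nontrivial ι] (b : AffineBasis ι ℝ E) (i : ι) : mm b i i = 1 := by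
  rw [mm, real_inner_self_eq_norm_sq, norm_nu, one_pow]

theorem Tiling.facet_mm [Nontrivial ι] (T : Tiling ι κ E) {t : κ} {i j i' j' : ι}
    (h : Facet T.b (T.B t) i j) (h' : Facet T.b (T.B t) i' j') : mm T.b i i' = mm T.b j j' := by
  rw [mm, T.facet_nu h, T.facet_nu h', (T.g t).inner_map_map, mm]

/-- If a combination of all the normals vanishes, it is a multiple of the relation
`∑ fn i • nu i = 0`. -/
theorem kernel_eq [Nontrivial ι] (b : AffineBasis ι ℝ E) (c : ι → ℝ)
    (h : ∑ i, c i • nu b i = 0) (p : ι) (hp : c p = fn b p) : ∀ i, c i = fn b i := by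
  classical
  intro i
  by_cases hi : i = p
  · rw [hi, hp]
  have hI : univ.erase p ≠ univ := by
    intro h
    have := mem_univ p
    rw [← h] at this
    exact notMem_erase p univ this
  have h1 : ∑ i ∈ univ.erase p, (c i - fn b i) • nu b i = 0 := by
    have h2 : ∑ i, (c i - fn b i) • nu b i = 0 := by
      simp only [sub_smul, sum_sub_distrib, h, sum_fn_nu, sub_zero]
    rw [← add_sum_erase univ _ (mem_univ p), hp, sub_self, zero_smul, zero_add] at h2
    exact h2
  have := nu_indep b hI (fun i => c i - fn b i) h1 i (mem_erase.2 ⟨hi, mem_univ i⟩)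
  linarith

/-- A symmetry of the Gram matrix fixing an index preserves `fn`. -/
theorem fn_symm [Nontrivial ι] (b : AffineBasis ι ℝ E) (σ : ι ≃ ι)
    (h : ∀ i j, mm b (σ i) (σ j) = mm b i j) (p : ι) (hp : σ p = p) (i : ι) :
    fn b (σ i) = fn b i := by
  have h1 : ∑ i, fn b (σ i) • nu b i = 0 := by
    rw [← inner_self_eq_zero (𝕜 := ℝ)]
    have h2 : ⟪∑ i, fn b (σ i) • nu b i, ∑ i, fn b (σ i) • nu b i⟫ =
        ⟪∑ i, fn b i • nu b i, ∑ i, fn b i • nu b i⟫ := by
      simp only [sum_inner, inner_sum, real_inner_smul_left, real_inner_smul_right]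
      rw [← Equiv.sum_comp σ (fun i => ∑ j, fn b i * (fn b j * ⟪nu b j, nu b i⟫))]
      refine sum_congr rfl fun i _ => ?_
      rw [← Equiv.sum_comp σ (fun j => fn b (σ i) * (fn b j * ⟪nu b j, nu b (σ i)⟫))]
      refine sum_congr rfl fun j _ => ?_
      have := h j i
      rw [mm, mm] at this
      rw [this]
    rw [h2, sum_fn_nu, inner_zero_left]
  exact kernel_eq b (fun i => fn b (σ i)) h1 p (by simp only [hp]) i

end

end Pool.Agent.Lib.MP_9fc4df_co
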