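import Pool.Agent.Lib.MP_9fc4df_co.Defs
import Pool.Agent.Lib.MP_9fc4df_co.Angles

/-!
From reptile simplices to tilings, and the main theorem.
-/

open MeasureTheory Filter Topology Finset Module

set_option linter.unusedSectionVars false

namespace Pool.Agent.Lib.MP_9fc4df_co

/-- The image of an affine basis under a similarity. -/
theorem exists_image_basis {ι E : Type*} [Fintype ι] [NormedAddCommGroup E]
    [InnerProductSpace ℝ E] (b : AffineBasis ι ℝ E) (f : E ≃ E) {r : ℝ} (hr : 0 < r)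
    (hf : ∀ x y, dist (f x) (f y) = r * dist x y) :
    ∃ (b' : AffineBasis ι ℝ E) (g : E ≃ₗᵢ[ℝ] E), (∀ i, b' i = f (b i)) ∧
      (∀ x y, f x - f y = r • g (x - y)) ∧
      f '' convexHull ℝ (Set.range b) = convexHull ℝ (Set.range b') := by
  -- the isometry
  let h : E ≃ᵢ E :=
    { toEquiv := f.trans (Homeomorph.smulOfNeZero r⁻¹ (inv_ne_zero hr.ne')).toEquiv
      isometry_toFun := by
        refine Isometry.of_dist_eq fun x y => ?_
        change dist (r⁻¹ • f x) (r⁻¹ • f y) = dist x y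
        rw [dist_smul₀, hf, norm_inv, Real.norm_of_nonneg hr.le, ← mul_assoc,
          inv_mul_cancel₀ hr.ne', one_mul] }
  have hh : ∀ x, h x = r⁻¹ • f x := fun x => rfl
  let A : E ≃ᵃⁱ[ℝ] E := h.toRealAffineIsometryEquiv
  have hA : ∀ x, A x = r⁻¹ • f x := by
    intro x
    have : (A : E → E) = h := IsometryEquiv.coeFn_toRealAffineIsometryEquiv h
    rw [this, hh]
  let F : E →ᵃ[ℝ] E := r • A.toAffineEquiv.toAffineMap
  have hF : ∀ x, F x = f x := by
    intro x
    change r • A x = f x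
    rw [hA, smul_smul, mul_inv_cancel₀ hr.ne', one_smul]
  have hFf : (F : E → E) = f := funext hF
  have hFinj : Function.Injective F := by rw [hFf]; exact f.injective
  have hFsurj : Function.Surjective F := by rw [hFf]; exact f.surjective
  let b' : AffineBasis ι ℝ E :=
    { toFun := fun i => F (b i)
      ind' := b.ind.map' F hFinj
      tot' := by
        have : Set.range (fun i => F (b i)) = F '' Set.range b := by
          rw [← Set.range_comp]; rfl
        rw [this]
        exact AffineMap.span_eq_top_of_surjective F hFsurj b.tot }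
  have hb' : ∀ i, b' i = f (b i) := fun i => hF (b i)
  refine ⟨b', A.linearIsometryEquiv, hb', ?_, ?_⟩
  · intro x y
    have h1 : A.linearIsometryEquiv (x - y) = A x - A y := A.map_vsub x y
    rw [h1, hA, hA, ← smul_sub, smul_smul, mul_inv_cancel₀ hr.ne', one_smul]
  · have h1 : (b' : ι → E) = F ∘ b := rfl
    rw [h1, Set.range_comp, ← AffineMap.image_convexHull, hFf]

/-- The affine basis of the vertices of a full-dimensional simplex. -/
theorem exists_basis {d : ℕ} (s : Affine.Simplex ℝ (EuclideanSpace ℝ (Fin d)) d) :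
    ∃ b : AffineBasis (Fin (d + 1)) ℝ (EuclideanSpace ℝ (Fin d)), (b : _ → _) = s.points :=
  ⟨{ toFun := s.points
     ind' := s.independent
     tot' := by
      rw [s.independent.affineSpan_eq_top_iff_card_eq_finrank_add_one]
      simp }, rfl⟩

theorem exists_tiling {d k : ℕ} {s : Affine.Simplex ℝ (EuclideanSpace ℝ (Fin d)) d}
    (h : IsReptile k s) (hk : 0 < k) :
    Nonempty (Tiling (Fin (d + 1)) (Fin k) (EuclideanSpace ℝ (Fin d))) := by
  obtain ⟨T, hunion, hdisj, hcong, hsim⟩ := h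
  obtain ⟨b, hb⟩ := exists_basis s
  have hbody : body s = convexHull ℝ (Set.range b) := by rw [body, hb]
  obtain ⟨f0, hf0⟩ := hsim ⟨0, hk⟩
  choose c hc using hcong ⟨0, hk⟩
  have hr : (0 : ℝ) < Dilation.ratio f0 := by exact_mod_cast Dilation.ratio_pos f0
  have H : ∀ t : Fin k, ∃ (b' : AffineBasis (Fin (d + 1)) ℝ (EuclideanSpace ℝ (Fin d)))
      (g : EuclideanSpace ℝ (Fin d) ≃ₗᵢ[ℝ] EuclideanSpace ℝ (Fin d)),
      (∀ i j, b' i - b' j = (Dilation.ratio f0 : ℝ) • g (b i - b j)) ∧
      body (T t) = convexHull ℝ (Set.range b') := by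
    intro t
    obtain ⟨b', g, h1, h2, h3⟩ := exists_image_basis b (f0.toEquiv.trans (c t).toEquiv) hr
      (fun x y => by
        change dist (c t (f0 x)) (c t (f0 y)) = _
        rw [(c t).dist_eq, Dilation.dist_eq])
    refine ⟨b', g, fun i j => ?_, ?_⟩
    · rw [h1, h1, h2]
    · rw [← h3, ← hbody]
      have h4 : (f0.toEquiv.trans (c t).toEquiv : EuclideanSpace ℝ (Fin d) →
          EuclideanSpace ℝ (Fin d)) '' body s = c t '' (f0 '' body s) := by
        rw [Set.image_image]; rfl
      rw [h4, hf0, hc]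
  choose B g hsimB hB using H
  have hInS : ∀ (b : AffineBasis (Fin (d + 1)) ℝ (EuclideanSpace ℝ (Fin d))) x,
      x ∈ convexHull ℝ (Set.range b) ↔ InS b x := by
    intro b x
    rw [AffineBasis.convexHull_eq_nonneg_coord]; rfl
  refine ⟨⟨b, B, Dilation.ratio f0, hr, g, hsimB, ?_, ?_, ?_⟩⟩
  · intro t i j
    have h1 : B t j ∈ body s := by
      rw [hunion]
      refine Set.mem_iUnion.2 ⟨t, ?_⟩
      rw [hB]
      exact subset_convexHull ℝ _ (Set.mem_range_self j)
    rw [hbody, hInS] at h1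
    exact h1 i
  · intro x hx
    rw [← hInS, ← hbody, hunion] at hx
    obtain ⟨t, ht⟩ := Set.mem_iUnion.1 hx
    rw [hB, hInS] at ht
    exact ⟨t, ht⟩
  · intro t t' hne x hx hx'
    have h1 := hdisj t t' hne
    rw [hB, hB, AffineBasis.interior_convexHull, AffineBasis.interior_convexHull] at h1
    exact Set.disjoint_left.1 h1 hx hx'

theorem pos_of_isReptile {d k : ℕ} {s : Affine.Simplex ℝ (EuclideanSpace ℝ (Fin d)) d}
    (h : IsReptile k s) : 0 < k := by
  rcases Nat.eq_zero_or_pos k with rfl | hk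
  · exfalso
    obtain ⟨T, hunion, -⟩ := h
    have h1 : s.points 0 ∈ body s := subset_convexHull ℝ _ (Set.mem_range_self 0)
    rw [hunion] at h1
    obtain ⟨j, -⟩ := Set.mem_iUnion.1 h1
    exact j.elim0
  · exact hk

/-- The main theorem, in terms of irreducibility. -/
theorem not_irreducible {d k : ℕ} (hodd : Odd d) (hd : 5 ≤ d)
    {s : Affine.Simplex ℝ (EuclideanSpace ℝ (Fin d)) d} (h : IsReptile k s) :
    ¬ Irreducible (Polynomial.X ^ d - Polynomial.C (k : ℚ) : Polynomial ℚ) := by
  classical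
  intro hirr
  have hk := pos_of_isReptile h
  obtain ⟨T⟩ := exists_tiling h hk
  have hfin : finrank ℝ (EuclideanSpace ℝ (Fin d)) = d := by simp
  have hcard : Fintype.card (Fin (d + 1)) = d + 1 := by simp
  have hcardk : Fintype.card (Fin k) = k := by simp
  have hnt : Nontrivial (Fin (d + 1)) :=
    Fintype.one_lt_card_iff_nontrivial.1 (by rw [hcard]; omega)
  have hnz : NeZero d := ⟨by omega⟩
  have hr := T.r_pos
  have hlampos : 0 < T.r⁻¹ := inv_pos.2 hr
  have hmul := T.card_mul
  rw [hfin, hcardk] at hmul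
  have hkR : (0 : ℝ) < k := by exact_mod_cast hk
  have hlam : T.r⁻¹ ^ d = (k : ℝ) := by
    rw [inv_pow]
    field_simp
    linarith
  have hrel : ∀ i, (k : ℝ) * fn T.b i = T.r⁻¹ * ∑ j, (T.BB i j : ℝ) * fn T.b j := by
    intro i
    have h1 := T.facet_rel (by rw [hfin]; omega) i
    have h2 : T.r ^ d = (k : ℝ)⁻¹ := by rw [← hlam, inv_pow, inv_inv]
    rw [hfin, h2] at h1
    field_simp at h1 ⊢
    linarith
  obtain ⟨L⟩ := exists_lab (d := d) (k := k) (by omega) hcard hirr hlampos hlam T.BB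
    (fn T.b) (fn_pos T.b) hrel
  have R : Rep d (Fin (d + 1)) (Fin k) (EuclideanSpace ℝ (Fin d)) :=
    { T := T
      hd := hd
      odd := hodd
      fin := hfin
      card := hcard
      irr := by rw [hcardk]; exact hirr
      L := L }
  obtain ⟨R'⟩ := R.nonempty_CRep
  exact R'.contradiction

/-- A natural number that is a `p`-th power of a rational number is a `p`-th power of a natural
number. -/
theorem exists_nat_pow {k p : ℕ} (hp : p ≠ 0) {q : ℚ} (hq : q ^ p = k) : ∃ m : ℕ, k = m ^ p := by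
  have h1 : IsIntegral ℤ q := by
    refine IsIntegral.of_pow (Nat.pos_of_ne_zero hp) ?_
    rw [hq]
    exact isIntegral_algebraMap (R := ℤ) (x := (k : ℤ))
  obtain ⟨z, hz⟩ := IsIntegrallyClosed.isIntegral_iff.1 h1
  have hz' : ((z.natAbs : ℕ) : ℤ) ^ p = (k : ℤ) := by
    have h2 : (z : ℚ) ^ p = (k : ℚ) := by
      rw [← hq, ← hz]; simp
    have h3 : z ^ p = (k : ℤ) := by exact_mod_cast h2
    rw [Int.natCast_natAbs, ← abs_pow, h3, abs_of_nonneg (Int.natCast_nonneg k)]
  exact ⟨z.natAbs, by exact_mod_cast hz'.symm⟩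

theorem main {d k : ℕ} (hodd : Odd d) (hd : 5 ≤ d)
    {s : Affine.Simplex ℝ (EuclideanSpace ℝ (Fin d)) d} (h : IsReptile k s) :
    ∃ p : ℕ, p.Prime ∧ p ∣ d ∧ ∃ m : ℕ, 0 < m ∧ k = m ^ p := by
  by_contra hcon
  push Not at hcon
  refine not_irreducible hodd hd h (X_pow_sub_C_irreducible_of_odd hodd ?_)
  intro p hp hpd q hq
  obtain ⟨m, hm⟩ := exists_nat_pow hp.ne_zero hq
  have hk := pos_of_isReptile h
  have hmpos : 0 < m := by
    rcases Nat.eq_zero_or_pos m with rfl | h0
    · rw [zero_pow hp.ne_zero] at hm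
      omega
    · exact h0
  exact hcon p hp hpd m hmpos hm

end Pool.Agent.Lib.MP_9fc4df_co
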