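import Mathlib

/-!
Orthonormal frames of planes and polar coordinates.
-/

open MeasureTheory Filter Topology Real
open scoped RealInnerProductSpace

namespace Pool.Agent.Lib.MP_9fc4df_co

/-- Two orthonormal vectors. -/
structure Frame (E : Type*) [NormedAddCommGroup E] [InnerProductSpace ℝ E] where
  /-- first vector -/
  e1 : E
  /-- second vector -/
  e2 : E
  n1 : ‖e1‖ = 1
  n2 : ‖e2‖ = 1
  orth : ⟪e1, e2⟫ = 0

namespace Frame

variable {E : Type*} [NormedAddCommGroup E] [InnerProductSpace ℝ E] (F : Frame E)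

theorem i11 : ⟪F.e1, F.e1⟫ = 1 := by rw [real_inner_self_eq_norm_sq, F.n1, one_pow]

theorem i22 : ⟪F.e2, F.e2⟫ = 1 := by rw [real_inner_self_eq_norm_sq, F.n2, one_pow]

theorem i21 : ⟪F.e2, F.e1⟫ = 0 := by rw [real_inner_comm, F.orth]

/-- The unit vector of angle `φ`. -/
noncomputable def u (φ : ℝ) : E := cos φ • F.e1 + sin φ • F.e2

theorem inner_u (φ ψ : ℝ) : ⟪F.u φ, F.u ψ⟫ = cos (φ - ψ) := by
  simp only [u, inner_add_left, inner_add_right, real_inner_smul_left, real_inner_smul_right,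
    F.i11, F.i22, F.orth, F.i21]
  rw [cos_sub]; ring

theorem norm_u (φ : ℝ) : ‖F.u φ‖ = 1 := by
  have h := F.inner_u φ φ
  rw [real_inner_self_eq_norm_sq, sub_self, cos_zero] at h
  have h2 := norm_nonneg (F.u φ)
  nlinarith

theorem u_ne_zero (φ : ℝ) : F.u φ ≠ 0 := by
  intro h
  have := F.norm_u φ
  rw [h, norm_zero] at this
  norm_num at this

theorem angle_u {φ ψ : ℝ} (h1 : 0 ≤ φ) (h2 : φ ≤ π) (h3 : 0 ≤ ψ) (h4 : ψ ≤ π) :
    InnerProductGeometry.angle (F.u φ) (F.u ψ) = |φ - ψ| := by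
  rw [InnerProductGeometry.angle, F.inner_u, F.norm_u, F.norm_u, mul_one, div_one, ← cos_abs]
  exact arccos_cos (abs_nonneg _) (abs_le.2 ⟨by linarith, by linarith⟩)

theorem u_rot (φ ψ : ℝ) :
    F.u φ = cos (φ - ψ) • F.u ψ + sin (φ - ψ) • F.u (ψ + π / 2) := by
  simp only [u, smul_add, smul_smul, cos_add_pi_div_two, sin_add_pi_div_two]
  have h1 : cos φ = cos (φ - ψ) * cos ψ - sin (φ - ψ) * sin ψ := by
    rw [← cos_add, sub_add_cancel]
  have h2 : sin φ = sin (φ - ψ) * cos ψ + cos (φ - ψ) * sin ψ := by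
    rw [← sin_add, sub_add_cancel]
  rw [show sin φ • F.e2 = (sin (φ - ψ) * cos ψ + cos (φ - ψ) * sin ψ) • F.e2 by rw [← h2],
    show cos φ • F.e1 = (cos (φ - ψ) * cos ψ - sin (φ - ψ) * sin ψ) • F.e1 by rw [← h1]]
  module

theorem lin_u (L : E →ₗ[ℝ] ℝ) {ψ : ℝ} (h : L (F.u ψ) = 0) (φ : ℝ) :
    L (F.u φ) = sin (φ - ψ) * L (F.u (ψ + π / 2)) := by
  conv_lhs => rw [F.u_rot φ ψ]
  rw [map_add, map_smul, map_smul, h, smul_zero, zero_add, smul_eq_mul]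

theorem exists_u {x : E} {α β : ℝ} (hx : x = α • F.e1 + β • F.e2) (hx0 : x ≠ 0) (hβ : 0 ≤ β) :
    ∃ φ, 0 ≤ φ ∧ φ ≤ π ∧ x = ‖x‖ • F.u φ := by
  have hn : 0 < ‖x‖ := norm_pos_iff.2 hx0
  have hsq : ‖x‖ ^ 2 = α ^ 2 + β ^ 2 := by
    rw [← real_inner_self_eq_norm_sq, hx]
    simp only [inner_add_left, inner_add_right, real_inner_smul_left, real_inner_smul_right,
      F.i11, F.i22, F.orth, F.i21]
    ring
  have hα1 : α / ‖x‖ ≤ 1 := by
    rw [div_le_one hn]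
    nlinarith [sq_nonneg β, abs_le_of_sq_le_sq' (show α ^ 2 ≤ ‖x‖ ^ 2 by nlinarith) hn.le]
  have hα2 : -1 ≤ α / ‖x‖ := by
    rw [le_div_iff₀ hn]
    have := (abs_le_of_sq_le_sq' (show α ^ 2 ≤ ‖x‖ ^ 2 by nlinarith) hn.le).1
    linarith
  refine ⟨arccos (α / ‖x‖), arccos_nonneg _, arccos_le_pi _, ?_⟩
  have hc : cos (arccos (α / ‖x‖)) = α / ‖x‖ := cos_arccos hα2 hα1
  have hs : sin (arccos (α / ‖x‖)) = β / ‖x‖ := by
    rw [sin_arccos]
    have : 1 - (α / ‖x‖) ^ 2 = (β / ‖x‖) ^ 2 := by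
      field_simp
      linarith
    rw [this, sqrt_sq (by positivity)]
  rw [u, hc, hs, smul_add, smul_smul, smul_smul, mul_div_cancel₀ _ hn.ne',
    mul_div_cancel₀ _ hn.ne']
  exact hx

end Frame

/-- The frame adapted to two independent vectors. -/
theorem exists_frame {E : Type*} [NormedAddCommGroup E] [InnerProductSpace ℝ E] {a b : E}
    (ha : a ≠ 0) (hb : ∀ c : ℝ, b ≠ c • a) :
    ∃ F : Frame E, a = ‖a‖ • F.u 0 ∧ b = ‖b‖ • F.u (InnerProductGeometry.angle a b) ∧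
      0 < InnerProductGeometry.angle a b ∧ InnerProductGeometry.angle a b < π ∧
      (∃ c1 : ℝ, F.e1 = c1 • a) ∧ (∃ c1 c2 : ℝ, F.e2 = c1 • a + c2 • b) ∧ 0 < ⟪F.e2, b⟫ ∧
      ⟪F.e2, a⟫ = 0 := by
  have hna : 0 < ‖a‖ := norm_pos_iff.2 ha
  have hb0 : b ≠ 0 := by
    intro h
    exact hb 0 (by rw [h, zero_smul])
  have hnb : 0 < ‖b‖ := norm_pos_iff.2 hb0
  set f1 : E := ‖a‖⁻¹ • a with hf1
  have hf1n : ‖f1‖ = 1 := by
    rw [hf1, norm_smul, norm_inv, norm_norm, inv_mul_cancel₀ hna.ne']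
  set v : E := b - ⟪f1, b⟫ • f1 with hv
  have hv0 : v ≠ 0 := by
    intro h
    refine hb (⟪f1, b⟫ * ‖a‖⁻¹) ?_
    rw [mul_smul, ← hf1]
    exact sub_eq_zero.1 h
  have hnv : 0 < ‖v‖ := norm_pos_iff.2 hv0
  have hfv : ⟪f1, v⟫ = 0 := by
    rw [hv, inner_sub_right, real_inner_smul_right, real_inner_self_eq_norm_sq, hf1n]
    ring
  set f2 : E := ‖v‖⁻¹ • v with hf2
  have hf2n : ‖f2‖ = 1 := by
    rw [hf2, norm_smul, norm_inv, norm_norm, inv_mul_cancel₀ hnv.ne']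
  have horth : ⟪f1, f2⟫ = 0 := by rw [hf2, real_inner_smul_right, hfv, mul_zero]
  let F : Frame E := ⟨f1, f2, hf1n, hf2n, horth⟩
  have hbv : b = ⟪f1, b⟫ • F.e1 + ‖v‖ • F.e2 := by
    change b = ⟪f1, b⟫ • f1 + ‖v‖ • f2
    rw [hf2, smul_smul ‖v‖, mul_inv_cancel₀ hnv.ne', one_smul, hv]
    abel
  have ha1 : a = ‖a‖ • F.u 0 := by
    rw [Frame.u, cos_zero, sin_zero, one_smul, zero_smul, add_zero]
    change a = ‖a‖ • f1
    rw [hf1, smul_smul, mul_inv_cancel₀ hna.ne', one_smul]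
  have hinner : ⟪F.e2, b⟫ = ‖v‖ := by
    conv_lhs => rw [hbv]
    rw [inner_add_right, real_inner_smul_right F.e2 F.e1, real_inner_smul_right F.e2 F.e2, F.i21,
      F.i22]
    ring
  obtain ⟨φ, h0, h1, h2⟩ := F.exists_u hbv hb0 hnv.le
  have hang : InnerProductGeometry.angle a b = φ := by
    rw [ha1, h2]
    rw [InnerProductGeometry.angle_smul_left_of_pos _ _ hna,
      InnerProductGeometry.angle_smul_right_of_pos _ _ hnb, F.angle_u le_rfl pi_pos.le h0 h1,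
      zero_sub, abs_neg, abs_of_nonneg h0]
  have hφ0 : φ ≠ 0 := by
    intro h
    rw [h] at h2
    refine hb (‖b‖ * ‖a‖⁻¹) ?_
    rw [mul_smul]
    have : F.u 0 = ‖a‖⁻¹ • a := by
      rw [Frame.u, cos_zero, sin_zero, one_smul, zero_smul, add_zero]
    rw [← this]
    exact h2
  have hφπ : φ ≠ π := by
    intro h
    rw [h] at h2
    have h3 : F.u π = -F.u 0 := by
      simp [Frame.u]
    have h4 : F.u 0 = ‖a‖⁻¹ • a := by
      rw [Frame.u, cos_zero, sin_zero, one_smul, zero_smul, add_zero]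
    refine hb (-(‖b‖ * ‖a‖⁻¹)) ?_
    rw [neg_smul, mul_smul, ← h4, ← smul_neg, ← h3]
    exact h2
  refine ⟨F, ha1, by rw [hang]; exact h2, ?_, ?_, ⟨‖a‖⁻¹, rfl⟩, ?_, ?_, ?_⟩
  · rw [hang]; exact lt_of_le_of_ne h0 hφ0.symm
  · rw [hang]; exact lt_of_le_of_ne h1 hφπ
  · refine ⟨-(‖v‖⁻¹ * (⟪f1, b⟫ * ‖a‖⁻¹)), ‖v‖⁻¹, ?_⟩
    change f2 = _
    rw [hf2, hv, smul_sub, hf1]
    module
  · rw [hinner]; exact hnv
  · rw [ha1, real_inner_smul_right, Frame.u, cos_zero, sin_zero, one_smul, zero_smul, add_zero,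
      real_inner_comm, F.orth, mul_zero]

end Pool.Agent.Lib.MP_9fc4df_co
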