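import Mathlib

/-!
The grading of `ℚ(lam)` by powers of `lam`, where `lam ^ d = k` and `X ^ d - k` is irreducible.
-/

open Finset Polynomial

namespace Pool.Agent.Lib.MP_9fc4df_co

/-- `x` is a rational multiple of `lam ^ s`. -/
def InR (d : ℕ) (lam : ℝ) (s : ZMod d) (x : ℝ) : Prop := ∃ q : ℚ, x = q * lam ^ s.val

variable {d k : ℕ} {lam : ℝ}

theorem InR.zero (s : ZMod d) : InR d lam s 0 := ⟨0, by simp⟩

theorem InR.rat [NeZero d] (q : ℚ) : InR d lam 0 q := ⟨q, by simp⟩

theorem InR.one [NeZero d] : InR d lam 0 1 := ⟨1, by simp⟩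

theorem InR.add {s : ZMod d} {x y : ℝ} (hx : InR d lam s x) (hy : InR d lam s y) :
    InR d lam s (x + y) := by
  obtain ⟨q, rfl⟩ := hx
  obtain ⟨q', rfl⟩ := hy
  exact ⟨q + q', by push_cast; ring⟩

theorem InR.neg {s : ZMod d} {x : ℝ} (hx : InR d lam s x) : InR d lam s (-x) := by
  obtain ⟨q, rfl⟩ := hx
  exact ⟨-q, by push_cast; ring⟩

theorem InR.sub {s : ZMod d} {x y : ℝ} (hx : InR d lam s x) (hy : InR d lam s y) :
    InR d lam s (x - y) := by
  rw [sub_eq_add_neg]; exact hx.add hy.neg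

theorem InR.mul [NeZero d] (hlam : lam ^ d = k) {s t : ZMod d} {x y : ℝ} (hx : InR d lam s x)
    (hy : InR d lam t y) : InR d lam (s + t) (x * y) := by
  obtain ⟨q, rfl⟩ := hx
  obtain ⟨q', rfl⟩ := hy
  refine ⟨q * q' * (k : ℚ) ^ ((s.val + t.val) / d), ?_⟩
  have h1 : lam ^ (s.val + t.val) = (k : ℝ) ^ ((s.val + t.val) / d) * lam ^ (s + t).val := by
    rw [ZMod.val_add]
    conv_lhs => rw [← Nat.mod_add_div (s.val + t.val) d, pow_add, pow_mul, hlam]
    ring
  push_cast
  calc (q : ℝ) * lam ^ s.val * (q' * lam ^ t.val) = q * q' * lam ^ (s.val + t.val) := by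
        rw [pow_add]; ring
    _ = _ := by rw [h1]; ring

theorem InR.ratmul {s : ZMod d} {x : ℝ} (hx : InR d lam s x) (q : ℚ) :
    InR d lam s (q * x) := by
  obtain ⟨q', rfl⟩ := hx
  exact ⟨q * q', by push_cast; ring⟩

theorem minpoly_lam (hd : 0 < d)
    (hirr : Irreducible (X ^ d - C (k : ℚ) : ℚ[X])) (hlam : lam ^ d = k) :
    minpoly ℚ lam = X ^ d - C (k : ℚ) := by
  symm
  refine minpoly.eq_of_irreducible_of_monic hirr ?_ (monic_X_pow_sub_C _ hd.ne')
  simp [hlam]

theorem lam_indep (hd : 0 < d)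
    (hirr : Irreducible (X ^ d - C (k : ℚ) : ℚ[X])) (hlam : lam ^ d = k)
    (c : ℕ → ℚ) (h : ∑ i ∈ range d, (c i : ℝ) * lam ^ i = 0) : ∀ i < d, c i = 0 := by
  let P : ℚ[X] := ∑ i ∈ range d, C (c i) * X ^ i
  have hdeg : P.degree < d := by
    refine lt_of_le_of_lt (degree_sum_le _ _) ?_
    rw [Finset.sup_lt_iff (by exact_mod_cast WithBot.bot_lt_coe d)]
    intro i hi
    refine lt_of_le_of_lt (degree_C_mul_X_pow_le i (c i)) ?_
    exact_mod_cast mem_range.1 hi
  have hev : aeval lam P = 0 := by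
    simp only [P, map_sum, map_mul, aeval_C, map_pow, aeval_X]
    simpa using h
  have hP : P = 0 := by
    by_contra hne
    have h1 := minpoly.degree_le_of_ne_zero ℚ lam hne hev
    rw [minpoly_lam hd hirr hlam, degree_X_pow_sub_C hd] at h1
    exact absurd h1 (not_le.2 hdeg)
  intro i hi
  have h2 : P.coeff i = 0 := by rw [hP, coeff_zero]
  simp only [P, finsetSum_coeff, coeff_C_mul_X_pow] at h2
  rw [sum_eq_single i] at h2
  · simpa using h2
  · intro j _ hji
    rw [if_neg (Ne.symm hji)]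
  · intro h; exact absurd (mem_range.2 hi) h

theorem InR.indep [NeZero d]
    (hirr : Irreducible (X ^ d - C (k : ℚ) : ℚ[X])) (hpos : 0 < lam) (hlam : lam ^ d = k)
    (x : ZMod d → ℝ) (hx : ∀ s, InR d lam s (x s)) (h : ∑ s, x s = 0) : ∀ s, x s = 0 := by
  choose q hq using hx
  have hd : 0 < d := Nat.pos_of_ne_zero (NeZero.ne d)
  have h1 : ∑ i ∈ range d, ((q (i : ZMod d) : ℚ) : ℝ) * lam ^ i = 0 := by
    rw [← h]
    refine sum_bij (fun i _ => (i : ZMod d)) (fun i _ => mem_univ _) ?_ ?_ ?_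
    · intro i hi j hj hij
      have := congrArg ZMod.val hij
      rwa [ZMod.val_natCast_of_lt (mem_range.1 hi), ZMod.val_natCast_of_lt (mem_range.1 hj)] at this
    · intro s _
      exact ⟨s.val, mem_range.2 (ZMod.val_lt s), ZMod.natCast_zmod_val s⟩
    · intro i hi
      rw [hq (i : ZMod d), ZMod.val_natCast_of_lt (mem_range.1 hi)]
  have h2 := lam_indep hd hirr hlam (fun i => q (i : ZMod d)) h1
  intro s
  have h3 := h2 s.val (ZMod.val_lt s)
  simp only [ZMod.natCast_zmod_val] at h3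
  rw [hq s, h3]; simp

theorem InR.indep4 [NeZero d]
    (hirr : Irreducible (X ^ d - C (k : ℚ) : ℚ[X])) (hpos : 0 < lam) (hlam : lam ^ d = k)
    {a b c e : ZMod d} (hab : a ≠ b) (hac : a ≠ c) (hae : a ≠ e) (hbc : b ≠ c) (hbe : b ≠ e)
    (hce : c ≠ e) {x1 x2 x3 x4 : ℝ} (h1 : InR d lam a x1) (h2 : InR d lam b x2)
    (h3 : InR d lam c x3) (h4 : InR d lam e x4) (h : x1 + x2 + x3 + x4 = 0) :
    x1 = 0 ∧ x2 = 0 ∧ x3 = 0 ∧ x4 = 0 := by
  classical
  let x : ZMod d → ℝ := fun s => (if s = a then x1 else 0) + (if s = b then x2 else 0) +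
    (if s = c then x3 else 0) + (if s = e then x4 else 0)
  have hx : ∀ s, InR d lam s (x s) := by
    intro s
    refine (((?_ : InR d lam s _).add ?_).add ?_).add ?_
    · split_ifs with hs
      · rw [hs]; exact h1
      · exact InR.zero s
    · split_ifs with hs
      · rw [hs]; exact h2
      · exact InR.zero s
    · split_ifs with hs
      · rw [hs]; exact h3
      · exact InR.zero s
    · split_ifs with hs
      · rw [hs]; exact h4
      · exact InR.zero s
  have hsum : ∑ s, x s = 0 := by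
    simp only [x, sum_add_distrib, sum_ite_eq', mem_univ, if_true]
    exact h
  have h5 := InR.indep hirr hpos hlam x hx hsum
  refine ⟨?_, ?_, ?_, ?_⟩
  · simpa [x, hab, hac, hae] using h5 a
  · simpa [x, hab.symm, hbc, hbe] using h5 b
  · simpa [x, hac.symm, hbc.symm, hce] using h5 c
  · simpa [x, hae.symm, hbe.symm, hce.symm] using h5 e

theorem InR.unique [NeZero d]
    (hirr : Irreducible (X ^ d - C (k : ℚ) : ℚ[X])) (hpos : 0 < lam) (hlam : lam ^ d = k)
    {s t : ZMod d} {x : ℝ} (hx0 : x ≠ 0) (hs : InR d lam s x) (ht : InR d lam t x) : s = t := by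
  classical
  by_contra hne
  let y : ZMod d → ℝ := fun u => (if u = s then x else 0) + (if u = t then -x else 0)
  have hy : ∀ u, InR d lam u (y u) := by
    intro u
    refine InR.add ?_ ?_
    · split_ifs with hu
      · rw [hu]; exact hs
      · exact InR.zero u
    · split_ifs with hu
      · rw [hu]; exact ht.neg
      · exact InR.zero u
  have hsum : ∑ u, y u = 0 := by
    simp only [y, sum_add_distrib, sum_ite_eq', mem_univ, if_true]
    ring
  have h5 := InR.indep hirr hpos hlam y hy hsum s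
  simp only [y, if_true, if_neg hne, add_zero] at h5
  exact hx0 h5

theorem InR.inv [NeZero d] (hpos : 0 < lam) (hlam : lam ^ d = k)
    {s : ZMod d} {x : ℝ} (hx : InR d lam s x) : InR d lam (-s) x⁻¹ := by
  obtain ⟨q, rfl⟩ := hx
  by_cases hs : s = 0
  · subst hs
    refine ⟨q⁻¹, ?_⟩
    simp
  · have hsv : s.val ≠ 0 := fun h => hs ((ZMod.val_eq_zero s).1 h)
    have hval : (-s).val = d - s.val := by
      rw [ZMod.neg_val, if_neg hs]
    refine ⟨q⁻¹ * (k : ℚ)⁻¹, ?_⟩
    have hlt := ZMod.val_lt s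
    have h1 : lam ^ s.val * lam ^ (d - s.val) = k := by
      rw [← pow_add, Nat.add_sub_cancel' hlt.le, hlam]
    have h2 : lam ^ s.val ≠ 0 := (pow_pos hpos _).ne'
    have h3 : lam ^ (d - s.val) ≠ 0 := (pow_pos hpos _).ne'
    rw [hval]
    push_cast
    rw [← h1, mul_inv, mul_inv]
    field_simp

theorem InR.div [NeZero d] (hpos : 0 < lam) (hlam : lam ^ d = k)
    {s t : ZMod d} {x y : ℝ} (hx : InR d lam s x) (hy : InR d lam t y) :
    InR d lam (s - t) (x / y) := by
  rw [div_eq_mul_inv, sub_eq_add_neg]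
  exact hx.mul hlam (hy.inv hpos hlam)

/-- `lam ^ (d - 1)` has degree `-1`. -/
theorem InR.neg_one [NeZero d] (hd : 2 ≤ d) (hpos : 0 < lam) (hlam : lam ^ d = k) :
    InR d lam (-1) ((k : ℝ) / lam) := by
  refine ⟨1, ?_⟩
  have h1 : (-1 : ZMod d).val = d - 1 := by
    have : Fact (1 < d) := ⟨by omega⟩
    rw [ZMod.neg_val, if_neg one_ne_zero, ZMod.val_one]
  rw [h1, Rat.cast_one, one_mul, ← hlam, div_eq_iff hpos.ne', ← pow_succ]
  congr 1
  omega

end Pool.Agent.Lib.MP_9fc4df_co
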