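import Pool.Agent.Lib.MP_9fc4df_co.Edge
import Pool.Agent.Lib.MP_9fc4df_co.Plane

/-!
Angles of the two-dimensional faces of minimal solid angle: additivity.
-/

open MeasureTheory Filter Topology Finset Module
open scoped RealInnerProductSpace Pointwise

set_option linter.unusedSectionVars false

namespace Pool.Agent.Lib.MP_9fc4df_co

theorem ne_of_mem_notMem {ι : Type*} {I : Finset ι} {a b : ι} (h : a ∈ I) (h' : b ∉ I) :
    a ≠ b := by
  intro hh
  rw [hh] at h
  exact h' h

/-- The complement of `I` consists of the three elements `p`, `q`, `r`. -/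
structure Tri {ι : Type*} (I : Finset ι) (p q r : ι) : Prop where
  hp : p ∉ I
  hq : q ∉ I
  hr : r ∉ I
  pq : p ≠ q
  pr : p ≠ r
  qr : q ≠ r
  all : ∀ x, x ∈ I ∨ x = p ∨ x = q ∨ x = r

section

variable {ι κ E : Type*} [Fintype ι] [Fintype κ] [NormedAddCommGroup E] [InnerProductSpace ℝ E]

/-- The angle at `p` of the triangle `p`, `q`, `r`. -/
noncomputable def ang (b : AffineBasis ι ℝ E) (p q r : ι) : ℝ :=
  InnerProductGeometry.angle (b q - b p) (b r - b p)

theorem Tri.swap {I : Finset ι} {p q r : ι} (h : Tri I p q r) : Tri I p r q :=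
  ⟨h.hp, h.hr, h.hq, h.pr, h.pq, h.qr.symm, fun x => by rcases h.all x with h | h | h | h <;> tauto⟩

theorem Tri.card {I : Finset ι} {p q r : ι} (h : Tri I p q r) :
    Fintype.card ι = I.card + 3 := by
  classical
  have h1 : (univ : Finset ι) = insert p (insert q (insert r I)) := by
    ext x
    simp only [mem_univ, mem_insert, true_iff]
    have := h.all x
    tauto
  rw [← card_univ, h1, card_insert_of_notMem, card_insert_of_notMem, card_insert_of_notMem h.hr]
  · simp [h.qr, h.hq]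
  · simp [h.pq, h.pr, h.hp]

theorem Tri.ne_univ {I : Finset ι} {p q r : ι} (h : Tri I p q r) : I ≠ univ := by
  intro h1
  exact h.hp (h1 ▸ mem_univ p)

theorem exists_tri {I : Finset ι} {p : ι} (hp : p ∉ I) (hc : Fintype.card ι = I.card + 3) :
    ∃ q r, Tri I p q r := by
  classical
  have h1 : (Iᶜ.erase p).card = 2 := by
    rw [card_erase_of_mem (mem_compl.2 hp), card_compl, hc]; omega
  obtain ⟨q, r, hqr, h2⟩ := card_eq_two.1 h1
  have hq : q ∈ Iᶜ.erase p := by rw [h2]; exact mem_insert_self _ _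
  have hr : r ∈ Iᶜ.erase p := by rw [h2]; exact mem_insert_of_mem (mem_singleton_self _)
  rw [mem_erase, mem_compl] at hq hr
  refine ⟨q, r, hp, hq.2, hr.2, hq.1.symm, hr.1.symm, hqr, fun x => ?_⟩
  by_cases hx : x ∈ I
  · exact Or.inl hx
  · by_cases hxp : x = p
    · exact Or.inr (Or.inl hxp)
    · have : x ∈ Iᶜ.erase p := mem_erase.2 ⟨hxp, mem_compl.2 hx⟩
      rw [h2, mem_insert, mem_singleton] at this
      tauto

theorem Tri.expand (b : AffineBasis ι ℝ E) {I : Finset ι} {p q r : ι} (h : Tri I p q r) {y : E}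
    (hy : ∀ i ∈ I, lin b i y = 0) :
    y = lin b q y • (b q - b p) + lin b r y • (b r - b p) := by
  classical
  conv_lhs => rw [vec_eq b (b p) y]
  refine sum_eq_add q r h.qr ?_ (fun hh => absurd (mem_univ _) hh)
    (fun hh => absurd (mem_univ _) hh)
  rintro x - ⟨hxq, hxr⟩
  rcases h.all x with hx | hx | hx | hx
  · rw [hy x hx, zero_smul]
  · rw [hx, sub_self, smul_zero]
  · exact absurd hx hxq
  · exact absurd hx hxr

theorem Tri.lin_zero (b : AffineBasis ι ℝ E) {I : Finset ι} {p q r : ι} (h : Tri I p q r) :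
    ∀ i ∈ I, lin b i (b q - b p) = 0 := by
  classical
  intro i hi
  rw [lin_diff, if_neg (ne_of_mem_notMem hi h.hq), if_neg (ne_of_mem_notMem hi h.hp), sub_zero]

/-- Data of a sector at the vertex `p`. -/
structure Sec (b : AffineBasis ι ℝ E) (I : Finset ι) (p q r : ι) (F : Frame E) (θ : ℝ) :
    Prop where
  tri : Tri I p q r
  ha : b q - b p = ‖b q - b p‖ • F.u 0
  hb : b r - b p = ‖b r - b p‖ • F.u θ
  hθ : θ = ang b p q r
  pos : 0 < θ
  lt : θ < Real.pi
  plane : ∀ φ, ∀ i ∈ I, lin b i (F.u φ) = 0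

theorem Tri.exists_sec (b : AffineBasis ι ℝ E) {I : Finset ι} {p q r : ι} (h : Tri I p q r) :
    ∃ F, Sec b I p q r F (ang b p q r) := by
  classical
  have ha : b q - b p ≠ 0 := by
    intro h0
    have := lin_diff b q q p
    rw [h0, map_zero, if_pos rfl, if_neg h.pq.symm] at this
    norm_num at this
  have hb : ∀ c : ℝ, b r - b p ≠ c • (b q - b p) := by
    intro c h0
    have := congrArg (lin b r) h0
    rw [map_smul, lin_diff, lin_diff, if_pos rfl, if_neg h.pr.symm, if_neg h.qr.symm] at this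
    simp at this
  obtain ⟨F, h1, h2, h3, h4, ⟨c1, hc1⟩, ⟨c2, c3, hc2⟩, -, -⟩ := exists_frame ha hb
  refine ⟨F, h, h1, h2, rfl, h3, h4, fun φ i hi => ?_⟩
  rw [Frame.u, map_add, map_smul, map_smul, hc1, hc2, map_add, map_smul, map_smul, map_smul,
    h.lin_zero b i hi, h.swap.lin_zero b i hi]
  simp

namespace Sec

variable {b : AffineBasis ι ℝ E} {I : Finset ι} {p q r : ι} {F : Frame E} {θ : ℝ}

theorem norm_a_pos (h : Sec b I p q r F θ) : 0 < ‖b q - b p‖ := by
  classical
  rw [norm_pos_iff]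
  intro h0
  have := lin_diff b q q p
  rw [h0, map_zero, if_pos rfl, if_neg h.tri.pq.symm] at this
  norm_num at this

theorem norm_b_pos (h : Sec b I p q r F θ) : 0 < ‖b r - b p‖ := by
  classical
  rw [norm_pos_iff]
  intro h0
  have := lin_diff b r r p
  rw [h0, map_zero, if_pos rfl, if_neg h.tri.pr.symm] at this
  norm_num at this

theorem sin_pos (h : Sec b I p q r F θ) : 0 < Real.sin θ := Real.sin_pos_of_pos_of_lt_pi h.pos h.lt

theorem lin_q (h : Sec b I p q r F θ) (φ : ℝ) :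
    lin b q (F.u φ) = Real.sin (θ - φ) / (‖b q - b p‖ * Real.sin θ) := by
  classical
  have hna := h.norm_a_pos
  have hnb := h.norm_b_pos
  have hs := h.sin_pos
  have h1 : lin b q (F.u θ) = 0 := by
    have h2 := lin_diff b q r p
    rw [h.hb, map_smul, if_neg h.tri.qr, if_neg h.tri.pq.symm, smul_eq_mul, sub_zero] at h2
    exact (mul_eq_zero.1 h2).resolve_left hnb.ne'
  have h2 := F.lin_u (lin b q) h1 φ
  have h3 := F.lin_u (lin b q) h1 0
  have h4 : ‖b q - b p‖ * lin b q (F.u 0) = 1 := by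
    have h5 := lin_diff b q q p
    rw [if_pos rfl, if_neg h.tri.pq.symm, sub_zero] at h5
    rw [← h5]
    conv_rhs => rw [h.ha]
    rw [map_smul, smul_eq_mul]
  rw [h3, zero_sub, Real.sin_neg] at h4
  rw [h2, eq_div_iff (by positivity)]
  have h6 : Real.sin (θ - φ) = -Real.sin (φ - θ) := by rw [← Real.sin_neg, neg_sub]
  rw [h6]
  linear_combination (-Real.sin (φ - θ)) * h4

theorem lin_r (h : Sec b I p q r F θ) (φ : ℝ) :
    lin b r (F.u φ) = Real.sin φ / (‖b r - b p‖ * Real.sin θ) := by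
  classical
  have hna := h.norm_a_pos
  have hnb := h.norm_b_pos
  have hs := h.sin_pos
  have h1 : lin b r (F.u 0) = 0 := by
    have h2 := lin_diff b r q p
    rw [h.ha, map_smul, if_neg h.tri.qr.symm, if_neg h.tri.pr.symm, smul_eq_mul, sub_zero] at h2
    exact (mul_eq_zero.1 h2).resolve_left hna.ne'
  have h2 := F.lin_u (lin b r) h1 φ
  have h3 := F.lin_u (lin b r) h1 θ
  have h4 : ‖b r - b p‖ * lin b r (F.u θ) = 1 := by
    have h5 := lin_diff b r r p
    rw [if_pos rfl, if_neg h.tri.pr.symm, sub_zero] at h5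
    rw [← h5]
    conv_rhs => rw [h.hb]
    rw [map_smul, smul_eq_mul]
  rw [h3, sub_zero] at h4
  rw [sub_zero] at h2
  rw [h2, eq_div_iff (by positivity)]
  linear_combination (Real.sin φ) * h4

theorem polar (h : Sec b I p q r F θ) {x : E} (hx0 : x ≠ 0) (hI : ∀ i ∈ I, lin b i x = 0)
    (hq : 0 ≤ lin b q x) (hr : 0 ≤ lin b r x) :
    ∃ φ, 0 ≤ φ ∧ φ ≤ θ ∧ x = ‖x‖ • F.u φ := by
  have hna := h.norm_a_pos
  have hnb := h.norm_b_pos
  have hs := h.sin_pos
  have hexp := h.tri.expand b hI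
  have h1 : x = (lin b q x * ‖b q - b p‖ + lin b r x * (‖b r - b p‖ * Real.cos θ)) • F.e1 +
      (lin b r x * (‖b r - b p‖ * Real.sin θ)) • F.e2 := by
    conv_lhs => rw [hexp, h.ha, h.hb]
    rw [Frame.u, Frame.u, Real.cos_zero, Real.sin_zero]
    module
  obtain ⟨φ, h2, h3, h4⟩ := F.exists_u h1 hx0 (by positivity)
  refine ⟨φ, h2, ?_, h4⟩
  by_contra hcon
  push Not at hcon
  have h5 : lin b q x < 0 := by
    rw [h4, map_smul, smul_eq_mul, h.lin_q]
    refine mul_neg_of_pos_of_neg (norm_pos_iff.2 hx0) (div_neg_of_neg_of_pos ?_ (by positivity))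
    exact Real.sin_neg_of_neg_of_neg_pi_lt (by linarith) (by linarith [h.pos])
  linarith

/-- Convexity of sectors. -/
theorem u_between (F : Frame E) (φ₁ φ₂ ψ : ℝ) :
    Real.sin (φ₂ - φ₁) • F.u ψ = Real.sin (φ₂ - ψ) • F.u φ₁ + Real.sin (ψ - φ₁) • F.u φ₂ := by
  simp only [Frame.u, smul_add, smul_smul]
  have h1 : Real.sin (φ₂ - φ₁) * Real.cos ψ =
      Real.sin (φ₂ - ψ) * Real.cos φ₁ + Real.sin (ψ - φ₁) * Real.cos φ₂ := by
    simp only [Real.sin_sub]; ring
  have h2 : Real.sin (φ₂ - φ₁) * Real.sin ψ =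
      Real.sin (φ₂ - ψ) * Real.sin φ₁ + Real.sin (ψ - φ₁) * Real.sin φ₂ := by
    simp only [Real.sin_sub]; ring
  rw [h1, h2]
  module

end Sec

/-- The set of directions of the sector covered by the tile `t`. -/
def Tiling.Phi (T : Tiling ι κ E) (p : ι) (F : Frame E) (θ : ℝ) (t : κ) : Set ℝ :=
  {φ | 0 ≤ φ ∧ φ ≤ θ ∧ InS (T.B t) (T.b p) ∧
    ∀ j ∈ Z (T.B t) (T.b p), 0 ≤ lin (T.B t) j (F.u φ)}

variable {T : Tiling ι κ E} {I : Finset ι} {p q r : ι} {F : Frame E} {θ : ℝ}

theorem Tiling.Phi_cover (h : Sec T.b I p q r F θ) :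
    Set.Icc 0 θ = ⋃ t, T.Phi p F θ t := by
  classical
  ext φ
  simp only [Set.mem_Icc, Set.mem_iUnion]
  constructor
  · rintro ⟨h0, h1⟩
    have hv : InS T.b (T.b p) := by
      intro i
      rw [AffineBasis.coord_apply]
      split_ifs <;> norm_num
    have hs := h.sin_pos
    have hna := h.norm_a_pos
    have hnb := h.norm_b_pos
    have hy : ∀ i ∈ Z T.b (T.b p), 0 ≤ lin T.b i (F.u φ) := by
      intro i hi
      rcases h.tri.all i with hi' | hi' | hi' | hi'
      · exact (h.plane φ i hi').ge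
      · rw [mem_Z, hi', T.b.coord_apply_eq] at hi
        norm_num at hi
      · rw [hi', h.lin_q]
        exact div_nonneg (Real.sin_nonneg_of_nonneg_of_le_pi (by linarith)
          (by linarith [h.lt])) (by positivity)
      · rw [hi', h.lin_r]
        exact div_nonneg (Real.sin_nonneg_of_nonneg_of_le_pi h0
          (by linarith [h.lt])) (by positivity)
    have hpos : ∀ᶠ ε in 𝓝[>] (0 : ℝ), 0 < ε := self_mem_nhdsWithin
    obtain ⟨ε, hε, t, ht, ht2⟩ := (hpos.and (T.eventually_tile hv hy)).exists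
    exact ⟨t, h0, h1, ht, fun j hj => lin_nonneg_of_InS hε ht2 hj⟩
  · rintro ⟨t, h0, h1, -⟩
    exact ⟨h0, h1⟩

/-- The region between two directions near the vertex. -/
def Tiling.Reg (T : Tiling ι κ E) (I : Finset ι) (p : ι) (F : Frame E) (φ₁ φ₂ : ℝ) : Set E :=
  Face T.b I ∩ {x | 0 < ⟪F.u (φ₁ + Real.pi / 2), x - T.b p⟫ ∧
    0 < ⟪F.u (φ₂ - Real.pi / 2), x - T.b p⟫ ∧
    ∀ t j, 0 < (T.B t).coord j (T.b p) → 0 < (T.B t).coord j x}

end

section

variable {ι κ E : Type*} [Fintype ι] [Fintype κ] [NormedAddCommGroup E] [InnerProductSpace ℝ E]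
  [FiniteDimensional ℝ E] [MeasurableSpace E] [BorelSpace E]
variable {T : Tiling ι κ E} {I : Finset ι} {p q r : ι} {F : Frame E} {θ : ℝ}

theorem Tiling.openIn_Reg (T : Tiling ι κ E) (I : Finset ι) (p : ι) (F : Frame E)
    (φ₁ φ₂ : ℝ) : OpenIn T.b I (T.Reg I p F φ₁ φ₂) := by
  refine (openIn_face _ _).inter (openIn_of_isOpen _ _ ?_)
  have h1 : IsOpen {x : E | 0 < ⟪F.u (φ₁ + Real.pi / 2), x - T.b p⟫} :=
    isOpen_lt continuous_const (by fun_prop)
  have h2 : IsOpen {x : E | 0 < ⟪F.u (φ₂ - Real.pi / 2), x - T.b p⟫} :=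
    isOpen_lt continuous_const (by fun_prop)
  have h3 : IsOpen {x : E | ∀ t j, 0 < (T.B t).coord j (T.b p) → 0 < (T.B t).coord j x} := by
    have : {x : E | ∀ t j, 0 < (T.B t).coord j (T.b p) → 0 < (T.B t).coord j x} =
        ⋂ t, ⋂ j, {x | 0 < (T.B t).coord j (T.b p) → 0 < (T.B t).coord j x} := by
      ext x; simp
    rw [this]
    refine isOpen_iInter_of_finite fun t => isOpen_iInter_of_finite fun j => ?_
    by_cases hc : 0 < (T.B t).coord j (T.b p)
    · simp only [hc, true_imp_iff]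
      exact isOpen_lt continuous_const (continuous_coord (T.B t) j)
    · simp only [hc, false_imp_iff]
      exact isOpen_univ
  exact h1.inter (h2.inter h3)

theorem Tiling.Reg_nonempty (h : Sec T.b I p q r F θ) {φ₁ φ₂ : ℝ} (h0 : 0 ≤ φ₁) (h1 : φ₁ < φ₂)
    (h2 : φ₂ ≤ θ) : (T.Reg I p F φ₁ φ₂).Nonempty := by
  classical
  have hs := h.sin_pos
  have hna := h.norm_a_pos
  have hnb := h.norm_b_pos
  have hlt := h.lt
  set φ := (φ₁ + φ₂) / 2 with hφ
  have hq : 0 < lin T.b q (F.u φ) := by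
    rw [h.lin_q]
    exact div_pos (Real.sin_pos_of_pos_of_lt_pi (by linarith) (by linarith)) (by positivity)
  have hr : 0 < lin T.b r (F.u φ) := by
    rw [h.lin_r]
    exact div_pos (Real.sin_pos_of_pos_of_lt_pi (by linarith) (by linarith)) (by positivity)
  have hpos : ∀ᶠ ε in 𝓝[>] (0 : ℝ), 0 < ε := self_mem_nhdsWithin
  have e1 : ∀ᶠ ε in 𝓝[>] (0 : ℝ), 0 < T.b.coord p (T.b p + ε • F.u φ) :=
    (coord_eventually_pos T.b (by rw [T.b.coord_apply_eq]; exact one_pos) _).filter_mono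
      nhdsWithin_le_nhds
  have e2 : ∀ᶠ ε in 𝓝[>] (0 : ℝ), ∀ t, ∀ j, 0 < (T.B t).coord j (T.b p) →
      0 < (T.B t).coord j (T.b p + ε • F.u φ) := by
    refine eventually_all.2 fun t => eventually_all.2 fun j => ?_
    by_cases hc : 0 < (T.B t).coord j (T.b p)
    · filter_upwards [(coord_eventually_pos (T.B t) hc (F.u φ)).filter_mono
        nhdsWithin_le_nhds] with ε hε _ using hε
    · exact Eventually.of_forall fun _ hh => absurd hh hc
  obtain ⟨ε, hε, h3, h4⟩ := (hpos.and (e1.and e2)).exists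
  refine ⟨T.b p + ε • F.u φ, ⟨fun i hi => ?_, fun i hi => ?_⟩, ?_, ?_, h4⟩
  · rw [coord_add_smul, h.plane φ i hi, T.b.coord_apply_ne (ne_of_mem_notMem hi h.tri.hp)]
    ring
  · rcases h.tri.all i with hi' | hi' | hi' | hi'
    · exact absurd hi' hi
    · rw [hi']; exact h3
    · rw [hi', coord_add_smul, T.b.coord_apply_ne h.tri.pq.symm, zero_add]
      exact mul_pos hε hq
    · rw [hi', coord_add_smul, T.b.coord_apply_ne h.tri.pr.symm, zero_add]
      exact mul_pos hε hr
  · rw [add_sub_cancel_left, real_inner_smul_right, F.inner_u]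
    refine mul_pos hε ?_
    rw [← Real.cos_neg, show -(φ₁ + Real.pi / 2 - φ) = (φ - φ₁) - Real.pi / 2 by ring,
      Real.cos_sub_pi_div_two]
    exact Real.sin_pos_of_pos_of_lt_pi (by linarith) (by linarith)
  · rw [add_sub_cancel_left, real_inner_smul_right, F.inner_u]
    refine mul_pos hε ?_
    rw [show φ₂ - Real.pi / 2 - φ = (φ₂ - φ) - Real.pi / 2 by ring,
      Real.cos_sub_pi_div_two]
    exact Real.sin_pos_of_pos_of_lt_pi (by linarith) (by linarith)

theorem Tiling.Reg_InS (h : Sec T.b I p q r F θ) {φ₁ φ₂ : ℝ} (h1 : φ₁ < φ₂) {t : κ}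
    (ht1 : φ₁ ∈ T.Phi p F θ t) (ht2 : φ₂ ∈ T.Phi p F θ t) {x : E}
    (hx : x ∈ T.Reg I p F φ₁ φ₂) : InS (T.B t) x := by
  classical
  obtain ⟨⟨hx1, hx2⟩, hx3, hx4, hx5⟩ := hx
  obtain ⟨a1, a2, a3, a4⟩ := ht1
  obtain ⟨b1, b2, -, b4⟩ := ht2
  have hlt := h.lt
  set y := x - T.b p with hy
  have hxy : x = T.b p + y := by rw [hy]; abel
  have hy0 : y ≠ 0 := by
    intro h0
    rw [h0, inner_zero_right] at hx3
    exact lt_irrefl _ hx3
  have hyI : ∀ i ∈ I, lin T.b i y = 0 := by
    intro i hi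
    rw [hy, lin_sub, hx1 i hi, T.b.coord_apply_ne (ne_of_mem_notMem hi h.tri.hp), sub_zero]
  have hyq : 0 ≤ lin T.b q y := by
    rw [hy, lin_sub, T.b.coord_apply_ne h.tri.pq.symm, sub_zero]
    exact (hx2 q h.tri.hq).le
  have hyr : 0 ≤ lin T.b r y := by
    rw [hy, lin_sub, T.b.coord_apply_ne h.tri.pr.symm, sub_zero]
    exact (hx2 r h.tri.hr).le
  obtain ⟨ψ, c1, c2, c3⟩ := h.polar hy0 hyI hyq hyr
  have hny : 0 < ‖y‖ := norm_pos_iff.2 hy0
  rw [c3, real_inner_smul_right, F.inner_u, ← Real.cos_neg,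
    show -(φ₁ + Real.pi / 2 - ψ) = (ψ - φ₁) - Real.pi / 2 by ring,
    Real.cos_sub_pi_div_two] at hx3
  rw [c3, real_inner_smul_right, F.inner_u,
    show φ₂ - Real.pi / 2 - ψ = (φ₂ - ψ) - Real.pi / 2 by ring,
    Real.cos_sub_pi_div_two] at hx4
  have d1 : 0 < Real.sin (ψ - φ₁) := pos_of_mul_pos_right hx3 hny.le
  have d2 : 0 < Real.sin (φ₂ - ψ) := pos_of_mul_pos_right hx4 hny.le
  have d3 : 0 < Real.sin (φ₂ - φ₁) :=
    Real.sin_pos_of_pos_of_lt_pi (by linarith) (by linarith)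
  intro j
  by_cases hj : j ∈ Z (T.B t) (T.b p)
  · rw [hxy, coord_add, mem_Z.1 hj, zero_add, c3, map_smul, smul_eq_mul]
    refine mul_nonneg hny.le ?_
    have e1 := congrArg (lin (T.B t) j) (Sec.u_between F φ₁ φ₂ ψ)
    rw [map_smul, map_add, map_smul, map_smul, smul_eq_mul, smul_eq_mul, smul_eq_mul] at e1
    have e2 : 0 ≤ Real.sin (φ₂ - φ₁) * lin (T.B t) j (F.u ψ) := by
      rw [e1]
      exact add_nonneg (mul_nonneg d2.le (a4 j hj)) (mul_nonneg d1.le (b4 j hj))
    exact nonneg_of_mul_nonneg_right e2 d3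
  · exact (hx5 t j (a3.pos hj)).le

theorem Tiling.Phi_disj (h : Sec T.b I p q r F θ) (hmin : IsMin T.b I) {t t' : κ}
    (hne : t ≠ t') : (T.Phi p F θ t ∩ T.Phi p F θ t').Subsingleton := by
  have key : ∀ φ₁ φ₂, φ₁ ∈ T.Phi p F θ t ∩ T.Phi p F θ t' →
      φ₂ ∈ T.Phi p F θ t ∩ T.Phi p F θ t' → ¬ φ₁ < φ₂ := by
    rintro φ₁ φ₂ ⟨ha, ha'⟩ ⟨hb, hb'⟩ hlt
    obtain ⟨x, hx, t0, honly, -⟩ := T.min_step h.tri.ne_univ hmin
      (T.Reg_nonempty h ha.1 hlt hb.2.1) (T.openIn_Reg I p F φ₁ φ₂) Set.inter_subset_left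
    exact hne ((honly.2 t (Tiling.Reg_InS h hlt ha hb hx)).trans
      (honly.2 t' (Tiling.Reg_InS h hlt ha' hb' hx)).symm)
  intro φ₁ h1 φ₂ h2
  rcases lt_trichotomy φ₁ φ₂ with hh | hh | hh
  · exact absurd hh (key _ _ h1 h2)
  · exact hh
  · exact absurd hh (key _ _ h2 h1)

theorem Tiling.ang_tile (T : Tiling ι κ E) (t : κ) (P Q S : ι) :
    ang (T.B t) P Q S = ang T.b P Q S := by
  rw [ang, ang, T.sim, T.sim, InnerProductGeometry.angle_smul_left_of_pos _ _ T.r_pos,
    InnerProductGeometry.angle_smul_right_of_pos _ _ T.r_pos]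
  exact (T.g t).toLinearIsometry.angle_map _ _

/-- A tile covering a nontrivial part of the sector. -/
theorem Tiling.Phi_eq (h : Sec T.b I p q r F θ) (hmin : IsMin T.b I) {t : κ}
    {φ₁ φ₂ : ℝ} (h1 : φ₁ ∈ T.Phi p F θ t) (h2 : φ₂ ∈ T.Phi p F θ t) (hlt : φ₁ < φ₂) :
    ∃ (J : Finset ι) (π : ι → ι) (P Q S : ι), T.Match t I J π ∧ IsMin T.b J ∧ Tri J P Q S ∧
      T.B t P = T.b p ∧ ∃ lo hi, lo ≤ hi ∧ T.Phi p F θ t = Set.Icc lo hi ∧
        ang T.b P Q S = hi - lo := by
  classical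
  obtain ⟨x, hx, t0, honly, π, hm, hc, hJmin⟩ := T.min_step h.tri.ne_univ hmin
      (T.Reg_nonempty h h1.1 hlt h2.2.1) (T.openIn_Reg I p F φ₁ φ₂) Set.inter_subset_left
  have ht := honly.2 t (Tiling.Reg_InS h hlt h1 h2 hx)
  subst ht
  set J := Z (T.B t) x with hJ
  obtain ⟨P, hP⟩ := T.vertex h1.2.2.1
  have hPJ : P ∉ J := by
    intro hPJ
    obtain ⟨i, hi, hpi⟩ := hm.surj P hPJ
    obtain ⟨a, ha, hf⟩ := hm.facet i hi
    have e1 := hf (T.b p)
    rw [T.b.coord_apply_ne (ne_of_mem_notMem hi h.tri.hp), hpi, ← hP,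
      (T.B t).coord_apply_eq, mul_one] at e1
    exact ha.ne e1
  obtain ⟨Q, S, htri⟩ := exists_tri hPJ (by rw [hc]; exact h.tri.card)
  refine ⟨J, π, P, Q, S, hm, hJmin, htri, hP, ?_⟩
  -- `J` functionals vanish on the plane
  have hJplane : ∀ y, (∀ i ∈ I, lin T.b i y = 0) → ∀ j ∈ J, lin (T.B t) j y = 0 := by
    intro y hy j hj
    obtain ⟨i, hi, hpi⟩ := hm.surj j hj
    obtain ⟨a, ha, -, hf⟩ := (hm.facet i hi).lin
    have e1 := hf y
    rw [hy i hi, hpi] at e1
    exact (mul_eq_zero.1 e1.symm).resolve_left ha.ne'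
  -- edge vectors of the tile lie in the plane
  have hplane : ∀ Q', Q' ∉ J → ∀ i ∈ I, lin T.b i (T.B t Q' - T.B t P) = 0 := by
    intro Q' hQ' i hi
    obtain ⟨a, ha, -, hf⟩ := (hm.facet i hi).lin
    have hpi := hm.maps i hi
    rw [hf, lin_diff, if_neg (ne_of_mem_notMem hpi hQ'), if_neg (ne_of_mem_notMem hpi hPJ)]
    ring
  have hpolar : ∀ Q', Q' ∉ J → Q' ≠ P → ∃ φ, 0 ≤ φ ∧ φ ≤ θ ∧
      T.B t Q' - T.B t P = ‖T.B t Q' - T.B t P‖ • F.u φ := by
    intro Q' hQ' hne
    refine h.polar ?_ (hplane Q' hQ') ?_ ?_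
    · intro h0
      have e1 := lin_diff (T.B t) Q' Q' P
      rw [h0, map_zero, if_pos rfl, if_neg hne] at e1
      norm_num at e1
    · rw [lin_sub, hP, T.b.coord_apply_ne h.tri.pq.symm, sub_zero]
      exact T.sub t q Q'
    · rw [lin_sub, hP, T.b.coord_apply_ne h.tri.pr.symm, sub_zero]
      exact T.sub t r Q'
  obtain ⟨φQ, q1, q2, q3⟩ := hpolar Q htri.hq htri.pq.symm
  obtain ⟨φS, s1, s2, s3⟩ := hpolar S htri.hr htri.pr.symm
  have hpi := h.lt
  have hnQ : 0 < ‖T.B t Q - T.B t P‖ := by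
    rw [norm_pos_iff]
    intro h0
    have e1 := lin_diff (T.B t) Q Q P
    rw [h0, map_zero, if_pos rfl, if_neg htri.pq.symm] at e1
    norm_num at e1
  have hnS : 0 < ‖T.B t S - T.B t P‖ := by
    rw [norm_pos_iff]
    intro h0
    have e1 := lin_diff (T.B t) S S P
    rw [h0, map_zero, if_pos rfl, if_neg htri.pr.symm] at e1
    norm_num at e1
  have hang : ang T.b P Q S = |φQ - φS| := by
    rw [← T.ang_tile t, ang, q3, s3, InnerProductGeometry.angle_smul_left_of_pos _ _ hnQ,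
      InnerProductGeometry.angle_smul_right_of_pos _ _ hnS,
      F.angle_u q1 (by linarith) s1 (by linarith)]
  -- the functionals
  have hQS : lin (T.B t) Q (F.u φS) = 0 := by
    have e1 := lin_diff (T.B t) Q S P
    rw [s3, map_smul, smul_eq_mul, if_neg htri.qr, if_neg htri.pq.symm, sub_zero] at e1
    exact (mul_eq_zero.1 e1).resolve_left hnS.ne'
  have hSQ : lin (T.B t) S (F.u φQ) = 0 := by
    have e1 := lin_diff (T.B t) S Q P
    rw [q3, map_smul, smul_eq_mul, if_neg htri.qr.symm, if_neg htri.pr.symm, sub_zero] at e1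
    exact (mul_eq_zero.1 e1).resolve_left hnQ.ne'
  have hQQ : 0 < lin (T.B t) Q (F.u φQ) := by
    have e1 := lin_diff (T.B t) Q Q P
    rw [q3, map_smul, smul_eq_mul, if_pos rfl, if_neg htri.pq.symm, sub_zero] at e1
    by_contra hcon
    push Not at hcon
    have := mul_nonpos_of_nonneg_of_nonpos hnQ.le hcon
    linarith
  have hSS : 0 < lin (T.B t) S (F.u φS) := by
    have e1 := lin_diff (T.B t) S S P
    rw [s3, map_smul, smul_eq_mul, if_pos rfl, if_neg htri.pr.symm, sub_zero] at e1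
    by_contra hcon
    push Not at hcon
    have := mul_nonpos_of_nonneg_of_nonpos hnS.le hcon
    linarith
  have LQ := fun φ => F.lin_u (lin (T.B t) Q) hQS φ
  have LS := fun φ => F.lin_u (lin (T.B t) S) hSQ φ
  set K := lin (T.B t) Q (F.u (φS + Real.pi / 2)) with hK
  set K' := lin (T.B t) S (F.u (φQ + Real.pi / 2)) with hK'
  have hKQ : 0 < Real.sin (φQ - φS) * K := by rw [← LQ]; exact hQQ
  have hKS : 0 < Real.sin (φS - φQ) * K' := by rw [← LS]; exact hSS
  have hPhi : ∀ φ, φ ∈ T.Phi p F θ t ↔ 0 ≤ φ ∧ φ ≤ θ ∧ 0 ≤ lin (T.B t) Q (F.u φ) ∧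
      0 ≤ lin (T.B t) S (F.u φ) := by
    intro φ
    have hZ : ∀ j, j ∈ Z (T.B t) (T.b p) ↔ j ≠ P := by
      intro j
      rw [mem_Z, ← hP, AffineBasis.coord_apply]
      by_cases hj : j = P <;> simp [hj]
    constructor
    · rintro ⟨a1, a2, -, a4⟩
      exact ⟨a1, a2, a4 Q ((hZ Q).2 htri.pq.symm), a4 S ((hZ S).2 htri.pr.symm)⟩
    · rintro ⟨a1, a2, a3, a4⟩
      refine ⟨a1, a2, h1.2.2.1, fun j hj => ?_⟩
      rcases htri.all j with hj' | hj' | hj' | hj'
      · exact (hJplane _ (h.plane φ) j hj').ge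
      · exact absurd hj' ((hZ j).1 hj)
      · rw [hj']; exact a3
      · rw [hj']; exact a4
  rcases lt_trichotomy φQ φS with hlt' | heq | hgt
  · -- `φQ < φS`
    have hs : 0 < Real.sin (φS - φQ) := Real.sin_pos_of_pos_of_lt_pi (by linarith) (by linarith)
    have hK'pos : 0 < K' := pos_of_mul_pos_right hKS hs.le
    have hKneg : K < 0 := by
      rw [show φQ - φS = -(φS - φQ) by ring, Real.sin_neg] at hKQ
      by_contra hcon
      push Not at hcon
      have := mul_nonneg hs.le hcon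
      linarith
    refine ⟨φQ, φS, hlt'.le, ?_, ?_⟩
    · ext φ
      rw [hPhi, Set.mem_Icc, LQ, LS]
      constructor
      · rintro ⟨a1, a2, a3, a4⟩
        constructor
        · by_contra hcon
          push Not at hcon
          have e1 : Real.sin (φ - φQ) < 0 :=
            Real.sin_neg_of_neg_of_neg_pi_lt (by linarith) (by linarith)
          have := mul_neg_of_neg_of_pos e1 hK'pos
          linarith
        · by_contra hcon
          push Not at hcon
          have e1 : 0 < Real.sin (φ - φS) :=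
            Real.sin_pos_of_pos_of_lt_pi (by linarith) (by linarith)
          have := mul_neg_of_pos_of_neg e1 hKneg
          linarith
      · rintro ⟨a1, a2⟩
        refine ⟨by linarith, by linarith, ?_, ?_⟩
        · have e1 : Real.sin (φ - φS) ≤ 0 := by
            rw [show φ - φS = -(φS - φ) by ring, Real.sin_neg]
            have := Real.sin_nonneg_of_nonneg_of_le_pi (x := φS - φ) (by linarith) (by linarith)
            linarith
          exact mul_nonneg_of_nonpos_of_nonpos e1 hKneg.le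
        · exact mul_nonneg (Real.sin_nonneg_of_nonneg_of_le_pi (by linarith) (by linarith))
            hK'pos.le
    · rw [hang, abs_of_neg (by linarith)]; ring
  · exfalso
    rw [heq, sub_self, Real.sin_zero, zero_mul] at hKQ
    exact lt_irrefl _ hKQ
  · have hs : 0 < Real.sin (φQ - φS) := Real.sin_pos_of_pos_of_lt_pi (by linarith) (by linarith)
    have hKpos : 0 < K := pos_of_mul_pos_right hKQ hs.le
    have hK'neg : K' < 0 := by
      rw [show φS - φQ = -(φQ - φS) by ring, Real.sin_neg] at hKS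
      by_contra hcon
      push Not at hcon
      have := mul_nonneg hs.le hcon
      linarith
    refine ⟨φS, φQ, hgt.le, ?_, ?_⟩
    · ext φ
      rw [hPhi, Set.mem_Icc, LQ, LS]
      constructor
      · rintro ⟨a1, a2, a3, a4⟩
        constructor
        · by_contra hcon
          push Not at hcon
          have e1 : Real.sin (φ - φS) < 0 :=
            Real.sin_neg_of_neg_of_neg_pi_lt (by linarith) (by linarith)
          have := mul_neg_of_neg_of_pos e1 hKpos
          linarith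
        · by_contra hcon
          push Not at hcon
          have e1 : 0 < Real.sin (φ - φQ) :=
            Real.sin_pos_of_pos_of_lt_pi (by linarith) (by linarith)
          have := mul_neg_of_pos_of_neg e1 hK'neg
          linarith
      · rintro ⟨a1, a2⟩
        refine ⟨by linarith, by linarith, ?_, ?_⟩
        · exact mul_nonneg (Real.sin_nonneg_of_nonneg_of_le_pi (by linarith) (by linarith))
            hKpos.le
        · have e1 : Real.sin (φ - φQ) ≤ 0 := by
            rw [show φ - φQ = -(φQ - φ) by ring, Real.sin_neg]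
            have := Real.sin_nonneg_of_nonneg_of_le_pi (x := φQ - φ) (by linarith) (by linarith)
            linarith
          exact mul_nonneg_of_nonpos_of_nonpos e1 hK'neg.le
    · rw [hang, abs_of_pos (by linarith)]

/-- Additivity of the angles of the minimal two-dimensional faces. -/
theorem Tiling.sector (T : Tiling ι κ E) {I : Finset ι} {p q r : ι} (htri : Tri I p q r)
    (hmin : IsMin T.b I) :
    ∃ (τ : Finset κ) (J : κ → Finset ι) (π : κ → ι → ι) (P Q S : κ → ι),
      (∀ t ∈ τ, T.Match t I (J t) (π t) ∧ IsMin T.b (J t) ∧ Tri (J t) (P t) (Q t) (S t) ∧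
        T.B t (P t) = T.b p) ∧
      ang T.b p q r = ∑ t ∈ τ, ang T.b (P t) (Q t) (S t) ∧
      ∀ t, τ = {t} →
        ∀ᶠ δ in 𝓝[>] (0 : ℝ), InS (T.B t) (T.b p + δ • (T.b q - T.b p)) := by
  classical
  obtain ⟨F, h⟩ := htri.exists_sec T.b
  set θ := ang T.b p q r with hθ
  have : Nonempty ι := ⟨p⟩
  have H : ∀ t, ¬ (T.Phi p F θ t).Subsingleton →
      ∃ (J : Finset ι) (π : ι → ι) (P Q S : ι), T.Match t I J π ∧ IsMin T.b J ∧ Tri J P Q S ∧
      T.B t P = T.b p ∧ ∃ lo hi, lo ≤ hi ∧ T.Phi p F θ t = Set.Icc lo hi ∧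
        ang T.b P Q S = hi - lo := by
    intro t ht
    rw [Set.not_subsingleton_iff] at ht
    obtain ⟨φ₁, h1, φ₂, h2, hne⟩ := ht
    rcases lt_or_gt_of_ne hne with hlt | hlt
    · exact Tiling.Phi_eq h hmin h1 h2 hlt
    · exact Tiling.Phi_eq h hmin h2 h1 hlt
  choose! J π P Q S hm hJ htri' hP hlohi using H
  refine ⟨univ.filter (fun t => ¬ (T.Phi p F θ t).Subsingleton), J, π, P, Q, S, ?_, ?_, ?_⟩
  · intro t ht
    have ht' : ¬ (T.Phi p F θ t).Subsingleton := by simpa using ht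
    exact ⟨hm t ht', hJ t ht', htri' t ht', hP t ht'⟩
  · have hfin : ∀ t ∈ (univ : Finset κ), (volume : Measure ℝ) (T.Phi p F θ t) ≠ ⊤ := by
      intro t _
      refine ((measure_mono (t := Set.Icc 0 θ) ?_).trans_lt measure_Icc_lt_top).ne
      rintro φ ⟨h0, h1, -⟩
      exact ⟨h0, h1⟩
    have h1 : (volume : Measure ℝ).real (Set.Icc 0 θ) =
        ∑ t, (volume : Measure ℝ).real (T.Phi p F θ t) := by
      rw [Tiling.Phi_cover h]
      have h2 : (⋃ t, T.Phi p F θ t) = ⋃ t ∈ (univ : Finset κ), T.Phi p F θ t := by simp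
      rw [h2, measureReal_biUnion_finset₀ _ _ hfin]
      · intro t _ t' _ hne
        exact (Tiling.Phi_disj h hmin hne).measure_zero _
      · intro t _
        by_cases hs : (T.Phi p F θ t).Subsingleton
        · exact hs.measurableSet.nullMeasurableSet
        · obtain ⟨lo, hi, -, heq, -⟩ := hlohi t hs
          rw [heq]
          exact measurableSet_Icc.nullMeasurableSet
    rw [Real.volume_real_Icc_of_le h.pos.le, sub_zero] at h1
    refine h1.trans ?_
    rw [sum_filter]
    refine sum_congr rfl fun t _ => ?_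
    by_cases hs : (T.Phi p F θ t).Subsingleton
    · rw [if_neg (not_not.2 hs), Measure.real, hs.measure_zero]
      rfl
    · rw [if_pos hs]
      obtain ⟨lo, hi, hle, heq, hang⟩ := hlohi t hs
      rw [heq, Real.volume_real_Icc_of_le hle, hang]
  · intro t ht
    have htm : t ∈ univ.filter (fun t => ¬ (T.Phi p F θ t).Subsingleton) := by
      rw [ht]; exact mem_singleton_self t
    have hs : ¬ (T.Phi p F θ t).Subsingleton := by simpa using htm
    obtain ⟨lo, hi, hle, heq, hang⟩ := hlohi t hs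
    have hcov := Tiling.Phi_cover (T := T) h
    -- all other tiles cover a null set, hence `hi - lo = θ`
    have hlen : hi - lo = θ := by
      have h1 : (volume : Measure ℝ).real (Set.Icc 0 θ) ≤
          ∑ t', (volume : Measure ℝ).real (T.Phi p F θ t') := by
        rw [hcov]
        exact measureReal_iUnion_fintype_le _
      have h2 : ∑ t', (volume : Measure ℝ).real (T.Phi p F θ t') = hi - lo := by
        rw [sum_eq_single t]
        · rw [heq, Real.volume_real_Icc_of_le hle]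
        · intro t' _ hne
          have h3 : (T.Phi p F θ t').Subsingleton := by
            by_contra hcon
            have h4 : t' ∈ univ.filter (fun t => ¬ (T.Phi p F θ t).Subsingleton) := by
              simpa using hcon
            rw [ht, mem_singleton] at h4
            exact hne h4
          rw [Measure.real, h3.measure_zero]
          rfl
        · intro hh; exact absurd (mem_univ _) hh
      rw [h2, Real.volume_real_Icc_of_le h.pos.le, sub_zero] at h1
      have hlo : lo ∈ T.Phi p F θ t := by rw [heq]; exact ⟨le_rfl, hle⟩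
      have hhi : hi ∈ T.Phi p F θ t := by rw [heq]; exact ⟨hle, le_rfl⟩
      have := hlo.1
      have := hhi.2.1
      linarith
    have hlo : lo ∈ T.Phi p F θ t := by rw [heq]; exact ⟨le_rfl, hle⟩
    have hhi : hi ∈ T.Phi p F θ t := by rw [heq]; exact ⟨hle, le_rfl⟩
    have hlo0 : lo = 0 := by
      have := hlo.1
      have := hhi.2.1
      linarith
    rw [hlo0] at hlo
    obtain ⟨-, -, a3, a4⟩ := hlo
    refine eventually_in (T.B t) a3 fun j hj => ?_
    rw [h.ha, map_smul, smul_eq_mul]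
    exact mul_nonneg (norm_nonneg _) (a4 j hj)

end

end Pool.Agent.Lib.MP_9fc4df_co
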