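import Pool.Agent.Lib.MP_9fc4df_co.Defs

/-!
Reptile simplices from systems of similarities; composition of reptile tilings; simplices given
by dual affine functionals.
-/

open Finset

namespace Pool.Agent.Lib.MP_9fc4df_co.Sims

/-- The image of an affine basis under a similarity. -/
theorem exists_image_basis {ι E : Type*} [NormedAddCommGroup E]
    [InnerProductSpace ℝ E] (b : AffineBasis ι ℝ E) (f : E ≃ E) {r : ℝ} (hr : 0 < r)
    (hf : ∀ x y, dist (f x) (f y) = r * dist x y) :
    ∃ (b' : AffineBasis ι ℝ E), (∀ i, b' i = f (b i)) ∧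
      f '' convexHull ℝ (Set.range b) = convexHull ℝ (Set.range b') := by
  -- the isometry
  let h : E ≃ᵢ E :=
    { toEquiv := f.trans (Homeomorph.smulOfNeZero r⁻¹ (inv_ne_zero hr.ne')).toEquiv
      isometry_toFun := by
        refine Isometry.of_dist_eq fun x y => ?_
        change dist (r⁻¹ • f x) (r⁻¹ • f y) = dist x y
        rw [dist_smul₀, hf, norm_inv, Real.norm_of_nonneg hr.le, ← mul_assoc,
          inv_mul_cancel₀ hr.ne', one_mul] }
  have hh : ∀ x, h x = r⁻¹ • f x := fun x => rfl
  let A : E ≃ᵃⁱ[ℝ] E := h.toRealAffineIsometryEquiv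
  have hA : ∀ x, A x = r⁻¹ • f x := by
    intro x
    have : (A : E → E) = h := IsometryEquiv.coeFn_toRealAffineIsometryEquiv h
    rw [this, hh]
  let F : E →ᵃ[ℝ] E := r • A.toAffineEquiv.toAffineMap
  have hF : ∀ x, F x = f x := by
    intro x
    change r • A x = f x
    rw [hA, smul_smul, mul_inv_cancel₀ hr.ne', one_smul]
  have hFf : (F : E → E) = f := funext hF
  have hFinj : Function.Injective F := by rw [hFf]; exact f.injective
  have hFsurj : Function.Surjective F := by rw [hFf]; exact f.surjective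
  let b' : AffineBasis ι ℝ E :=
    { toFun := fun i => F (b i)
      ind' := b.ind.map' F hFinj
      tot' := by
        have : Set.range (fun i => F (b i)) = F '' Set.range b := by
          rw [← Set.range_comp]; rfl
        rw [this]
        exact AffineMap.span_eq_top_of_surjective F hFsurj b.tot }
  have hb' : ∀ i, b' i = f (b i) := fun i => hF (b i)
  refine ⟨b', hb', ?_⟩
  have h1 : (b' : ι → E) = F ∘ b := rfl
  rw [h1, Set.range_comp, ← AffineMap.image_convexHull, hFf]

/-- The affine basis of the vertices of a full-dimensional simplex. -/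
theorem exists_basis {d : ℕ} (s : Affine.Simplex ℝ (EuclideanSpace ℝ (Fin d)) d) :
    ∃ b : AffineBasis (Fin (d + 1)) ℝ (EuclideanSpace ℝ (Fin d)), (b : _ → _) = s.points :=
  ⟨{ toFun := s.points
     ind' := s.independent
     tot' := by
      rw [s.independent.affineSpan_eq_top_iff_card_eq_finrank_add_one]
      simp }, rfl⟩

/-- A system of similarities of the same ratio mapping the body of `s` onto the tiles of a tiling
of the body of `s` makes `s` a reptile simplex. -/
theorem isReptile_of_sims {d k : ℕ} (s : Affine.Simplex ℝ (EuclideanSpace ℝ (Fin d)) d)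
    (f : Fin k → (EuclideanSpace ℝ (Fin d) ≃ EuclideanSpace ℝ (Fin d))) {r : ℝ} (hr : 0 < r)
    (hf : ∀ j x y, dist (f j x) (f j y) = r * dist x y)
    (hunion : body s = ⋃ j, f j '' body s)
    (hdisj : ∀ i j, i ≠ j → Disjoint (interior (f i '' body s)) (interior (f j '' body s))) :
    IsReptile k s := by
  obtain ⟨b, hb⟩ := exists_basis s
  have hbody : body s = convexHull ℝ (Set.range b) := by rw [body, hb]
  choose B hB1 hB2 using fun j => exists_image_basis b (f j) hr (hf j)
  let T : Fin k → Affine.Simplex ℝ (EuclideanSpace ℝ (Fin d)) d := fun j =>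
    ⟨B j, (B j).ind⟩
  have hT : ∀ j, body (T j) = f j '' body s := by
    intro j
    rw [hbody, hB2]
    rfl
  refine ⟨T, ?_, ?_, ?_, ?_⟩
  · simp_rw [hT]; exact hunion
  · intro i j hij
    rw [hT, hT]; exact hdisj i j hij
  · intro i j
    refine ⟨⟨(f i).symm.trans (f j), Isometry.of_dist_eq fun x y => ?_⟩, ?_⟩
    · change dist (f j ((f i).symm x)) (f j ((f i).symm y)) = dist x y
      rw [hf j, ← hf i, Equiv.apply_symm_apply, Equiv.apply_symm_apply]
    · change (fun x => f j ((f i).symm x)) '' body (T i) = body (T j)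
      rw [hT, hT, Set.image_image]
      simp
  · intro j
    refine ⟨⟨f j, (Dilation.mkOfDistEq (f j) ⟨⟨r, hr.le⟩, ?_, fun x y => ?_⟩).edist_eq'⟩, ?_⟩
    · intro h
      exact hr.ne' (congrArg NNReal.toReal h)
    · rw [hf]; rfl
    · rw [hT]; rfl

/-- A similarity maps the interior of a set onto the interior of the image. -/
theorem image_interior_of_sim {E : Type*} [MetricSpace E] (f : E ≃ E) {r : ℝ} (hr : 0 < r)
    (hf : ∀ x y, dist (f x) (f y) = r * dist x y) (A : Set E) :
    interior (f '' A) = f '' interior A := by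
  let g : E ≃ᵈ E := ⟨f, (Dilation.mkOfDistEq f ⟨⟨r, hr.le⟩, fun h =>
    hr.ne' (congrArg NNReal.toReal h), fun x y => by rw [hf]; rfl⟩).edist_eq'⟩
  exact (g.toHomeomorph.image_interior A).symm

/-- Variant of `isReptile_of_sims`. -/
theorem isReptile_of_sims' {d k : ℕ} (s : Affine.Simplex ℝ (EuclideanSpace ℝ (Fin d)) d)
    (f : Fin k → (EuclideanSpace ℝ (Fin d) ≃ EuclideanSpace ℝ (Fin d))) {r : ℝ} (hr : 0 < r)
    (hf : ∀ j x y, dist (f j x) (f j y) = r * dist x y)
    (hunion : ∀ x, x ∈ body s ↔ ∃ j, (f j).symm x ∈ body s)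
    (hdisj : ∀ i j, i ≠ j → ∀ x, (f i).symm x ∈ interior (body s) →
      (f j).symm x ∉ interior (body s)) :
    IsReptile k s := by
  refine isReptile_of_sims s f hr hf ?_ ?_
  · ext x
    rw [hunion, Set.mem_iUnion]
    refine exists_congr fun j => ?_
    rw [Equiv.image_eq_preimage_symm]
    rfl
  · intro i j hij
    rw [image_interior_of_sim _ hr (hf i), image_interior_of_sim _ hr (hf j),
      Set.disjoint_left]
    intro x hx hx'
    rw [Equiv.image_eq_preimage_symm] at hx hx'
    exact hdisj i j hij x hx hx'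

/-- Every reptile tiling comes from a system of similarities. -/
theorem exists_sims {d k : ℕ} {s : Affine.Simplex ℝ (EuclideanSpace ℝ (Fin d)) d}
    (h : IsReptile k s) :
    ∃ (f : Fin k → (EuclideanSpace ℝ (Fin d) ≃ₜ EuclideanSpace ℝ (Fin d))) (r : ℝ), 0 < r ∧
      (∀ j x y, dist (f j x) (f j y) = r * dist x y) ∧
      body s = ⋃ j, f j '' body s ∧
      ∀ i j, i ≠ j → Disjoint (interior (f i '' body s)) (interior (f j '' body s)) := by
  obtain ⟨T, hunion, hdisj, hcong, hsim⟩ := h
  have hk : 0 < k := by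
    rcases Nat.eq_zero_or_pos k with rfl | hk
    · exfalso
      have h1 : s.points 0 ∈ body s := subset_convexHull ℝ _ (Set.mem_range_self 0)
      rw [hunion] at h1
      obtain ⟨j, -⟩ := Set.mem_iUnion.1 h1
      exact j.elim0
    · exact hk
  obtain ⟨f0, hf0⟩ := hsim ⟨0, hk⟩
  choose c hc using hcong ⟨0, hk⟩
  have hr : (0 : ℝ) < Dilation.ratio f0 := by exact_mod_cast Dilation.ratio_pos f0
  have him : ∀ j, (fun x => c j (f0 x)) '' body s = body (T j) := by
    intro j
    rw [← hc, ← hf0, Set.image_image]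
  refine ⟨fun j => f0.toHomeomorph.trans (c j).toHomeomorph, Dilation.ratio f0, hr, ?_, ?_, ?_⟩
  · intro j x y
    change dist (c j (f0 x)) (c j (f0 y)) = _
    rw [(c j).dist_eq, Dilation.dist_eq]
  · refine hunion.trans (Set.iUnion_congr fun j => ?_)
    rw [← him j]
    rfl
  · intro i j hij
    have := hdisj i j hij
    rw [← him i, ← him j] at this
    exact this

/-- Composition of reptile tilings. -/
theorem isReptile_mul {d k l : ℕ} {s : Affine.Simplex ℝ (EuclideanSpace ℝ (Fin d)) d}
    (hk : IsReptile k s) (hl : IsReptile l s) : IsReptile (k * l) s := by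
  obtain ⟨f, r, hr, hf, hfu, hfd⟩ := exists_sims hk
  obtain ⟨g, q, hq, hg, hgu, hgd⟩ := exists_sims hl
  let e : Fin (k * l) ≃ Fin k × Fin l := finProdFinEquiv.symm
  refine isReptile_of_sims s (fun j => ((g (e j).2).trans (f (e j).1)).toEquiv) (mul_pos hr hq)
    ?_ ?_ ?_
  · intro j x y
    change dist (f _ (g _ x)) (f _ (g _ y)) = _
    rw [hf, hg, mul_assoc]
  · apply Set.Subset.antisymm
    · intro x hx
      rw [hfu] at hx
      obtain ⟨i, y, hy, rfl⟩ := Set.mem_iUnion.1 hx
      rw [hgu] at hy
      obtain ⟨j, z, hz, rfl⟩ := Set.mem_iUnion.1 hy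
      refine Set.mem_iUnion.2 ⟨e.symm (i, j), z, hz, ?_⟩
      simp
    · intro x hx
      obtain ⟨j, z, hz, rfl⟩ := Set.mem_iUnion.1 hx
      have h1 : g (e j).2 z ∈ body s := by
        rw [hgu]
        exact Set.mem_iUnion.2 ⟨_, z, hz, rfl⟩
      rw [hfu]
      exact Set.mem_iUnion.2 ⟨_, _, h1, rfl⟩
  · intro i j hij
    have himg : ∀ i, ((g (e i).2).trans (f (e i).1)).toEquiv '' body s =
        f (e i).1 '' (g (e i).2 '' body s) := by
      intro i
      rw [Set.image_image]; rfl
    rw [himg, himg]
    by_cases h1 : (e i).1 = (e j).1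
    · have h2 : (e i).2 ≠ (e j).2 := by
        intro h2
        exact hij (e.injective (Prod.ext h1 h2))
      have h3 := hgd _ _ h2
      rw [h1, ← (f (e j).1).image_interior, ← (f (e j).1).image_interior,
        Set.disjoint_image_iff (f (e j).1).injective]
      exact h3
    · have h3 := hfd _ _ h1
      have hsub : ∀ i, g i '' body s ⊆ body s := by
        intro i
        conv_rhs => rw [hgu]
        exact Set.subset_iUnion (fun i => g i '' body s) i
      exact h3.mono (interior_mono (Set.image_mono (hsub _)))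
        (interior_mono (Set.image_mono (hsub _)))

section Dual

variable {d : ℕ}

/-- Points with a dual system of affine functionals are affinely independent. -/
theorem indep_of_dual (p : Fin (d + 1) → EuclideanSpace ℝ (Fin d))
    (β : Fin (d + 1) → (EuclideanSpace ℝ (Fin d) →ᵃ[ℝ] ℝ))
    (h : ∀ i j, β i (p j) = if i = j then 1 else 0) : AffineIndependent ℝ p := by
  rw [affineIndependent_iff]
  intro s w hw hwp i hi
  have h1 : ∀ x, (β i).linear x = β i x - β i 0 := by
    intro x
    have := (β i).linearMap_vsub x 0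
    simp only [vsub_eq_sub, sub_zero] at this
    exact this
  have h2 := congrArg (β i).linear hwp
  rw [map_sum, map_zero] at h2
  simp only [map_smul] at h2
  simp only [h1, smul_eq_mul, mul_sub, sum_sub_distrib, h, ← sum_mul, hw, zero_mul,
    sub_zero] at h2
  rw [sum_eq_single i] at h2
  · simpa using h2
  · intro j _ hji
    rw [if_neg (Ne.symm hji), mul_zero]
  · intro h3; exact absurd hi h3

theorem affine_eq {ι E : Type*} [Fintype ι] [NormedAddCommGroup E] [NormedSpace ℝ E]
    (b : AffineBasis ι ℝ E) (f : E →ᵃ[ℝ] ℝ) (x : E) :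
    f x = ∑ j, b.coord j x * f (b j) := by
  have h := b.affineCombination_coord_eq_self x
  have h2 := Finset.univ.map_affineCombination b (fun i => b.coord i x)
    (b.sum_coord_apply_eq_one x) f
  rw [h] at h2
  rw [h2, Finset.affineCombination_eq_linear_combination _ _ _ (b.sum_coord_apply_eq_one x)]
  simp

variable (s : Affine.Simplex ℝ (EuclideanSpace ℝ (Fin d)) d)
    (β : Fin (d + 1) → (EuclideanSpace ℝ (Fin d) →ᵃ[ℝ] ℝ))
    (h : ∀ i j, β i (s.points j) = if i = j then 1 else 0)

include h

theorem coord_eq_dual (b : AffineBasis (Fin (d + 1)) ℝ (EuclideanSpace ℝ (Fin d)))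
    (hb : (b : _ → _) = s.points) (i : Fin (d + 1)) (x : EuclideanSpace ℝ (Fin d)) :
    b.coord i x = β i x := by
  rw [affine_eq b (β i) x]
  simp only [hb, h]
  simp

theorem body_of_dual : body s = {x | ∀ i, 0 ≤ β i x} := by
  obtain ⟨b, hb⟩ := exists_basis s
  rw [body, ← hb, AffineBasis.convexHull_eq_nonneg_coord]
  ext x
  simp only [Set.mem_ofPred_eq, coord_eq_dual s β h b hb]

theorem interior_body_of_dual : interior (body s) = {x | ∀ i, 0 < β i x} := by
  obtain ⟨b, hb⟩ := exists_basis s
  rw [body, ← hb, AffineBasis.interior_convexHull]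
  ext x
  simp only [Set.mem_ofPred_eq, coord_eq_dual s β h b hb]

end Dual

end Pool.Agent.Lib.MP_9fc4df_co.Sims
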