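import Mathlib

/-!
Volumes of wedges, compared with the volume of a half ball.
-/

open MeasureTheory Filter Topology
open scoped RealInnerProductSpace

set_option linter.unusedSectionVars false

namespace Pool.Agent.Lib.MP_9fc4df_co

variable {E : Type*} [NormedAddCommGroup E] [InnerProductSpace ℝ E]
  [FiniteDimensional ℝ E] [MeasurableSpace E] [BorelSpace E]

/-- The open half ball in the direction `a`. -/
def half (a : E) : Set E := {y | 0 < ⟪a, y⟫} ∩ Metric.ball 0 1

/-- The part of the unit ball in an open wedge. -/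
def wedge (a b : E) : Set E := {y | 0 < ⟪a, y⟫ ∧ 0 < ⟪b, y⟫} ∩ Metric.ball 0 1

theorem isOpen_half (a : E) : IsOpen (half a) :=
  (isOpen_lt continuous_const (by fun_prop)).inter Metric.isOpen_ball

theorem isOpen_wedge (a b : E) : IsOpen (wedge a b) := by
  have h1 : IsOpen {y : E | 0 < ⟪a, y⟫} := isOpen_lt continuous_const (by fun_prop)
  have h2 : IsOpen {y : E | 0 < ⟪b, y⟫} := isOpen_lt continuous_const (by fun_prop)
  exact (h1.inter h2).inter Metric.isOpen_ball

theorem vol_preimage (g : E ≃ₗᵢ[ℝ] E) {s : Set E} (hs : IsOpen s) :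
    (volume : Measure E).real (g ⁻¹' s) = (volume : Measure E).real s :=
  g.measurePreserving.measureReal_preimage hs.measurableSet.nullMeasurableSet

theorem half_ne_top (a : E) : (volume : Measure E) (half a) ≠ ⊤ :=
  ((measure_mono Set.inter_subset_right).trans_lt measure_ball_lt_top).ne

theorem wedge_ne_top (a b : E) : (volume : Measure E) (wedge a b) ≠ ⊤ :=
  ((measure_mono Set.inter_subset_right).trans_lt measure_ball_lt_top).ne

theorem half_smul (a : E) {c : ℝ} (hc : 0 < c) : half (c • a) = half a := by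
  ext y
  simp only [half, Set.mem_inter_iff, Set.mem_ofPred_eq, real_inner_smul_left]
  constructor
  · rintro ⟨h, h'⟩; exact ⟨pos_of_mul_pos_right h hc.le, h'⟩
  · rintro ⟨h, h'⟩; exact ⟨mul_pos hc h, h'⟩

theorem half_eq_of_norm {a b : E} (h : ‖a‖ = ‖b‖) :
    (volume : Measure E).real (half a) = (volume : Measure E).real (half b) := by
  let g : E ≃ₗᵢ[ℝ] E := (ℝ ∙ (a - b))ᗮ.reflection
  have hg : g a = b := Submodule.reflection_sub h
  have h1 : half a = g ⁻¹' (half b) := by
    ext y
    simp only [half, Set.mem_inter_iff, Set.mem_ofPred_eq, Set.mem_preimage, mem_ball_zero_iff,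
      LinearIsometryEquiv.norm_map]
    rw [← hg, g.inner_map_map]
  rw [h1, vol_preimage g (isOpen_half b)]

theorem half_eq {a b : E} (ha : a ≠ 0) (hb : b ≠ 0) :
    (volume : Measure E).real (half a) = (volume : Measure E).real (half b) := by
  have ha' := norm_pos_iff.2 ha
  have hb' := norm_pos_iff.2 hb
  rw [← half_smul a (inv_pos.2 ha'), ← half_smul b (inv_pos.2 hb')]
  refine half_eq_of_norm ?_
  rw [norm_smul, norm_smul, norm_inv, norm_inv, norm_norm, norm_norm, inv_mul_cancel₀ ha'.ne',
    inv_mul_cancel₀ hb'.ne']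

theorem half_pos {a : E} (ha : a ≠ 0) : 0 < (volume : Measure E).real (half a) := by
  refine ENNReal.toReal_pos ?_ (half_ne_top a)
  refine ((isOpen_half a).measure_pos _ ?_).ne'
  have ha' := norm_pos_iff.2 ha
  refine ⟨(1 / (2 * ‖a‖)) • a, ?_, ?_⟩
  · simp only [Set.mem_ofPred_eq, real_inner_smul_right, real_inner_self_eq_norm_sq]
    positivity
  · rw [mem_ball_zero_iff, norm_smul, Real.norm_of_nonneg (by positivity)]
    field_simp
    norm_num

/-- The reflection in the hyperplane orthogonal to the unit vector `a`. -/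
noncomputable def refl (a : E) : E ≃ₗᵢ[ℝ] E := (ℝ ∙ a)ᗮ.reflection

theorem refl_apply {a : E} (ha : ‖a‖ = 1) (y : E) : refl a y = y - (2 * ⟪a, y⟫) • a := by
  rw [refl, Submodule.reflection_orthogonal_apply, Submodule.reflection_singleton_apply]
  simp only [ha]
  rw [neg_sub, two_smul, two_mul, add_smul]
  simp

/-- An acute wedge has at most half the volume of a half ball. -/
theorem wedge_le {a b : E} (ha : ‖a‖ = 1) (h : ⟪a, b⟫ ≤ 0) :
    2 * (volume : Measure E).real (wedge a b) ≤ (volume : Measure E).real (half b) := by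
  have h1 : (volume : Measure E).real (refl a ⁻¹' wedge a b) =
      (volume : Measure E).real (wedge a b) := vol_preimage (refl a) (isOpen_wedge a b)
  have hmem : ∀ y ∈ refl a ⁻¹' wedge a b, ⟪a, y⟫ < 0 ∧ 0 < ⟪b, y⟫ ∧ y ∈ Metric.ball (0 : E) 1 := by
    intro y hy
    have hy1 : 0 < ⟪a, refl a y⟫ := hy.1.1
    have hy2 : 0 < ⟪b, refl a y⟫ := hy.1.2
    have hy3 : refl a y ∈ Metric.ball (0 : E) 1 := hy.2
    rw [refl_apply ha, inner_sub_right, real_inner_smul_right] at hy1 hy2
    rw [real_inner_self_eq_norm_sq, ha] at hy1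
    rw [real_inner_comm a b] at hy2
    have hneg : ⟪a, y⟫ < 0 := by linarith
    refine ⟨hneg, ?_, ?_⟩
    · have := mul_nonneg_of_nonpos_of_nonpos hneg.le h
      nlinarith
    · rw [mem_ball_zero_iff] at hy3 ⊢
      rwa [LinearIsometryEquiv.norm_map] at hy3
  have hdisj : Disjoint (wedge a b) (refl a ⁻¹' wedge a b) := by
    rw [Set.disjoint_left]
    intro y hy hy'
    have h2 : 0 < ⟪a, y⟫ := hy.1.1
    have h3 := (hmem y hy').1
    linarith
  have hopen : IsOpen (refl a ⁻¹' wedge a b) := (isOpen_wedge a b).preimage (refl a).continuous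
  have hfin : (volume : Measure E) (refl a ⁻¹' wedge a b) ≠ ⊤ := by
    refine ((measure_mono (fun y hy => (hmem y hy).2.2)).trans_lt
      (measure_ball_lt_top (x := (0 : E)) (r := 1))).ne
  have h2 := measureReal_union (μ := (volume : Measure E)) hdisj hopen.measurableSet
    (wedge_ne_top a b) hfin
  have h3 : wedge a b ∪ refl a ⁻¹' wedge a b ⊆ half b := by
    rintro y (hy | hy)
    · exact ⟨hy.1.2, hy.2⟩
    · exact ⟨(hmem y hy).2.1, (hmem y hy).2.2⟩
  have h4 := measureReal_mono (μ := (volume : Measure E)) h3 (half_ne_top b)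
  rw [h2, h1] at h4
  linarith

theorem null_hyperplane {a : E} (ha : a ≠ 0) : (volume : Measure E) {y | ⟪a, y⟫ = 0} = 0 := by
  have h1 : ((ℝ ∙ a)ᗮ : Submodule ℝ E) ≠ ⊤ := by
    intro h
    have h2 : a ∈ ((ℝ ∙ a)ᗮ : Submodule ℝ E) := by rw [h]; trivial
    rw [Submodule.mem_orthogonal_singleton_iff_inner_right, inner_self_eq_zero] at h2
    exact ha h2
  have h2 := Measure.addHaar_submodule (volume : Measure E) _ h1
  refine measure_mono_null (fun y hy => ?_) h2
  have hy' : ⟪a, y⟫ = 0 := hy
  rw [SetLike.mem_coe, Submodule.mem_orthogonal_singleton_iff_inner_right]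
  exact hy'

/-- A wedge of angle at least `60` degrees has at least one third of the volume of a half ball. -/
theorem wedge_ge {a b : E} (ha : ‖a‖ = 1) (hb : ‖b‖ = 1) (h : -(1 / 2) ≤ ⟪a, b⟫) :
    (volume : Measure E).real (half (a + b)) ≤ 3 * (volume : Measure E).real (wedge a b) := by
  have ha0 : a ≠ 0 := by intro h; rw [h, norm_zero] at ha; norm_num at ha
  have hb0 : b ≠ 0 := by intro h; rw [h, norm_zero] at hb; norm_num at hb
  have h1 : (volume : Measure E).real (refl a ⁻¹' wedge a b) =
      (volume : Measure E).real (wedge a b) := vol_preimage (refl a) (isOpen_wedge a b)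
  have h2 : (volume : Measure E).real (refl b ⁻¹' wedge a b) =
      (volume : Measure E).real (wedge a b) := vol_preimage (refl b) (isOpen_wedge a b)
  have hsub : half (a + b) ⊆ (((wedge a b ∪ refl a ⁻¹' wedge a b) ∪ refl b ⁻¹' wedge a b) ∪
      ({y | ⟪a, y⟫ = 0} ∩ Metric.ball 0 1)) ∪ ({y | ⟪b, y⟫ = 0} ∩ Metric.ball 0 1) := by
    intro y hy
    have hy1 : 0 < ⟪a + b, y⟫ := hy.1
    have hyb : y ∈ Metric.ball (0 : E) 1 := hy.2
    rw [inner_add_left] at hy1
    rcases lt_trichotomy ⟪a, y⟫ 0 with hp | hp | hp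
    · left; left; left; right
      have hp' : 0 < ⟪b, y⟫ := by linarith
      refine ⟨⟨?_, ?_⟩, ?_⟩
      · rw [refl_apply ha, inner_sub_right, real_inner_smul_right, real_inner_self_eq_norm_sq, ha]
        linarith
      · rw [refl_apply ha, inner_sub_right, real_inner_smul_right, real_inner_comm a b]
        nlinarith
      · rw [mem_ball_zero_iff, LinearIsometryEquiv.norm_map]
        exact mem_ball_zero_iff.1 hyb
    · left; right; exact ⟨hp, hyb⟩
    · rcases lt_trichotomy ⟪b, y⟫ 0 with hq | hq | hq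
      · left; left; right
        refine ⟨⟨?_, ?_⟩, ?_⟩
        · rw [refl_apply hb, inner_sub_right, real_inner_smul_right]
          nlinarith
        · rw [refl_apply hb, inner_sub_right, real_inner_smul_right, real_inner_self_eq_norm_sq, hb]
          linarith
        · rw [mem_ball_zero_iff, LinearIsometryEquiv.norm_map]
          exact mem_ball_zero_iff.1 hyb
      · right; exact ⟨hq, hyb⟩
      · left; left; left; left; exact ⟨⟨hp, hq⟩, hyb⟩
  have hball : (volume : Measure E) (Metric.ball (0 : E) 1) ≠ ⊤ := measure_ball_lt_top.ne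
  have hfin : (volume : Measure E) ((((wedge a b ∪ refl a ⁻¹' wedge a b) ∪
      refl b ⁻¹' wedge a b) ∪
      ({y | ⟪a, y⟫ = 0} ∩ Metric.ball 0 1)) ∪ ({y | ⟪b, y⟫ = 0} ∩ Metric.ball 0 1)) ≠ ⊤ := by
    refine ((measure_mono ?_).trans_lt hball.lt_top).ne
    rintro y ((((hy | hy) | hy) | hy) | hy)
    · exact hy.2
    · have := hy.2
      rw [mem_ball_zero_iff] at this ⊢
      rwa [LinearIsometryEquiv.norm_map] at this
    · have := hy.2
      rw [mem_ball_zero_iff] at this ⊢
      rwa [LinearIsometryEquiv.norm_map] at this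
    · exact hy.2
    · exact hy.2
  have h3 := measureReal_mono (μ := (volume : Measure E)) hsub hfin
  have h4 : (volume : Measure E).real ({y | ⟪a, y⟫ = 0} ∩ Metric.ball 0 1) = 0 := by
    rw [Measure.real, measure_mono_null Set.inter_subset_left (null_hyperplane ha0)]
    rfl
  have h5 : (volume : Measure E).real ({y | ⟪b, y⟫ = 0} ∩ Metric.ball 0 1) = 0 := by
    rw [Measure.real, measure_mono_null Set.inter_subset_left (null_hyperplane hb0)]
    rfl
  have h6 := measureReal_union_le (μ := (volume : Measure E)) (((wedge a b ∪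
      refl a ⁻¹' wedge a b) ∪ refl b ⁻¹' wedge a b) ∪
      ({y | ⟪a, y⟫ = 0} ∩ Metric.ball 0 1)) ({y | ⟪b, y⟫ = 0} ∩ Metric.ball 0 1)
  have h7 := measureReal_union_le (μ := (volume : Measure E)) ((wedge a b ∪
      refl a ⁻¹' wedge a b) ∪ refl b ⁻¹' wedge a b) ({y | ⟪a, y⟫ = 0} ∩ Metric.ball 0 1)
  have h8 := measureReal_union_le (μ := (volume : Measure E)) (wedge a b ∪
      refl a ⁻¹' wedge a b) (refl b ⁻¹' wedge a b)
  have h9 := measureReal_union_le (μ := (volume : Measure E)) (wedge a b) (refl a ⁻¹' wedge a b)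
  rw [h5] at h6
  rw [h4] at h7
  rw [h2] at h8
  rw [h1] at h9
  linarith

end Pool.Agent.Lib.MP_9fc4df_co
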