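import Pool.Agent.Lib.MP_9fc4df_co.Rat

/-!
The algebra of the exceptional case.
-/

open Finset

namespace Pool.Agent.Lib.MP_9fc4df_co

section conv

variable {d : ℕ} [NeZero d] (M : ZMod d → ℝ)

/-- Convolution. -/
def conv (v : ZMod d → ℝ) (l : ZMod d) : ℝ := ∑ i, M (l - i) * v i

variable {M}

theorem conv_neg (hM : ∀ i, M (-i) = M i) (v : ZMod d → ℝ) (l : ZMod d) :
    conv M (fun i => v (-i)) l = conv M v (-l) := by
  unfold conv
  rw [← Equiv.sum_comp (Equiv.neg (ZMod d))]
  refine sum_congr rfl fun i _ => ?_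
  simp only [Equiv.neg_apply, neg_neg, sub_neg_eq_add]
  rw [← hM (l + i), neg_add, ← sub_eq_add_neg]

theorem conv_add (v : ZMod d → ℝ) (a l : ZMod d) :
    conv M (fun i => v (a + i)) l = conv M v (l + a) := by
  unfold conv
  rw [← Equiv.sum_comp (Equiv.addLeft a) (fun i => M (l + a - i) * v i)]
  refine sum_congr rfl fun i _ => ?_
  simp only [Equiv.coe_addLeft]
  congr 2
  ring

theorem conv_sub (hM : ∀ i, M (-i) = M i) (v : ZMod d → ℝ) (a l : ZMod d) :
    conv M (fun i => v (a - i)) l = conv M v (a - l) := by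
  unfold conv
  rw [← Equiv.sum_comp (Equiv.subLeft a) (fun i => M (a - l - i) * v i)]
  refine sum_congr rfl fun i _ => ?_
  simp only [Equiv.subLeft_apply]
  rw [← hM (l - i)]
  congr 2
  ring

theorem conv_smul (c : ℝ) (v : ZMod d → ℝ) (l : ZMod d) :
    conv M (fun i => c * v i) l = c * conv M v l := by
  unfold conv
  rw [mul_sum]
  exact sum_congr rfl fun i _ => by ring

theorem conv_sub_fun (v w : ZMod d → ℝ) (l : ZMod d) :
    conv M (fun i => v i - w i) l = conv M v l - conv M w l := by
  unfold conv
  rw [← sum_sub_distrib]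
  exact sum_congr rfl fun i _ => by ring

theorem conv_add_fun (v w : ZMod d → ℝ) (l : ZMod d) :
    conv M (fun i => v i + w i) l = conv M v l + conv M w l := by
  unfold conv
  rw [← sum_add_distrib]
  exact sum_congr rfl fun i _ => by ring

theorem conv_delta (c : ℝ) (l : ZMod d) :
    conv M (fun i => if i = 0 then c else 0) l = c * M l := by
  unfold conv
  simp [mul_comm]

end conv

theorem two_mul_ne {d : ℕ} (hodd : Odd d) {x : ZMod d} (hx : x ≠ 0) : x + x ≠ 0 := by
  intro h
  obtain ⟨m, hm⟩ := hodd
  apply hx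
  have h1 : ((2 * m + 1 : ℕ) : ZMod d) * x = 0 := by
    rw [← hm, ZMod.natCast_self, zero_mul]
  push_cast at h1
  have h2 : (2 * (m : ZMod d) + 1) * x = (m : ZMod d) * (x + x) + x := by ring
  rw [h2, h, mul_zero, zero_add] at h1
  exact h1

/-- The algebraic core of the exceptional case. -/
theorem xone_alg {d k : ℕ} [NeZero d] (hd : 5 ≤ d) (hodd : Odd d) {lam : ℝ}
    (hirr : Irreducible (Polynomial.X ^ d - Polynomial.C (k : ℚ) : Polynomial ℚ))
    (hpos : 0 < lam) (hlam : lam ^ d = k)
    (M y z : ZMod d → ℝ) (hM0 : M 0 = 1) (hM : ∀ i, M (-i) = M i)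
    (hy : ∀ i, 0 < y i) (hyR : ∀ i, InR d lam (-i) (y i))
    (hconv : ∀ l, conv M y l = z l)
    (hinj : ∀ v : ZMod d → ℝ, (∀ l, conv M v l = 0) → ∀ i, v i = 0)
    {j0 : ZMod d} (hj0 : j0 ≠ 0) (hz : ∀ l, l ≠ 0 → l ≠ j0 → z l = 0)
    (hz0 : z 0 ≠ 0) (hzj : z j0 ≠ 0) (hunit : 2 * z 0 = y 0 * z 0 + y j0 * z j0) :
    1 ≤ z 0 ∧ ∀ l, l ≠ 0 → -(1 / 2) ≤ M l := by
  have hj2 : j0 + j0 ≠ 0 := two_mul_ne hodd hj0
  have hjneg : -j0 ≠ j0 := by
    intro h
    apply hj2
    nth_rewrite 1 [← h]
    simp
  have hjneg0 : -j0 ≠ 0 := neg_ne_zero.2 hj0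
  -- first identity
  have key1 : ∀ i, z 0 * (y i - y (-i)) = z j0 * (y (j0 - i) - y (j0 + i)) := by
    have h1 := hinj (fun i => z 0 * (y i - y (-i)) - z j0 * (y (j0 - i) - y (j0 + i))) (by
      intro l
      rw [conv_sub_fun, conv_smul, conv_smul, conv_sub_fun, conv_sub_fun, conv_neg hM,
        conv_sub hM, conv_add, hconv, hconv, hconv, hconv]
      by_cases h0 : l = 0
      · subst h0
        simp
      · by_cases h1 : l = j0
        · subst h1
          rw [hz (-l) hjneg0 hjneg, sub_self, hz (l + l) hj2 (by simpa using hj0)]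
          ring
        · by_cases h2 : l = -j0
          · subst h2
            rw [neg_neg, hz (-j0) hjneg0 hjneg, neg_add_cancel,
              hz (j0 - -j0) (by rwa [sub_neg_eq_add]) (by rw [sub_neg_eq_add]; simpa using hj0)]
            ring
          · rw [hz l h0 h1, hz (-l) (neg_ne_zero.2 h0) (fun h => h2 (by rw [← h, neg_neg])),
              hz (j0 - l) (fun h => h1 (sub_eq_zero.1 h).symm)
                (fun h => h0 (by simpa using h)),
              hz (l + j0) (fun h => h2 (eq_neg_of_add_eq_zero_left h))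
                (fun h => h0 (by simpa using h))]
            ring)
    intro i
    have := h1 i
    linarith
  -- cross multiplication
  have key2 : ∀ i i', i ≠ 0 → i' ≠ 0 → i ≠ i' → i ≠ -i' →
      y (j0 + i) * y i' = y (j0 + i') * y i := by
    intro i i' hi hi' hne hne'
    have e1 := key1 i
    have e2 := key1 i'
    have e3 : (y i - y (-i)) * (y (j0 - i') - y (j0 + i')) =
        (y i' - y (-i')) * (y (j0 - i) - y (j0 + i)) := by
      have : z 0 * ((y i - y (-i)) * (y (j0 - i') - y (j0 + i'))) =
          z 0 * ((y i' - y (-i')) * (y (j0 - i) - y (j0 + i))) := by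
        calc z 0 * ((y i - y (-i)) * (y (j0 - i') - y (j0 + i')))
            = (z 0 * (y i - y (-i))) * (y (j0 - i') - y (j0 + i')) := by ring
          _ = (z j0 * (y (j0 - i') - y (j0 + i'))) * (y (j0 - i) - y (j0 + i)) := by
              rw [e1]; ring
          _ = _ := by rw [← e2]; ring
      exact mul_left_cancel₀ hz0 this
    have hR : ∀ a b : ZMod d, InR d lam (-(a + b)) (y a * y b) := by
      intro a b
      rw [neg_add]
      exact (hyR a).mul hlam (hyR b)
    have t1 : InR d lam (-(j0 + (i - i'))) (y i * y (j0 - i') - y (-i') * y (j0 + i)) := by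
      refine InR.sub ?_ ?_
      · have := hR i (j0 - i')
        rwa [show i + (j0 - i') = j0 + (i - i') by ring] at this
      · have := hR (-i') (j0 + i)
        rwa [show -i' + (j0 + i) = j0 + (i - i') by ring] at this
    have t2 : InR d lam (-(j0 + (i + i'))) (y i' * y (j0 + i) - y i * y (j0 + i')) := by
      refine InR.sub ?_ ?_
      · have := hR i' (j0 + i)
        rwa [show i' + (j0 + i) = j0 + (i + i') by ring] at this
      · have := hR i (j0 + i')
        rwa [show i + (j0 + i') = j0 + (i + i') by ring] at this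
    have t3 : InR d lam (-(j0 + (-i - i'))) (y (-i') * y (j0 - i) - y (-i) * y (j0 - i')) := by
      refine InR.sub ?_ ?_
      · have := hR (-i') (j0 - i)
        rwa [show -i' + (j0 - i) = j0 + (-i - i') by ring] at this
      · have := hR (-i) (j0 - i')
        rwa [show -i + (j0 - i') = j0 + (-i - i') by ring] at this
    have t4 : InR d lam (-(j0 + (-i + i'))) (y (-i) * y (j0 + i') - y i' * y (j0 - i)) := by
      refine InR.sub ?_ ?_
      · have := hR (-i) (j0 + i')
        rwa [show -i + (j0 + i') = j0 + (-i + i') by ring] at this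
      · have := hR i' (j0 - i)
        rwa [show i' + (j0 - i) = j0 + (-i + i') by ring] at this
    have hsum : (y i * y (j0 - i') - y (-i') * y (j0 + i)) +
        (y i' * y (j0 + i) - y i * y (j0 + i')) +
        (y (-i') * y (j0 - i) - y (-i) * y (j0 - i')) +
        (y (-i) * y (j0 + i') - y i' * y (j0 - i)) = 0 := by
      linear_combination e3
    have n2i := two_mul_ne hodd hi
    have n2i' := two_mul_ne hodd hi'
    have nd := two_mul_ne hodd (sub_ne_zero.2 hne)
    have ns := two_mul_ne hodd (fun h => hne' (eq_neg_of_add_eq_zero_left h) : i + i' ≠ 0)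
    have hres := InR.indep4 hirr hpos hlam
      (a := -(j0 + (i - i'))) (b := -(j0 + (i + i'))) (c := -(j0 + (-i - i')))
      (e := -(j0 + (-i + i')))
      (fun h => n2i' (by linear_combination h))
      (fun h => n2i (by linear_combination -h))
      (fun h => nd (by linear_combination -h))
      (fun h => ns (by linear_combination -h))
      (fun h => n2i (by linear_combination -h))
      (fun h => n2i' (by linear_combination h)) t1 t2 t3 t4 hsum
    have := hres.2.1
    linarith
  -- the common ratio
  have hfact : Fact (1 < d) := ⟨by omega⟩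
  have hone : (1 : ZMod d) ≠ 0 := one_ne_zero
  have hntwo : (2 : ZMod d) ≠ 0 := by
    have := two_mul_ne hodd hone
    rwa [one_add_one_eq_two] at this
  have hne12 : (1 : ZMod d) ≠ 2 := by
    intro h
    apply hone
    linear_combination -h
  have hne3 : (3 : ZMod d) ≠ 0 := by
    intro h
    have : ((3 : ℕ) : ZMod d) = 0 := by exact_mod_cast h
    rw [ZMod.natCast_eq_zero_iff] at this
    exact absurd (Nat.le_of_dvd (by norm_num) this) (by omega)
  have hne12' : (1 : ZMod d) ≠ -2 := by
    intro h
    apply hne3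
    linear_combination h
  set η : ℝ := y (j0 + 1) / y 1 with hη
  have hηpos : 0 < η := div_pos (hy _) (hy _)
  have key3 : ∀ i, i ≠ 0 → y (j0 + i) = η * y i := by
    have hbase : ∀ i, i ≠ 0 → i ≠ 1 → i ≠ -1 → y (j0 + i) = η * y i := by
      intro i hi h1 h1'
      have := key2 i 1 hi hone h1 h1'
      rw [hη, div_mul_eq_mul_div, eq_div_iff (hy 1).ne']
      exact this
    have hh2 : y (j0 + 2) = η * y 2 := by
      refine hbase 2 hntwo hne12.symm ?_
      intro h
      apply hne3
      linear_combination h
    intro i hi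
    by_cases h1 : i = 1
    · rw [h1, hη, div_mul_cancel₀ _ (hy 1).ne']
    by_cases h1' : i = -1
    · -- compare with `2`
      have h3 : i ≠ 2 := by
        intro h
        apply hne3
        rw [h] at h1'
        linear_combination h1'
      have h4 : i ≠ -2 := by
        intro h
        apply hone
        rw [h] at h1'
        linear_combination -h1'
      have := key2 i 2 hi hntwo h3 h4
      rw [hh2] at this
      have h5 : y (j0 + i) * y 2 = (η * y i) * y 2 := by rw [this]; ring
      exact mul_right_cancel₀ (hy 2).ne' h5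
    · exact hbase i hi h1 h1'
  set c : ℝ := y j0 - η * y 0 with hc
  have key4 : ∀ l, c * M l = z (l + j0) - η * z l := by
    intro l
    have h1 : conv M (fun i => y (j0 + i)) l = z (l + j0) := by rw [conv_add, hconv]
    have h2 : (fun i => y (j0 + i)) = fun i => η * y i + (if i = 0 then c else 0) := by
      funext i
      by_cases hi : i = 0
      · rw [hi, if_pos rfl, add_zero, hc]; ring
      · rw [if_neg hi, add_zero, key3 i hi]
    rw [h2, conv_add_fun, conv_smul, conv_delta, hconv] at h1
    linarith
  have k0 := key4 0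
  have k1 := key4 j0
  have k2 := key4 (-j0)
  rw [zero_add, hM0, mul_one] at k0
  rw [hz (j0 + j0) hj2 (by simpa using hj0)] at k1
  rw [neg_add_cancel, hz (-j0) hjneg0 hjneg, mul_zero, sub_zero, hM] at k2
  -- `z 0 = - η z j0`
  have e1 : z 0 = -η * z j0 := by linarith
  have e2 : z j0 = -(z 0) / η := by
    rw [e1]; field_simp
  have hc1 : c = -(z 0) * (1 + η ^ 2) / η := by
    rw [k0, e2]; field_simp; ring
  have hcne : c ≠ 0 := by
    rw [hc1]
    have : (0 : ℝ) < 1 + η ^ 2 := by positivity
    exact div_ne_zero (mul_ne_zero (neg_ne_zero.2 hz0) this.ne') hηpos.ne'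
  have e3 : y 0 = 2 + y j0 / η := by
    have h1 : 2 * z 0 = y 0 * z 0 + y j0 * (-(z 0) / η) := by rw [← e2]; exact hunit
    have h2 : z 0 * (y 0 - 2 - y j0 / η) = 0 := by
      have : z 0 * (y 0 - 2 - y j0 / η) = (y 0 * z 0 + y j0 * (-(z 0) / η)) - 2 * z 0 := by
        field_simp
        ring
      rw [this, ← h1]; ring
    rcases mul_eq_zero.1 h2 with h | h
    · exact absurd h hz0
    · linarith
  have e4 : z 0 = 2 * η ^ 2 / (1 + η ^ 2) := by
    have h1 : c = -2 * η := by rw [hc, e3]; field_simp; ring
    rw [h1] at hc1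
    have : (0 : ℝ) < 1 + η ^ 2 := by positivity
    field_simp at hc1 ⊢
    linarith
  -- product trick
  have e5 : y 0 = η ^ (d - 1) * y j0 := by
    have h1 : ∏ i ∈ univ.erase (0 : ZMod d), y (j0 + i) = η ^ (d - 1) *
        ∏ i ∈ univ.erase (0 : ZMod d), y i := by
      have : ∏ i ∈ univ.erase (0 : ZMod d), y (j0 + i) =
          ∏ i ∈ univ.erase (0 : ZMod d), (η * y i) :=
        prod_congr rfl fun i hi => key3 i (mem_erase.1 hi).1
      rw [this, prod_mul_distrib, prod_const, card_erase_of_mem (mem_univ _), card_univ,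
        ZMod.card]
    have h2 : y j0 * ∏ i ∈ univ.erase (0 : ZMod d), y (j0 + i) = ∏ i, y i := by
      have h3 := mul_prod_erase univ (fun i => y (j0 + i)) (mem_univ (0 : ZMod d))
      simp only [add_zero] at h3
      rw [h3]
      exact Equiv.prod_comp (Equiv.addLeft j0) y
    have h4 := mul_prod_erase univ y (mem_univ (0 : ZMod d))
    have hP : 0 < ∏ i ∈ univ.erase (0 : ZMod d), y i := prod_pos fun i _ => hy i
    rw [← h4, h1] at h2
    have h5 : y 0 * ∏ i ∈ univ.erase (0 : ZMod d), y i =
        (η ^ (d - 1) * y j0) * ∏ i ∈ univ.erase (0 : ZMod d), y i := by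
      rw [← h2]; ring
    exact mul_right_cancel₀ hP.ne' h5
  have hη1 : 1 < η := by
    have h1 : y j0 / η < η ^ (d - 1) * y j0 := by rw [← e5, e3]; linarith
    have h2 : 1 < η ^ d := by
      rw [div_lt_iff₀ hηpos] at h1
      have h3 : η ^ (d - 1) * y j0 * η = η ^ d * y j0 := by
        have : η ^ d = η ^ (d - 1) * η := by
          rw [← pow_succ]; congr 1; omega
        rw [this]; ring
      rw [h3] at h1
      have h4 := hy j0
      by_contra hcon
      push Not at hcon
      have := mul_le_mul_of_nonneg_right hcon h4.le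
      linarith
    exact (one_lt_pow_iff_of_nonneg hηpos.le (NeZero.ne d)).1 h2
  constructor
  · rw [e4, le_div_iff₀ (by positivity)]
    nlinarith
  · intro l hl
    by_cases h1 : l = j0
    · rw [h1]
      have h2 : M j0 = -η / (1 + η ^ 2) := by
        have h3 : c * M j0 = z 0 := k2
        have h4 : c = -2 * η := by rw [hc, e3]; field_simp; ring
        rw [h4, e4] at h3
        have : (0 : ℝ) < 1 + η ^ 2 := by positivity
        field_simp at h3 ⊢
        nlinarith
      rw [h2, le_div_iff₀ (by positivity)]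
      nlinarith [sq_nonneg (η - 1)]
    · by_cases h2 : l = -j0
      · rw [h2, hM]
        have h2 : M j0 = -η / (1 + η ^ 2) := by
          have h3 : c * M j0 = z 0 := k2
          have h4 : c = -2 * η := by rw [hc, e3]; field_simp; ring
          rw [h4, e4] at h3
          have : (0 : ℝ) < 1 + η ^ 2 := by positivity
          field_simp at h3 ⊢
          nlinarith
        rw [h2, le_div_iff₀ (by positivity)]
        nlinarith [sq_nonneg (η - 1)]
      · have h3 := key4 l
        rw [hz l hl h1, hz (l + j0) (fun h => h2 (eq_neg_of_add_eq_zero_left h))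
          (fun h => hl (by simpa using h)), mul_zero, sub_zero] at h3
        rcases mul_eq_zero.1 h3 with h | h
        · exact absurd h hcne
        · rw [h]; norm_num

end Pool.Agent.Lib.MP_9fc4df_co
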