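import Pool.Agent.Lib.MP_9fc4df_co.Cone
import Pool.Agent.Lib.MP_9fc4df_co.Wedge
import Pool.Agent.Lib.MP_9fc4df_co.XOne

/-!
The exceptional cases when `star` is in the closed part.
-/

open MeasureTheory Filter Topology Finset Module
open scoped RealInnerProductSpace Pointwise

set_option linter.unusedSectionVars false

open Pool.Agent.Lib.MP_9fc4df_co.Rep

namespace Pool.Agent.Lib.MP_9fc4df_co

namespace CRep

variable {d : ℕ} [NeZero d] {ι κ E : Type*} [Fintype ι] [Fintype κ] [NormedAddCommGroup E]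
    [InnerProductSpace ℝ E] [FiniteDimensional ℝ E] [MeasurableSpace E] [BorelSpace E]

theorem sum_split (R : CRep d ι κ E) {F : Type*} [AddCommMonoid F] (f : ι → F) :
    ∑ x, f x = f R.L.star + ∑ s, f (R.L.C s) := by
  classical
  have h1 : (univ : Finset ι).erase R.L.star = R.CS univ := by
    ext x
    rw [mem_erase, mem_CS]
    constructor
    · rintro ⟨h, -⟩
      exact ⟨_, mem_univ _, (R.L.eq_C_of_ne_star h).symm⟩
    · rintro ⟨s, -, rfl⟩
      exact ⟨R.L.star_ne s, mem_univ _⟩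
  rw [← add_sum_erase univ f (mem_univ R.L.star), h1, CS, sum_map]
  rfl

theorem nu_indep' (R : CRep d ι κ E) (v : ZMod d → ℝ)
    (h : ∀ l, ∑ i, v i * mm R.T.b (R.L.C i) (R.L.C l) = 0) : ∀ i, v i = 0 := by
  classical
  have := R.nontrivial
  have h1 : ∑ i, v i • nu R.T.b (R.L.C i) = 0 := by
    refine R.ext_nu fun j => ?_
    rw [inner_sum, inner_zero_right, ← h j]
    refine sum_congr rfl fun i _ => ?_
    rw [real_inner_smul_right, mm, real_inner_comm]
  have h2 := nu_indep R.T.b (I := R.CS univ) CS_ne_univ (fun x => v (R.L.cl x)) (by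
    rw [CS, sum_map, ← h1]
    refine sum_congr rfl fun i _ => ?_
    simp only [Function.Embedding.coeFn_mk, R.L.cl_C])
  intro i
  have := h2 (R.L.C i) (C_mem_CS.2 (mem_univ i))
  rwa [R.L.cl_C] at this

theorem mm_lt_one (R : CRep d ι κ E) : mm R.T.b R.L.star (R.L.C 0) ≠ 1 := by
  classical
  have := R.nontrivial
  intro h
  have h1 : nu R.T.b R.L.star = nu R.T.b (R.L.C 0) :=
    (inner_eq_one_iff_of_norm_eq_one (norm_nu _ _) (norm_nu _ _)).1 h
  have h2 := nu_eq_lin R.T.b R.L.star (R.w 0)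
  have h3 := nu_eq_lin R.T.b (R.L.C 0) (R.w 0)
  rw [h1, h3] at h2
  have h4 : R.L.star ≠ R.L.C 0 := (R.L.star_ne 0).symm
  rw [w, lin_diff, lin_diff, if_pos rfl, if_neg h4, if_neg h4.symm, if_pos rfl] at h2
  have h5 := inv_pos.2 (fn_pos R.T.b (R.L.C 0))
  have h6 := inv_pos.2 (fn_pos R.T.b R.L.star)
  linarith

/-- The symmetric case is impossible. -/
theorem not_symm (R : CRep d ι κ E)
    (h : ∀ j, j ≠ 0 → mm R.T.b R.L.star (R.L.C j) = mm R.T.b (R.L.C 0) (R.L.C j)) : False := by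
  classical
  have := R.nontrivial
  have hdd := R.hd
  have hfact : Fact (1 < d) := ⟨by omega⟩
  have hs0 : R.L.star ≠ R.L.C 0 := (R.L.star_ne 0).symm
  have hone : (1 : ZMod d) ≠ 0 := one_ne_zero
  have hf : fn R.T.b (R.L.C 0) = fn R.T.b R.L.star := by
    have hσ : ∀ i j, mm R.T.b (Equiv.swap R.L.star (R.L.C 0) i)
        (Equiv.swap R.L.star (R.L.C 0) j) = mm R.T.b i j := by
      have hC : ∀ s : ZMod d, s ≠ 0 → Equiv.swap R.L.star (R.L.C 0) (R.L.C s) = R.L.C s :=
        fun s hs => Equiv.swap_apply_of_ne_of_ne (R.L.star_ne s) (fun hh => hs (R.L.C_inj hh))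
      have cases3 : ∀ i, i = R.L.star ∨ i = R.L.C 0 ∨ ∃ s, s ≠ 0 ∧ i = R.L.C s := by
        intro i
        rcases R.L.exh i with h1 | ⟨s, hs⟩
        · exact Or.inl h1
        · by_cases h0 : s = 0
          · exact Or.inr (Or.inl (by rw [hs, h0]))
          · exact Or.inr (Or.inr ⟨s, h0, hs⟩)
      intro i j
      rcases cases3 i with hi | hi | ⟨s, hs, hi⟩ <;> rcases cases3 j with hj | hj | ⟨s', hs', hj⟩
      · rw [hi, hj, Equiv.swap_apply_left, mm_self, mm_self]
      · rw [hi, hj, Equiv.swap_apply_left, Equiv.swap_apply_right, mm_comm]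
      · rw [hi, hj, Equiv.swap_apply_left, hC s' hs', h s' hs']
      · rw [hi, hj, Equiv.swap_apply_left, Equiv.swap_apply_right, mm_comm]
      · rw [hi, hj, Equiv.swap_apply_right, mm_self, mm_self]
      · rw [hi, hj, Equiv.swap_apply_right, hC s' hs', h s' hs']
      · rw [hi, hj, Equiv.swap_apply_left, hC s hs, mm_comm, ← h s hs, mm_comm]
      · rw [hi, hj, Equiv.swap_apply_right, hC s hs, mm_comm, h s hs, mm_comm]
      · rw [hi, hj, hC s hs, hC s' hs']
    have h1 := fn_symm R.T.b (Equiv.swap R.L.star (R.L.C 0)) hσ (R.L.C 1)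
      (Equiv.swap_apply_of_ne_of_ne (R.L.star_ne 1) (fun hh => hone (R.L.C_inj hh))) R.L.star
    rwa [Equiv.swap_apply_left] at h1
  -- the normal difference is parallel to `w 0`
  set z0 : ℝ := 1 - mm R.T.b R.L.star (R.L.C 0) with hz0
  have hz0ne : z0 ≠ 0 := by
    intro h0
    exact R.mm_lt_one (by linarith)
  have hpar : nu R.T.b (R.L.C 0) - nu R.T.b R.L.star = (z0 * fn R.T.b (R.L.C 0)) • R.w 0 := by
    refine R.ext_nu fun j => ?_
    rw [inner_sub_right, real_inner_smul_right]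
    have h1 : ⟪nu R.T.b (R.L.C j), R.w 0⟫ = if j = 0 then (fn R.T.b (R.L.C 0))⁻¹ else 0 := by
      rw [w_eq, real_inner_smul_right, nu_uu]
      split_ifs <;> simp
    rw [h1]
    by_cases hj : j = 0
    · rw [hj, if_pos rfl]
      have h2 := (fn_pos R.T.b (R.L.C 0)).ne'
      have h3 := mm_self R.T.b (R.L.C 0)
      rw [mm] at h3
      have h4 : ⟪nu R.T.b (R.L.C 0), nu R.T.b R.L.star⟫ = mm R.T.b R.L.star (R.L.C 0) := by
        rw [mm_comm, mm]
      rw [h3, h4, hz0]
      field_simp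
    · rw [if_neg hj, mul_zero]
      have h2 := h j hj
      rw [mm_comm R.T.b R.L.star, mm_comm R.T.b (R.L.C 0), mm, mm] at h2
      linarith
  have key : ∀ j, j ≠ 0 → 2 * ⟪R.w j, R.w 0⟫ = ⟪R.w 0, R.w 0⟫ := by
    intro j hj
    have h1 : ⟪(2 : ℝ) • R.w j - R.w 0, nu R.T.b (R.L.C 0) - nu R.T.b R.L.star⟫ = 0 := by
      rw [inner_sub_right, real_inner_comm, nu_eq_lin, real_inner_comm, nu_eq_lin]
      simp only [map_sub, map_smul, smul_eq_mul, w]
      simp only [← map_sub, lin_diff]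
      have hj0 : R.L.C 0 ≠ R.L.C j := fun hh => hj (R.L.C_inj hh).symm
      rw [if_neg hj0, if_neg hs0.symm, if_neg (R.L.star_ne j).symm, if_neg hs0]
      simp only [if_true]
      rw [hf]
      ring
    rw [hpar, real_inner_smul_right, inner_sub_left, real_inner_smul_left] at h1
    have h2 : z0 * fn R.T.b (R.L.C 0) ≠ 0 := mul_ne_zero hz0ne (fn_pos _ _).ne'
    rcases mul_eq_zero.1 h1 with h3 | h3
    · exact absurd h3 h2
    · linarith
  have h1 := key 1 hone
  have h2 := key (-1) (neg_ne_zero.2 hone)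
  have hinner : ⟪R.uu 1, R.uu 0⟫ = ⟪R.uu (-1), R.uu 0⟫ := by
    have := R.inner_uu (-1) 0 1
    rw [neg_add_cancel, zero_add, real_inner_comm] at this
    exact this
  have hf0 := fn_pos R.T.b (R.L.C 0)
  have hf1 := fn_pos R.T.b (R.L.C 1)
  have hf1' := fn_pos R.T.b (R.L.C (-1))
  have h3 : ⟪R.w 1, R.w 0⟫ = ⟪R.w (-1), R.w 0⟫ := by linarith
  rw [R.w_eq 1, R.w_eq (-1), R.w_eq 0] at h3
  simp only [real_inner_smul_left, real_inner_smul_right] at h3
  rw [hinner] at h3
  have hpos : ⟪R.uu (-1), R.uu 0⟫ ≠ 0 := by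
    intro h0
    have h5 : ⟪R.w (-1), R.w 0⟫ = 0 := by
      rw [R.w_eq (-1), R.w_eq 0]
      simp only [real_inner_smul_left, real_inner_smul_right, h0, mul_zero]
    rw [h5, mul_zero, real_inner_self_eq_norm_sq, R.norm_w] at h2
    have h4 := R.norm_uu_pos
    have h6 : 0 < (‖R.uu 0‖ / fn R.T.b (R.L.C 0)) ^ 2 := by positivity
    linarith
  have h4 : fn R.T.b (R.L.C 1) = fn R.T.b (R.L.C (-1)) := by
    field_simp at h3
    exact h3.symm
  refine R.fn_ne ?_ h4
  intro h5
  have := two_mul_ne R.odd hone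
  apply this
  nth_rewrite 2 [h5]
  exact add_neg_cancel 1

/-- The exceptional case is impossible. -/
theorem no_xone (R : CRep d ι κ E) (hA : R.L.star ∈ R.L.A) {j0 : ZMod d} (hj0 : j0 ≠ 0)
    (h : ∀ l, l ≠ 0 → l ≠ j0 → mm R.T.b R.L.star (R.L.C l) = mm R.T.b (R.L.C 0) (R.L.C l)) :
    False := by
  classical
  have := R.nontrivial
  have hdd := R.hd
  have hfact : Fact (1 < d) := ⟨by omega⟩
  by_cases hzj0 : mm R.T.b R.L.star (R.L.C j0) = mm R.T.b (R.L.C 0) (R.L.C j0)
  · refine R.not_symm fun j hj => ?_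
    by_cases hjj : j = j0
    · rw [hjj]; exact hzj0
    · exact h j hj hjj
  let M : ZMod d → ℝ := fun i => mm R.T.b (R.L.C 0) (R.L.C i)
  let y : ZMod d → ℝ := fun i => fn R.T.b (R.L.C i) / fn R.T.b R.L.star + if i = 0 then 1 else 0
  let z : ZMod d → ℝ := fun l => M l - mm R.T.b R.L.star (R.L.C l)
  have hfs := fn_pos R.T.b R.L.star
  have hM0 : M 0 = 1 := mm_self _ _
  have hmm : ∀ i l, mm R.T.b (R.L.C i) (R.L.C l) = M (l - i) := by
    intro i l
    have h1 := R.mm_shift' 0 (l - i) i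
    rw [zero_add, sub_add_cancel] at h1
    exact h1
  have hM : ∀ i, M (-i) = M i := by
    intro i
    have h1 := hmm i 0
    rw [zero_sub] at h1
    rw [← h1, mm_comm]
  have hypos : ∀ i, 0 < y i := by
    intro i
    have h1 := div_pos (fn_pos R.T.b (R.L.C i)) hfs
    simp only [y]
    split_ifs <;> linarith
  have hyR : ∀ i, InR d R.lam (-i) (y i) := by
    intro i
    have h1 := (R.ratio' i).div R.lam_pos R.lam_pow (R.ratio_star hA)
    rw [sub_zero] at h1
    have hf0 := (fn_pos R.T.b (R.L.C 0)).ne'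
    have h2 : fn R.T.b (R.L.C i) / fn R.T.b (R.L.C 0) /
        (fn R.T.b R.L.star / fn R.T.b (R.L.C 0)) = fn R.T.b (R.L.C i) / fn R.T.b R.L.star := by
      field_simp
    rw [h2] at h1
    simp only [y]
    by_cases hi : i = 0
    · rw [if_pos hi]
      refine h1.add ?_
      rw [hi, neg_zero]
      exact InR.one
    · rw [if_neg hi, add_zero]
      exact h1
  -- the relation
  have hrel : ∀ x : E, fn R.T.b R.L.star * ⟪nu R.T.b R.L.star, x⟫ +
      ∑ i, fn R.T.b (R.L.C i) * ⟪nu R.T.b (R.L.C i), x⟫ = 0 := by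
    intro x
    have h1 : ⟪∑ i, fn R.T.b i • nu R.T.b i, x⟫ = 0 := by rw [sum_fn_nu, inner_zero_left]
    rw [sum_inner, R.sum_split] at h1
    simpa only [real_inner_smul_left] using h1
  have hconv : ∀ l, conv M y l = z l := by
    intro l
    have h1 := hrel (nu R.T.b (R.L.C l))
    have h2 : conv M y l = (∑ i, fn R.T.b (R.L.C i) * mm R.T.b (R.L.C i) (R.L.C l)) /
        fn R.T.b R.L.star + M l := by
      unfold conv
      rw [sum_div]
      have h3 : ∀ i, M (l - i) * y i = fn R.T.b (R.L.C i) * mm R.T.b (R.L.C i) (R.L.C l) /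
          fn R.T.b R.L.star + (if i = 0 then M l else 0) := by
        intro i
        rw [hmm i l]
        simp only [y]
        split_ifs with hi
        · rw [hi, sub_zero]; ring
        · ring
      simp only [h3, sum_add_distrib, sum_ite_eq', mem_univ, if_true]
    rw [h2]
    simp only [z]
    have h4 : (∑ i, fn R.T.b (R.L.C i) * mm R.T.b (R.L.C i) (R.L.C l)) =
        -(fn R.T.b R.L.star * mm R.T.b R.L.star (R.L.C l)) := by
      simp only [mm]
      linarith
    rw [h4]
    field_simp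
    ring
  have hinj : ∀ v : ZMod d → ℝ, (∀ l, conv M v l = 0) → ∀ i, v i = 0 := by
    intro v hv
    refine R.nu_indep' v fun l => ?_
    rw [← hv l]
    unfold conv
    refine sum_congr rfl fun i _ => ?_
    rw [hmm i l]; ring
  have hz : ∀ l, l ≠ 0 → l ≠ j0 → z l = 0 := by
    intro l h1 h2
    simp only [z, M, h l h1 h2, sub_self]
  have hz0 : z 0 ≠ 0 := by
    simp only [z, hM0]
    intro h0
    exact R.mm_lt_one (by linarith)
  have hzj : z j0 ≠ 0 := by
    simp only [z, M]
    intro h0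
    exact hzj0 (by linarith)
  have hunit : 2 * z 0 = y 0 * z 0 + y j0 * z j0 := by
    have h1 := hrel (nu R.T.b R.L.star)
    rw [real_inner_self_eq_norm_sq, norm_nu, one_pow, mul_one] at h1
    have h2 : ∑ i, (fn R.T.b (R.L.C i) / fn R.T.b R.L.star) * (M i - z i) = -1 := by
      have h3 : ∀ i, (fn R.T.b (R.L.C i) / fn R.T.b R.L.star) * (M i - z i) =
          (fn R.T.b (R.L.C i) * ⟪nu R.T.b (R.L.C i), nu R.T.b R.L.star⟫) /
            fn R.T.b R.L.star := by
        intro i
        simp only [z, sub_sub_cancel]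
        rw [mm, real_inner_comm]
        ring
      simp only [h3]
      rw [← sum_div]
      have h4 : ∑ i, fn R.T.b (R.L.C i) * ⟪nu R.T.b (R.L.C i), nu R.T.b R.L.star⟫ =
          -(fn R.T.b R.L.star) := by linarith
      rw [h4]
      field_simp
    have h3 : ∀ i, (fn R.T.b (R.L.C i) / fn R.T.b R.L.star) * (M i - z i) =
        M i * y i - y i * z i - (if i = 0 then M i - z i else 0) := by
      intro i
      simp only [y]
      split_ifs <;> ring
    simp only [h3, sum_sub_distrib, sum_ite_eq', mem_univ, if_true] at h2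
    have h4 : ∑ i, M i * y i = z 0 := by
      rw [← hconv 0]
      unfold conv
      refine sum_congr rfl fun i _ => ?_
      rw [zero_sub, hM]
    have h5 : ∑ i, y i * z i = y 0 * z 0 + y j0 * z j0 := by
      rw [← sum_subset (subset_univ {0, j0})]
      · rw [sum_pair (Ne.symm hj0)]
      · intro i _ hi
        simp only [mem_insert, mem_singleton, not_or] at hi
        rw [hz i hi.1 hi.2, mul_zero]
    rw [h4, h5, hM0] at h2
    linarith
  obtain ⟨r1, r2⟩ := xone_alg hdd R.odd R.irr R.lam_pos R.lam_pow M y z hM0 hM hypos hyR hconv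
    hinj hj0 hz hz0 hzj hunit
  -- volumes
  have hcone : ∀ i j, coneSet R.T.b {i, j} ∩ Metric.ball 0 1 =
      wedge (nu R.T.b i) (nu R.T.b j) := by
    intro i j
    ext x
    simp only [coneSet, wedge, Set.mem_inter_iff, Set.mem_ofPred_eq, mem_insert, mem_singleton,
      forall_eq_or_imp, forall_eq]
    rw [lin_eq_nu, lin_eq_nu, mul_pos_iff_of_pos_left (fn_pos _ _),
      mul_pos_iff_of_pos_left (fn_pos _ _)]
  -- `D {star, C 0}` is small
  have hnu0 : ∀ i, nu R.T.b i ≠ 0 := by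
    intro i h0
    have := norm_nu R.T.b i
    rw [h0, norm_zero] at this
    norm_num at this
  have hD1 : 2 * D R.T.b {R.L.star, R.L.C 0} ≤
      (volume : Measure E).real (half (nu R.T.b (R.L.C 0))) := by
    rw [D, hcone]
    refine wedge_le (norm_nu _ _) ?_
    have : z 0 = 1 - mm R.T.b R.L.star (R.L.C 0) := by simp only [z, hM0]
    rw [this] at r1
    change mm R.T.b R.L.star (R.L.C 0) ≤ 0
    linarith
  -- the minimum is large
  obtain ⟨J, hJc, hJmin⟩ := R.exists_min_CS (c := 2) le_rfl (by omega)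
  obtain ⟨u, u', huu, hJ⟩ := card_eq_two.1 hJc
  have hJ' : R.CS J = {R.L.C u, R.L.C u'} := by
    ext x
    rw [mem_CS, hJ]
    simp only [mem_insert, mem_singleton]
    constructor
    · rintro ⟨s, rfl | rfl, rfl⟩
      · exact Or.inl rfl
      · exact Or.inr rfl
    · rintro (rfl | rfl)
      · exact ⟨u, Or.inl rfl, rfl⟩
      · exact ⟨u', Or.inr rfl, rfl⟩
  have hD2 : (volume : Measure E).real (half (nu R.T.b (R.L.C 0))) ≤ 3 * D R.T.b (R.CS J) := by
    rw [hJ', D, hcone]
    have hmmu : -(1 / 2) ≤ mm R.T.b (R.L.C u) (R.L.C u') := by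
      rw [hmm]
      exact r2 _ (sub_ne_zero.2 huu.symm)
    have hne : nu R.T.b (R.L.C u) + nu R.T.b (R.L.C u') ≠ 0 := by
      intro h0
      have h1 : nu R.T.b (R.L.C u) = -nu R.T.b (R.L.C u') := eq_neg_of_add_eq_zero_left h0
      rw [mm, h1, inner_neg_left, real_inner_self_eq_norm_sq, norm_nu] at hmmu
      norm_num at hmmu
    rw [half_eq (hnu0 (R.L.C 0)) hne]
    exact wedge_ge (norm_nu _ _) (norm_nu _ _) hmmu
  -- the ridge `{star, C 0}` is covered by at least two tiles
  have hcard2 : ({R.L.star, R.L.C 0} : Finset ι).card = 2 := card_pair (R.L.star_ne 0).symm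
  have hne : ({R.L.star, R.L.C 0} : Finset ι) ≠ univ := R.ne_univ (by rw [hcard2]; omega)
  obtain ⟨x, hx, hcard⟩ := R.T.generic_card hne (face_nonempty _ hne) (openIn_face _ _)
    (subset_refl _)
  have hZ := Face.Z_eq hx
  obtain ⟨t, ht⟩ := R.T.cover x (Face.InS hx)
  have htwo : ∃ t', t' ≠ t ∧ InS (R.T.B t') x := by
    by_contra hcon
    push Not at hcon
    have honly : R.T.Only t x := ⟨ht, fun t' ht' => by
      by_contra hne'
      exact hcon t' hne' ht'⟩
    obtain ⟨π, hπ⟩ := honly.exists_match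
    rw [hZ] at hπ
    have hs : R.L.star ∈ ({R.L.star, R.L.C 0} : Finset ι) := mem_insert_self _ _
    have h0 : R.L.C 0 ∈ ({R.L.star, R.L.C 0} : Finset ι) :=
      mem_insert_of_mem (mem_singleton_self _)
    obtain ⟨-, h2⟩ := facet_step (hπ.facet _ hs) hA
    obtain ⟨-, h4⟩ := facet_step (hπ.facet _ h0) (R.L.C_mem 0)
    rw [R.L.cl_star, zero_add] at h2
    rw [R.L.cl_C, zero_add] at h4
    have h5 := R.L.eq_C_of_cl_ne_zero (x := π R.L.star) (by rw [h2]; exact one_ne_zero)
    have h6 := R.L.eq_C_of_cl_ne_zero (x := π (R.L.C 0)) (by rw [h4]; exact one_ne_zero)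
    rw [h2] at h5
    rw [h4] at h6
    exact R.L.star_ne 0 (hπ.inj hs h0 (h5.trans h6.symm)).symm
  obtain ⟨t', hne', ht'⟩ := htwo
  have h1 := R.T.D_add_le hne' ht' ht
  rw [hZ] at h1
  have h2 := hJmin _ ((hcard t ht).trans (by rw [hcard2, card_CS, hJc]))
  have h3 := hJmin _ ((hcard t' ht').trans (by rw [hcard2, card_CS, hJc]))
  have h4 := half_pos (hnu0 (R.L.C 0))
  linarith

end CRep

end Pool.Agent.Lib.MP_9fc4df_co
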