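import Pool.Agent.Lib.MP_9fc4df_co.FacetRel
import Pool.Agent.Lib.MP_9fc4df_co.Cyc
import Pool.Agent.Lib.MP_9fc4df_co.Rat

/-!
Structure of a reptile simplex with `k` tiles when `X ^ d - k` is irreducible.
-/

open MeasureTheory Filter Topology Finset Module
open scoped RealInnerProductSpace Pointwise

set_option linter.unusedSectionVars false

namespace Pool.Agent.Lib.MP_9fc4df_co

namespace Lab

variable {d : ℕ} {ι : Type*} {Bm : ι → ι → ℕ}

theorem eq_C_of_cl_ne_zero (L : Lab d ι Bm) {x : ι} (h : L.cl x ≠ 0) : x = L.C (L.cl x) := by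
  rcases L.exh x with h1 | ⟨s, hs⟩
  · rw [h1, L.cl_star] at h
    exact absurd rfl h
  · rw [hs, L.cl_C]

theorem eq_C_of_ne_star (L : Lab d ι Bm) {x : ι} (h : x ≠ L.star) : x = L.C (L.cl x) := by
  rcases L.exh x with h1 | ⟨s, hs⟩
  · exact absurd h1 h
  · rw [hs, L.cl_C]

/-- Exchange the labels of `star` and `C 0`. -/
noncomputable def swap [DecidableEq ι] (L : Lab d ι Bm) (hA : L.star ∈ L.A) : Lab d ι Bm where
  C := Function.update L.C 0 L.star
  star := L.C 0
  A := L.A
  cl := L.cl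
  C_inj := by
    intro s s' h
    by_cases hs : s = 0
    · by_cases hs' : s' = 0
      · rw [hs, hs']
      · rw [hs, Function.update_self, Function.update_of_ne hs'] at h
        exact absurd h.symm (L.star_ne s')
    · by_cases hs' : s' = 0
      · rw [hs', Function.update_self, Function.update_of_ne hs] at h
        exact absurd h (L.star_ne s)
      · rw [Function.update_of_ne hs, Function.update_of_ne hs'] at h
        exact L.C_inj h
  star_ne := by
    intro s h
    by_cases hs : s = 0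
    · rw [hs, Function.update_self] at h
      exact L.star_ne 0 h.symm
    · rw [Function.update_of_ne hs] at h
      exact hs (L.C_inj h)
  exh := by
    intro x
    rcases L.exh x with h | ⟨s, hs⟩
    · exact Or.inr ⟨0, by rw [Function.update_self, h]⟩
    · by_cases h0 : s = 0
      · exact Or.inl (by rw [hs, h0])
      · exact Or.inr ⟨s, by rw [Function.update_of_ne h0, hs]⟩
  cl_C := by
    intro s
    by_cases hs : s = 0
    · rw [hs, Function.update_self, L.cl_star]
    · rw [Function.update_of_ne hs, L.cl_C]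
  cl_star := L.cl_C 0
  C_mem := by
    intro s
    by_cases hs : s = 0
    · rw [hs, Function.update_self]; exact hA
    · rw [Function.update_of_ne hs]; exact L.C_mem s
  step := L.step

end Lab

/-- A reptile simplex of dimension `d`, with `X ^ d - k` irreducible, and a cyclic labelling of
its facets. -/
structure Rep (d : ℕ) (ι κ E : Type*) [Fintype ι] [Fintype κ] [NormedAddCommGroup E]
    [InnerProductSpace ℝ E] [FiniteDimensional ℝ E] [MeasurableSpace E] [BorelSpace E] where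
  /-- the tiling -/
  T : Tiling ι κ E
  hd : 5 ≤ d
  odd : Odd d
  fin : finrank ℝ E = d
  card : Fintype.card ι = d + 1
  irr : Irreducible (Polynomial.X ^ d - Polynomial.C ((Fintype.card κ : ℕ) : ℚ) : Polynomial ℚ)
  /-- the labelling -/
  L : Lab d ι T.BB

namespace Rep

variable {d : ℕ} {ι κ E : Type*} [Fintype ι] [Fintype κ] [NormedAddCommGroup E]
    [InnerProductSpace ℝ E] [FiniteDimensional ℝ E] [MeasurableSpace E] [BorelSpace E]

theorem nontrivial (R : Rep d ι κ E) : Nontrivial ι :=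
  Fintype.one_lt_card_iff_nontrivial.1 (by rw [R.card]; have := R.hd; omega)

theorem neZero (R : Rep d ι κ E) : NeZero d := ⟨by have := R.hd; omega⟩

/-- The ratio. -/
noncomputable def lam (R : Rep d ι κ E) : ℝ := R.T.r⁻¹

theorem lam_pos (R : Rep d ι κ E) : 0 < R.lam := inv_pos.2 R.T.r_pos

theorem lam_pow (R : Rep d ι κ E) : R.lam ^ d = (Fintype.card κ : ℕ) := by
  have := R.nontrivial
  have h1 := R.T.card_mul
  rw [R.fin] at h1
  have hr := R.T.r_pos
  rw [lam, inv_pow]
  field_simp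
  linarith

theorem k_pos (R : Rep d ι κ E) : (0 : ℝ) < (Fintype.card κ : ℕ) := by
  rw [← R.lam_pow]; exact pow_pos R.lam_pos _

theorem rel (R : Rep d ι κ E) (i : ι) : ((Fintype.card κ : ℕ) : ℝ) * fn R.T.b i =
    R.lam * ∑ j, (R.T.BB i j : ℝ) * fn R.T.b j := by
  have := R.nontrivial
  have h1 := R.T.facet_rel (by rw [R.fin]; have := R.hd; omega) i
  have hr := R.T.r_pos
  have h2 : R.T.r ^ d = ((Fintype.card κ : ℕ) : ℝ)⁻¹ := by
    rw [← R.lam_pow, lam, inv_pow, inv_inv]
  have hk := R.k_pos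
  rw [R.fin, h2] at h1
  rw [lam]
  field_simp at h1 ⊢
  linarith

/-- The facets labelled by a set of classes. -/
noncomputable def CS (R : Rep d ι κ E) (J : Finset (ZMod d)) : Finset ι :=
  J.map ⟨R.L.C, R.L.C_inj⟩

theorem mem_CS {R : Rep d ι κ E} {J : Finset (ZMod d)} {x : ι} :
    x ∈ R.CS J ↔ ∃ s ∈ J, R.L.C s = x := by
  simp [CS]

theorem C_mem_CS {R : Rep d ι κ E} {J : Finset (ZMod d)} {s : ZMod d} :
    R.L.C s ∈ R.CS J ↔ s ∈ J := by
  rw [mem_CS]
  constructor
  · rintro ⟨s', hs', h⟩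
    rwa [← R.L.C_inj h]
  · intro h
    exact ⟨s, h, rfl⟩

theorem star_notMem_CS {R : Rep d ι κ E} {J : Finset (ZMod d)} : R.L.star ∉ R.CS J := by
  rw [mem_CS]
  rintro ⟨s, -, h⟩
  exact R.L.star_ne s h

theorem card_CS {R : Rep d ι κ E} {J : Finset (ZMod d)} : (R.CS J).card = J.card := by
  rw [CS, card_map]

theorem CS_ne_univ {R : Rep d ι κ E} {J : Finset (ZMod d)} : R.CS J ≠ univ := by
  intro h
  have := mem_univ R.L.star
  rw [← h] at this
  exact star_notMem_CS this

theorem exists_CS {R : Rep d ι κ E} {I : Finset ι} (h : R.L.star ∉ I) :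
    ∃ J : Finset (ZMod d), I = R.CS J := by
  classical
  have := R.neZero
  refine ⟨univ.filter (fun s => R.L.C s ∈ I), ?_⟩
  ext x
  rw [mem_CS]
  constructor
  · intro hx
    rcases R.L.exh x with h1 | ⟨s, hs⟩
    · exact absurd (h1 ▸ hx) h
    · exact ⟨s, by simp [← hs, hx], hs.symm⟩
  · rintro ⟨s, hs, rfl⟩
    simpa using hs

theorem facet_step {R : Rep d ι κ E} {t : κ} {i j : ι} (h : Facet R.T.b (R.T.B t) i j)
    (hi : i ∈ R.L.A) : j ∈ R.L.A ∧ R.L.cl j = R.L.cl i + 1 :=
  R.L.step i hi j ((R.T.BB_pos_iff i j).2 ⟨t, h⟩)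

/-- The step of a minimal face. -/
theorem min_step (R : Rep d ι κ E) {I : Finset ι} (hI : I ≠ univ) (hmin : IsMin R.T.b I) :
    ∃ (t : κ) (J : Finset ι) (π : ι → ι), R.T.Match t I J π ∧ IsMin R.T.b J ∧
      J.card = I.card := by
  obtain ⟨x, -, t, -, π, h1, h2, h3⟩ := R.T.min_step hI hmin (face_nonempty _ hI)
    (openIn_face _ _) (subset_refl _)
  exact ⟨t, _, π, h1, h3, h2⟩

theorem exists_min (R : Rep d ι κ E) {c : ℕ} (hc : c ≤ d + 1) :
    ∃ I : Finset ι, I.card = c ∧ IsMin R.T.b I := by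
  classical
  have hne : (univ.filter (fun I : Finset ι => I.card = c)).Nonempty := by
    obtain ⟨I, -, hI⟩ := exists_subset_card_eq (s := (univ : Finset ι)) (n := c)
      (by rw [card_univ, R.card]; exact hc)
    exact ⟨I, by simp [hI]⟩
  obtain ⟨I, hI, hmin⟩ := exists_min_image _ (D R.T.b) hne
  simp only [mem_filter, mem_univ, true_and] at hI hmin
  exact ⟨I, hI, fun J hJ => hmin J (hJ.trans hI)⟩

theorem ne_univ (R : Rep d ι κ E) {I : Finset ι} (h : I.card ≤ d) : I ≠ univ := by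
  intro h1
  rw [h1, card_univ, R.card] at h
  omega

/-- In a minimal face, `star` and `C 0` do not occur together when `star` is in `A`. -/
theorem min_star {R : Rep d ι κ E} {I : Finset ι} (hI : I ≠ univ) (hmin : IsMin R.T.b I)
    (hA : R.L.star ∈ R.L.A) (hs : R.L.star ∈ I) : R.L.C 0 ∉ I := by
  intro h0
  have := R.hd
  have hfact : Fact (1 < d) := ⟨by omega⟩
  obtain ⟨t, J, π, hm, -, -⟩ := R.min_step hI hmin
  obtain ⟨h1, h2⟩ := facet_step (hm.facet _ hs) hA
  obtain ⟨h3, h4⟩ := facet_step (hm.facet _ h0) (R.L.C_mem 0)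
  rw [R.L.cl_star, zero_add] at h2
  rw [R.L.cl_C, zero_add] at h4
  have h5 := R.L.eq_C_of_cl_ne_zero (x := π R.L.star) (by rw [h2]; exact one_ne_zero)
  have h6 := R.L.eq_C_of_cl_ne_zero (x := π (R.L.C 0)) (by rw [h4]; exact one_ne_zero)
  rw [h2] at h5
  rw [h4] at h6
  exact R.L.star_ne 0 (hm.inj hs h0 (h5.trans h6.symm)).symm

theorem ratio (R : Rep d ι κ E) (n : ℕ) (hn : n < d) :
    InR d R.lam (-(n : ZMod d)) (fn R.T.b (R.L.C n) / fn R.T.b (R.L.C 0)) := by
  have := R.nontrivial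
  have hnz := R.neZero
  have hdd := R.hd
  have hfact : Fact (1 < d) := ⟨by omega⟩
  induction n with
  | zero =>
    rw [Nat.cast_zero, neg_zero, div_self (fn_pos _ _).ne']
    exact InR.one
  | succ n ih =>
    have h1 := ih (by omega)
    have hne : (n : ZMod d) + 1 ≠ 0 := by
      intro h
      have : ((n + 1 : ℕ) : ZMod d) = 0 := by push_cast; exact h
      rw [ZMod.natCast_eq_zero_iff] at this
      exact absurd (Nat.le_of_dvd (by omega) this) (by omega)
    have hrel := R.rel (R.L.C n)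
    have honly : ∀ j, j ≠ R.L.C (n + 1) → R.T.BB (R.L.C n) j = 0 := by
      intro j hj
      by_contra hcon
      obtain ⟨-, h2⟩ := R.L.step _ (R.L.C_mem n) j hcon
      rw [R.L.cl_C] at h2
      have h3 := R.L.eq_C_of_cl_ne_zero (x := j) (by rw [h2]; exact hne)
      rw [h2] at h3
      exact hj h3
    rw [sum_eq_single (R.L.C (n + 1))] at hrel
    · have hf0 := fn_pos R.T.b (R.L.C 0)
      have hfn := fn_pos R.T.b (R.L.C n)
      have hfn1 := fn_pos R.T.b (R.L.C (n + 1))
      have hk := R.k_pos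
      have hl := R.lam_pos
      have hB : (R.T.BB (R.L.C n) (R.L.C (n + 1)) : ℝ) ≠ 0 := by
        intro h0
        rw [h0, zero_mul, mul_zero] at hrel
        have := mul_pos hk hfn
        linarith
      have h2 : fn R.T.b (R.L.C ((n + 1 : ℕ) : ZMod d)) / fn R.T.b (R.L.C 0) =
          ((R.T.BB (R.L.C n) (R.L.C (n + 1)) : ℚ)⁻¹ : ℚ) *
          ((((Fintype.card κ : ℕ) : ℝ) / R.lam) *
            (fn R.T.b (R.L.C n) / fn R.T.b (R.L.C 0))) := by
        push_cast
        field_simp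
        linarith
      rw [h2]
      have h3 : -(((n + 1 : ℕ) : ZMod d)) = -1 + -(n : ZMod d) := by push_cast; ring
      rw [h3]
      exact ((InR.neg_one (by omega) hl R.lam_pow).mul R.lam_pow h1).ratmul _
    · intro j _ hj
      rw [honly j hj]; simp
    · intro h; exact absurd (mem_univ _) h

theorem ratio' (R : Rep d ι κ E) (s : ZMod d) :
    InR d R.lam (-s) (fn R.T.b (R.L.C s) / fn R.T.b (R.L.C 0)) := by
  have := R.neZero
  have h := R.ratio s.val (ZMod.val_lt s)
  rwa [ZMod.natCast_zmod_val] at h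

theorem ratio_star (R : Rep d ι κ E) (hA : R.L.star ∈ R.L.A) :
    InR d R.lam 0 (fn R.T.b R.L.star / fn R.T.b (R.L.C 0)) := by
  have := R.nontrivial
  have hnz := R.neZero
  have hdd := R.hd
  have hfact : Fact (1 < d) := ⟨by omega⟩
  have key : ∀ i ∈ R.L.A, R.L.cl i = 0 → ((Fintype.card κ : ℕ) : ℝ) * fn R.T.b i =
      R.lam * ((R.T.BB i (R.L.C 1) : ℝ) * fn R.T.b (R.L.C 1)) := by
    intro i hi hcl
    rw [R.rel i]
    congr 1
    refine sum_eq_single _ (fun j _ hj => ?_) (fun h => absurd (mem_univ _) h)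
    have : R.T.BB i j = 0 := by
      by_contra hcon
      obtain ⟨-, h2⟩ := R.L.step _ hi j hcon
      rw [hcl, zero_add] at h2
      have h3 := R.L.eq_C_of_cl_ne_zero (x := j) (by rw [h2]; exact one_ne_zero)
      rw [h2] at h3
      exact hj h3
    rw [this]; simp
  have h1 := key _ hA R.L.cl_star
  have h2 := key _ (R.L.C_mem 0) (R.L.cl_C 0)
  have hf0 := fn_pos R.T.b (R.L.C 0)
  have hfs := fn_pos R.T.b R.L.star
  have hf1 := fn_pos R.T.b (R.L.C 1)
  have hk := R.k_pos
  have hl := R.lam_pos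
  refine ⟨(R.T.BB R.L.star (R.L.C 1) : ℚ) / (R.T.BB (R.L.C 0) (R.L.C 1) : ℚ), ?_⟩
  have hB : (R.T.BB (R.L.C 0) (R.L.C 1) : ℝ) ≠ 0 := by
    intro h0
    rw [h0, zero_mul, mul_zero] at h2
    have := mul_pos hk hf0
    linarith
  rw [ZMod.val_zero, pow_zero, mul_one]
  push_cast
  rw [div_eq_div_iff hf0.ne' hB]
  have h3 : ((Fintype.card κ : ℕ) : ℝ) * (fn R.T.b R.L.star * (R.T.BB (R.L.C 0) (R.L.C 1) : ℝ)) =
      ((Fintype.card κ : ℕ) : ℝ) * ((R.T.BB R.L.star (R.L.C 1) : ℝ) * fn R.T.b (R.L.C 0)) := by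
    calc _ = (((Fintype.card κ : ℕ) : ℝ) * fn R.T.b R.L.star) *
          (R.T.BB (R.L.C 0) (R.L.C 1) : ℝ) := by ring
      _ = (R.T.BB R.L.star (R.L.C 1) : ℝ) * (R.lam * ((R.T.BB (R.L.C 0) (R.L.C 1) : ℝ) *
          fn R.T.b (R.L.C 1))) := by rw [h1]; ring
      _ = _ := by rw [← h2]; ring
  exact mul_left_cancel₀ hk.ne' h3

/-- Two different labels have different `fn`. -/
theorem fn_ne (R : Rep d ι κ E) {s s' : ZMod d} (h : s ≠ s') :
    fn R.T.b (R.L.C s) ≠ fn R.T.b (R.L.C s') := by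
  have := R.nontrivial
  have hnz := R.neZero
  intro heq
  have h1 := R.ratio' s
  have h2 := R.ratio' s'
  rw [heq] at h1
  have h3 := InR.unique R.irr R.lam_pos R.lam_pow
    (div_pos (fn_pos R.T.b (R.L.C s')) (fn_pos R.T.b (R.L.C 0))).ne' h1 h2
  exact h (neg_injective h3)

/-- The shift of the labels. -/
noncomputable def shift (R : Rep d ι κ E) : ι → ι := by
  classical
  exact fun x => if x = R.L.star then R.L.star else R.L.C (R.L.cl x + 1)

theorem shift_star (R : Rep d ι κ E) : R.shift R.L.star = R.L.star := by simp [shift]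

theorem shift_C (R : Rep d ι κ E) (s : ZMod d) : R.shift (R.L.C s) = R.L.C (s + 1) := by
  simp [shift, R.L.star_ne s, R.L.cl_C]

theorem shift_bij (R : Rep d ι κ E) : Function.Bijective R.shift := by
  rw [Finite.injective_iff_bijective.symm]
  intro x y h
  rcases R.L.exh x with hx | ⟨s, hx⟩ <;> rcases R.L.exh y with hy | ⟨s', hy⟩
  · rw [hx, hy]
  · rw [hx, hy, shift_star, shift_C] at h
    exact absurd h.symm (R.L.star_ne _)
  · rw [hx, hy, shift_star, shift_C] at h
    exact absurd h (R.L.star_ne _)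
  · rw [hx, hy, shift_C, shift_C] at h
    rw [hx, hy, add_right_cancel (R.L.C_inj h)]

/-- There is no full cyclic symmetry. -/
theorem no_symm (R : Rep d ι κ E)
    (h1 : ∀ s s', mm R.T.b (R.L.C (s + 1)) (R.L.C (s' + 1)) = mm R.T.b (R.L.C s) (R.L.C s'))
    (h2 : ∀ s, mm R.T.b R.L.star (R.L.C (s + 1)) = mm R.T.b R.L.star (R.L.C s)) : False := by
  have := R.nontrivial
  have hdd := R.hd
  have hfact : Fact (1 < d) := ⟨by omega⟩
  let σ : ι ≃ ι := Equiv.ofBijective R.shift R.shift_bij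
  have hσ : ∀ i j, mm R.T.b (σ i) (σ j) = mm R.T.b i j := by
    intro i j
    change mm R.T.b (R.shift i) (R.shift j) = mm R.T.b i j
    rcases R.L.exh i with hx | ⟨s, hx⟩ <;> rcases R.L.exh j with hy | ⟨s', hy⟩
    · rw [hx, hy, shift_star]
    · rw [hx, hy, shift_star, shift_C, h2]
    · rw [hx, hy, shift_star, shift_C, mm_comm, h2, mm_comm]
    · rw [hx, hy, shift_C, shift_C, h1]
  have h3 := fn_symm R.T.b σ hσ R.L.star R.shift_star (R.L.C 0)
  have h4 : σ (R.L.C 0) = R.L.C (0 + 1) := R.shift_C 0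
  rw [h4, zero_add] at h3
  exact R.fn_ne one_ne_zero h3

end Rep

end Pool.Agent.Lib.MP_9fc4df_co
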