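import Pool.Agent.Lib.MP_9fc4df_co.Basic

/-!
Tilings of a simplex by congruent simplices similar to it: local structure.
-/

open MeasureTheory Filter Topology Finset

set_option linter.unusedSectionVars false

namespace Pool.Agent.Lib.MP_9fc4df_co

/-- A tiling of the simplex with vertices `b` by the simplices with vertices `B t`, each of which
is the image of `b` under a similarity of ratio `r`. -/
structure Tiling (ι κ E : Type*) [Fintype ι] [Fintype κ] [NormedAddCommGroup E]
    [InnerProductSpace ℝ E] where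
  /-- the big simplex -/
  b : AffineBasis ι ℝ E
  /-- the tiles -/
  B : κ → AffineBasis ι ℝ E
  /-- the ratio -/
  r : ℝ
  r_pos : 0 < r
  /-- the linear part of the similarity -/
  g : κ → E ≃ₗᵢ[ℝ] E
  sim : ∀ t i j, B t i - B t j = r • g t (b i - b j)
  sub : ∀ t i j, 0 ≤ b.coord i (B t j)
  cover : ∀ x, InS b x → ∃ t, InS (B t) x
  disj : ∀ t t', t ≠ t' → ∀ x, (∀ j, 0 < (B t).coord j x) → ¬ (∀ j, 0 < (B t').coord j x)

section

variable {ι κ E : Type*} [Fintype ι] [Fintype κ] [NormedAddCommGroup E] [InnerProductSpace ℝ E]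

theorem Tiling.lin_tile (T : Tiling ι κ E) (t : κ) (j : ι) (y : E) :
    lin (T.B t) j y = T.r⁻¹ * lin T.b j ((T.g t).symm y) := by
  classical
  have hr := T.r_pos
  rw [eq_inv_mul_iff_mul_eq₀ hr.ne']
  have hne : Nonempty ι := ⟨j⟩
  obtain ⟨p⟩ := hne
  conv_rhs => rw [vec_eq (T.B t) (T.B t p) y]
  simp only [T.sim, map_sum, map_smul, LinearIsometryEquiv.symm_apply_apply, lin_diff,
    smul_eq_mul]
  have h : ∀ i, lin (T.B t) i y * (T.r * ((if j = i then 1 else 0) - if j = p then 1 else 0)) =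
      T.r * (if j = i then lin (T.B t) i y else 0) -
        T.r * (if j = p then 1 else 0) * lin (T.B t) i y := by
    intro i
    split_ifs <;> ring
  simp only [h, sum_sub_distrib, ← mul_sum, sum_lin, mul_zero, sub_zero, sum_ite_eq, mem_univ,
    if_true]

/-- Near a point `x` and in a direction pointing inside, some tile containing `x` contains the
nearby points. -/
theorem Tiling.eventually_tile (T : Tiling ι κ E) {x : E} (hx : InS T.b x) {y : E}
    (hy : ∀ i ∈ Z T.b x, 0 ≤ lin T.b i y) :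
    ∀ᶠ ε in 𝓝[>] (0 : ℝ), ∃ t, InS (T.B t) x ∧ InS (T.B t) (x + ε • y) := by
  have h1 : ∀ t, ∀ᶠ ε in 𝓝[>] (0 : ℝ), InS (T.B t) (x + ε • y) → InS (T.B t) x := by
    intro t
    by_cases ht : InS (T.B t) x
    · exact Eventually.of_forall fun _ _ => ht
    · filter_upwards [(eventually_notIn (T.B t) ht y).filter_mono nhdsWithin_le_nhds] with ε hε h
      exact absurd h hε
  filter_upwards [eventually_all.2 h1, eventually_in T.b hx hy] with ε hε hε2
  obtain ⟨t, ht⟩ := T.cover _ hε2
  exact ⟨t, hε t ht, ht⟩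

/-- `t` is the only tile containing `x`. -/
def Tiling.Only (T : Tiling ι κ E) (t : κ) (x : E) : Prop :=
  InS (T.B t) x ∧ ∀ t', InS (T.B t') x → t' = t

theorem lin_nonneg_of_InS {b : AffineBasis ι ℝ E} {x y : E} {ε : ℝ} (hε : 0 < ε)
    (h : InS b (x + ε • y)) {j : ι} (hj : j ∈ Z b x) : 0 ≤ lin b j y := by
  have := h j
  rw [coord_add_smul, mem_Z.1 hj, zero_add] at this
  exact nonneg_of_mul_nonneg_right this hε

theorem Tiling.Only.cone {T : Tiling ι κ E} {t : κ} {x : E} (h : T.Only t x) {y : E}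
    (hy : ∀ i ∈ Z T.b x, 0 ≤ lin T.b i y) : ∀ j ∈ Z (T.B t) x, 0 ≤ lin (T.B t) j y := by
  intro j hj
  have hx : InS T.b x := pair_InS (fun i j => T.sub t i j) h.1
  have hpos : ∀ᶠ ε in 𝓝[>] (0 : ℝ), 0 < ε := self_mem_nhdsWithin
  obtain ⟨ε, hε, t', ht', hin⟩ := (hpos.and (T.eventually_tile hx hy)).exists
  rw [h.2 t' ht'] at hin
  exact lin_nonneg_of_InS hε hin hj

/-- A matching of the facets `I` of the big simplex with the facets `J` of the tile `t`. -/
structure Tiling.Match (T : Tiling ι κ E) (t : κ) (I J : Finset ι) (π : ι → ι) : Prop where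
  inj : Set.InjOn π I
  maps : ∀ i ∈ I, π i ∈ J
  surj : ∀ j ∈ J, ∃ i ∈ I, π i = j
  facet : ∀ i ∈ I, Facet T.b (T.B t) i (π i)

theorem Tiling.Match.card {T : Tiling ι κ E} {t : κ} {I J : Finset ι} {π : ι → ι}
    (h : T.Match t I J π) : J.card = I.card := by
  classical
  have : J = I.image π := by
    ext j
    rw [mem_image]
    refine ⟨fun hj => h.surj j hj, ?_⟩
    rintro ⟨i, hi, rfl⟩
    exact h.maps i hi
  rw [this, card_image_of_injOn h.inj]

theorem Tiling.Only.exists_match {T : Tiling ι κ E} {t : κ} {x : E} (h : T.Only t x) :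
    ∃ π, T.Match t (Z T.b x) (Z (T.B t) x) π := by
  obtain ⟨π, h1, h2, h3, h4⟩ := matching (fun i j => T.sub t i j) h.1 (fun y hy => h.cone hy)
  exact ⟨π, h1, h2, h3, h4⟩

/-- `G` is relatively open in the directions parallel to the face `I`. -/
def OpenIn (b : AffineBasis ι ℝ E) (I : Finset ι) (G : Set E) : Prop :=
  ∀ x ∈ G, ∀ y, (∀ i ∈ I, lin b i y = 0) → ∀ᶠ ε in 𝓝 (0 : ℝ), x + ε • y ∈ G

/-- The relative interior of the face `I`. -/
def Face (b : AffineBasis ι ℝ E) (I : Finset ι) : Set E :=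
  {x | (∀ i ∈ I, b.coord i x = 0) ∧ ∀ i ∉ I, 0 < b.coord i x}

theorem Face.Z_eq {b : AffineBasis ι ℝ E} {I : Finset ι} {x : E} (h : x ∈ Face b I) :
    Z b x = I := by
  ext i
  rw [mem_Z]
  refine ⟨fun h0 => ?_, fun hi => h.1 i hi⟩
  by_contra hi
  exact absurd h0 (h.2 i hi).ne'

theorem Face.InS {b : AffineBasis ι ℝ E} {I : Finset ι} {x : E} (h : x ∈ Face b I) :
    InS b x := by
  classical
  intro i
  by_cases hi : i ∈ I
  · exact (h.1 i hi).ge
  · exact (h.2 i hi).le

theorem openIn_face (b : AffineBasis ι ℝ E) (I : Finset ι) : OpenIn b I (Face b I) := by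
  classical
  intro x hx y hy
  have h1 : ∀ i, ∀ᶠ ε in 𝓝 (0 : ℝ), i ∉ I → 0 < b.coord i (x + ε • y) := by
    intro i
    by_cases hi : i ∈ I
    · exact Eventually.of_forall fun _ h => absurd hi h
    · filter_upwards [coord_eventually_pos b (hx.2 i hi) y] with ε hε _ using hε
  filter_upwards [eventually_all.2 h1] with ε hε
  refine ⟨fun i hi => ?_, fun i hi => hε i hi⟩
  rw [coord_add_smul, hx.1 i hi, hy i hi, mul_zero, add_zero]

theorem OpenIn.inter {b : AffineBasis ι ℝ E} {I : Finset ι} {G G' : Set E} (h : OpenIn b I G)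
    (h' : OpenIn b I G') : OpenIn b I (G ∩ G') := by
  intro x hx y hy
  filter_upwards [h x hx.1 y hy, h' x hx.2 y hy] with ε h1 h2 using ⟨h1, h2⟩

theorem openIn_of_isOpen (b : AffineBasis ι ℝ E) (I : Finset ι) {G : Set E} (h : IsOpen G) :
    OpenIn b I G := by
  intro x hx y _
  have : Continuous fun ε : ℝ => x + ε • y := by fun_prop
  have h2 := this.tendsto 0
  simp only [zero_smul, add_zero] at h2
  exact h2.eventually (h.mem_nhds hx)

/-- Generic points. -/
theorem Tiling.generic (T : Tiling ι κ E) {I : Finset ι} {G : Set E} (hG : G.Nonempty)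
    (hopen : OpenIn T.b I G) :
    ∃ x ∈ G, ∀ t, InS (T.B t) x → ∀ j ∈ Z (T.B t) x, ∀ y, (∀ i ∈ I, lin T.b i y = 0) →
      lin (T.B t) j y = 0 := by
  classical
  let N : E → ℕ := fun x => (univ.filter (fun t => InS (T.B t) x)).card
  have hmin : ∃ x ∈ G, ∀ x' ∈ G, N x ≤ N x' :=
    ⟨Function.argminOn N G hG, Function.argminOn_mem N G hG, fun x' hx' =>
      Function.argminOn_le N G hx'⟩
  obtain ⟨x, hx, hxmin⟩ := hmin
  refine ⟨x, hx, fun t ht j hj y hy => ?_⟩
  have h1 : ∀ t, ∀ᶠ ε in 𝓝 (0 : ℝ), InS (T.B t) (x + ε • y) → InS (T.B t) x := by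
    intro t
    by_cases ht : InS (T.B t) x
    · exact Eventually.of_forall fun _ _ => ht
    · filter_upwards [eventually_notIn (T.B t) ht y] with ε hε h
      exact absurd h hε
  have h2 : ∀ᶠ ε in 𝓝 (0 : ℝ), InS (T.B t) (x + ε • y) := by
    filter_upwards [eventually_all.2 h1, hopen x hx y hy] with ε hε hεG
    have hsub : univ.filter (fun t => InS (T.B t) (x + ε • y)) ⊆
        univ.filter (fun t => InS (T.B t) x) := by
      intro t' ht'
      simp only [mem_filter, mem_univ, true_and] at ht' ⊢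
      exact hε t' ht'
    have heq := eq_of_subset_of_card_le hsub (hxmin _ hεG)
    have : t ∈ univ.filter (fun t => InS (T.B t) x) := by simpa using ht
    rw [← heq] at this
    simpa using this
  obtain ⟨δ, hδ, hδ2⟩ := Metric.eventually_nhds_iff.1 h2
  have ha := @hδ2 (δ / 2) (by rw [Real.dist_eq, sub_zero, abs_of_pos (by positivity)]; linarith)
  have hb := @hδ2 (-(δ / 2)) (by
    rw [Real.dist_eq, sub_zero, abs_neg, abs_of_pos (by positivity)]; linarith)
  have h3 := ha j
  have h4 := hb j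
  rw [coord_add_smul, mem_Z.1 hj, zero_add] at h3 h4
  have h5 : 0 < δ / 2 := by positivity
  have h6 : 0 ≤ lin (T.B t) j y := nonneg_of_mul_nonneg_right h3 h5
  nlinarith

/-- At a generic point of a face, the faces of the tiles have the same dimension. -/
theorem Tiling.generic_card (T : Tiling ι κ E) {I : Finset ι} (hI : I ≠ univ) {G : Set E}
    (hG : G.Nonempty) (hopen : OpenIn T.b I G) (hGF : G ⊆ Face T.b I) :
    ∃ x ∈ G, ∀ t, InS (T.B t) x → (Z (T.B t) x).card = I.card := by
  classical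
  obtain ⟨x, hx, hgen⟩ := T.generic hG hopen
  refine ⟨x, hx, fun t ht => le_antisymm ?_ ?_⟩
  · obtain ⟨p, hp⟩ : ∃ p, p ∉ I := by
      by_contra hcon
      push Not at hcon
      exact hI (eq_univ_iff_forall.2 hcon)
    exact card_le_of_span (T.B t) T.b (Z_ne_univ _ _) (fun j i => lin (T.B t) j (T.b i - T.b p))
      fun j hj y => lin_span T.b hp _ (hgen t ht j hj) y
  · have := pair_card (fun i j => T.sub t i j) ht
    rwa [Face.Z_eq (hGF hx)] at this

end

section Measure

variable {ι κ E : Type*} [Fintype ι] [Fintype κ] [NormedAddCommGroup E] [InnerProductSpace ℝ E]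
  [FiniteDimensional ℝ E] [MeasurableSpace E] [BorelSpace E]

/-- The open cone of the facets in `I`. -/
def coneSet (b : AffineBasis ι ℝ E) (I : Finset ι) : Set E := {y | ∀ i ∈ I, 0 < lin b i y}

theorem isOpen_coneSet (b : AffineBasis ι ℝ E) (I : Finset ι) : IsOpen (coneSet b I) := by
  have : coneSet b I = ⋂ i ∈ I, {y | 0 < lin b i y} := by
    ext y; simp [coneSet]
  rw [this]
  refine isOpen_biInter_finset fun i _ => ?_
  exact isOpen_lt continuous_const (LinearMap.continuous_of_finiteDimensional _)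

/-- The solid angle of the cone of the facets in `I`. -/
noncomputable def D (b : AffineBasis ι ℝ E) (I : Finset ι) : ℝ :=
  (volume : Measure E).real (coneSet b I ∩ Metric.ball 0 1)

theorem volume_ne_top (s : Set E) : (volume : Measure E) (s ∩ Metric.ball 0 1) ≠ ⊤ :=
  ((measure_mono Set.inter_subset_right).trans_lt measure_ball_lt_top).ne

theorem coneSet_nonempty (b : AffineBasis ι ℝ E) {I : Finset ι} (hI : I ≠ univ) :
    (coneSet b I ∩ Metric.ball 0 1).Nonempty := by
  classical
  obtain ⟨p, hp⟩ : ∃ p, p ∉ I := by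
    by_contra hcon
    push Not at hcon
    exact hI (eq_univ_iff_forall.2 hcon)
  let y : E := ∑ i, (b i - b p)
  have hy : ∀ i ∈ I, 0 < lin b i y := by
    intro i hi
    have hip : i ≠ p := fun h => hp (h ▸ hi)
    have : lin b i y = 1 := by
      simp only [y, map_sum, lin_diff, hip, if_false, sub_zero, sum_ite_eq, mem_univ, if_true]
    rw [this]; exact one_pos
  have hpos : 0 < 1 / (2 * (‖y‖ + 1)) := by positivity
  refine ⟨(1 / (2 * (‖y‖ + 1))) • y, fun i hi => ?_, ?_⟩
  · rw [map_smul, smul_eq_mul]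
    exact mul_pos hpos (hy i hi)
  · rw [mem_ball_zero_iff, norm_smul, Real.norm_of_nonneg hpos.le]
    rw [div_mul_eq_mul_div, div_lt_one (by positivity)]
    have := norm_nonneg y
    linarith

theorem D_pos (b : AffineBasis ι ℝ E) {I : Finset ι} (hI : I ≠ univ) : 0 < D b I := by
  unfold D Measure.real
  refine ENNReal.toReal_pos ?_ (volume_ne_top _)
  exact (((isOpen_coneSet b I).inter Metric.isOpen_ball).measure_pos _
    (coneSet_nonempty b hI)).ne'

theorem Tiling.coneSet_tile (T : Tiling ι κ E) (t : κ) (J : Finset ι) :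
    coneSet (T.B t) J = (T.g t).symm ⁻¹' (coneSet T.b J) := by
  ext y
  simp only [coneSet, Set.mem_ofPred_eq, Set.mem_preimage, T.lin_tile]
  have := inv_pos.2 T.r_pos
  refine forall₂_congr fun i _ => ?_
  constructor
  · intro h; exact pos_of_mul_pos_right h this.le
  · intro h; exact mul_pos this h

theorem D_eq_of_isometry {b b' : AffineBasis ι ℝ E} {I J : Finset ι} (g : E ≃ₗᵢ[ℝ] E)
    (h : coneSet b' J = g ⁻¹' (coneSet b I)) : D b' J = D b I := by
  unfold D
  have h1 : g ⁻¹' (Metric.ball 0 1) = Metric.ball (0 : E) 1 := by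
    ext y; simp
  have h2 : coneSet b' J ∩ Metric.ball 0 1 = g ⁻¹' (coneSet b I ∩ Metric.ball 0 1) := by
    rw [h, Set.preimage_inter, h1]
  rw [h2]
  exact (g.measurePreserving.measureReal_preimage
    ((isOpen_coneSet b I).inter Metric.isOpen_ball).measurableSet.nullMeasurableSet)

theorem Tiling.D_tile (T : Tiling ι κ E) (t : κ) (J : Finset ι) : D (T.B t) J = D T.b J :=
  D_eq_of_isometry (T.g t).symm (T.coneSet_tile t J)

theorem Tiling.coneSet_subset (T : Tiling ι κ E) {t : κ} {x : E} (ht : InS (T.B t) x) :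
    coneSet (T.B t) (Z (T.B t) x) ⊆ coneSet T.b (Z T.b x) :=
  fun _ hy => pair_cone_pos (fun i j => T.sub t i j) ht hy

theorem Tiling.D_le (T : Tiling ι κ E) {t : κ} {x : E} (ht : InS (T.B t) x) :
    D T.b (Z (T.B t) x) ≤ D T.b (Z T.b x) := by
  rw [← T.D_tile t]
  exact measureReal_mono (Set.inter_subset_inter_left _ (T.coneSet_subset ht)) (volume_ne_top _)

theorem Tiling.coneSet_disjoint (T : Tiling ι κ E) {t t' : κ} (hne : t ≠ t') {x : E}
    (ht : InS (T.B t) x) (ht' : InS (T.B t') x) :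
    Disjoint (coneSet (T.B t) (Z (T.B t) x)) (coneSet (T.B t') (Z (T.B t') x)) := by
  rw [Set.disjoint_left]
  intro y hy hy'
  obtain ⟨ε, h1, h2⟩ := ((eventually_pos (T.B t) ht hy).and (eventually_pos (T.B t') ht' hy')).exists
  exact T.disj t t' hne _ h1 h2

theorem Tiling.D_add_le (T : Tiling ι κ E) {t t' : κ} (hne : t ≠ t') {x : E}
    (ht : InS (T.B t) x) (ht' : InS (T.B t') x) :
    D T.b (Z (T.B t) x) + D T.b (Z (T.B t') x) ≤ D T.b (Z T.b x) := by
  rw [← T.D_tile t, ← T.D_tile t']
  unfold D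
  rw [← measureReal_union]
  · refine measureReal_mono ?_ (volume_ne_top _)
    rw [← Set.union_inter_distrib_right]
    exact Set.inter_subset_inter_left _
      (Set.union_subset (T.coneSet_subset ht) (T.coneSet_subset ht'))
  · exact (T.coneSet_disjoint hne ht ht').mono Set.inter_subset_left Set.inter_subset_left
  · exact ((isOpen_coneSet _ _).inter Metric.isOpen_ball).measurableSet

/-- `I` has minimal solid angle among the faces of the same dimension. -/
def IsMin (b : AffineBasis ι ℝ E) (I : Finset ι) : Prop :=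
  ∀ J : Finset ι, J.card = I.card → D b I ≤ D b J

theorem ne_univ_of_card {I J : Finset ι} (h : J.card = I.card) (hI : I ≠ univ) : J ≠ univ := by
  intro h'
  rw [h', card_univ] at h
  exact hI ((card_eq_iff_eq_univ I).1 h.symm)

theorem IsMin.of_le {b : AffineBasis ι ℝ E} {I J : Finset ι} (hI : IsMin b I)
    (hc : J.card = I.card) (hD : D b J ≤ D b I) : IsMin b J :=
  fun K hK => hD.trans (hI K (hK.trans hc))

theorem IsMin.eq {b : AffineBasis ι ℝ E} {I J : Finset ι} (hI : IsMin b I) (hJ : IsMin b J)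
    (hc : J.card = I.card) : D b J = D b I :=
  le_antisymm (hJ I hc.symm) (hI J hc)

/-- (F6) A generic point of a face of minimal solid angle lies in a unique tile. -/
theorem Tiling.min_step (T : Tiling ι κ E) {I : Finset ι} (hI : I ≠ univ) (hmin : IsMin T.b I)
    {G : Set E} (hG : G.Nonempty) (hopen : OpenIn T.b I G) (hGF : G ⊆ Face T.b I) :
    ∃ x ∈ G, ∃ t, T.Only t x ∧ ∃ π, T.Match t I (Z (T.B t) x) π ∧
      (Z (T.B t) x).card = I.card ∧ IsMin T.b (Z (T.B t) x) := by
  classical
  obtain ⟨x, hx, hcard⟩ := T.generic_card hI hG hopen hGF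
  have hZ := Face.Z_eq (hGF hx)
  obtain ⟨t, ht⟩ := T.cover x (Face.InS (hGF hx))
  have honly : T.Only t x := by
    refine ⟨ht, fun t' ht' => ?_⟩
    by_contra hne
    have h1 := T.D_add_le hne ht' ht
    rw [hZ] at h1
    have h2 := hmin _ (hcard t ht)
    have h3 := D_pos T.b (ne_univ_of_card (hcard t' ht') hI)
    linarith
  obtain ⟨π, hπ⟩ := honly.exists_match
  rw [hZ] at hπ
  refine ⟨x, hx, t, honly, π, hπ, hcard t ht, ?_⟩
  have h1 := T.D_le ht
  rw [hZ] at h1
  exact hmin.of_le (hcard t ht) h1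

/-- Every face has a point in its relative interior. -/
theorem face_nonempty (b : AffineBasis ι ℝ E) {I : Finset ι} (hI : I ≠ univ) :
    (Face b I).Nonempty := by
  classical
  have hne : (univ \ I).Nonempty := by
    rw [sdiff_nonempty]
    intro h
    exact hI (subset_antisymm (subset_univ _) h)
  have hc : 0 < ((univ \ I).card : ℝ) := by
    exact_mod_cast card_pos.2 hne
  let w : ι → ℝ := fun i => if i ∈ I then 0 else ((univ \ I).card : ℝ)⁻¹
  have hw : ∑ i, w i = 1 := by
    have : ∑ i, w i = ∑ i ∈ univ \ I, ((univ \ I).card : ℝ)⁻¹ := by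
      rw [← sum_subset (subset_univ (univ \ I))]
      · refine sum_congr rfl fun i hi => ?_
        have : i ∉ I := (mem_sdiff.1 hi).2
        simp [w, this]
      · intro i _ hi
        have : i ∈ I := by
          by_contra h
          exact hi (mem_sdiff.2 ⟨mem_univ _, h⟩)
        simp [w, this]
    rw [this, sum_const, nsmul_eq_mul, mul_inv_cancel₀ hc.ne']
  refine ⟨univ.affineCombination ℝ b w, fun i hi => ?_, fun i hi => ?_⟩
  · rw [b.coord_apply_combination_of_mem (mem_univ i) hw]
    simp [w, hi]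
  · rw [b.coord_apply_combination_of_mem (mem_univ i) hw]
    simp only [w, hi, if_false]
    positivity

end Measure

end Pool.Agent.Lib.MP_9fc4df_co
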