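import Pool.Agent.Lib.MP_9fc4df_co.Grad

/-!
Volumes: the relation between the facets of the tiles and the facets of the big simplex.
-/

open MeasureTheory Filter Topology Finset Module
open scoped RealInnerProductSpace Pointwise

set_option linter.unusedSectionVars false

namespace Pool.Agent.Lib.MP_9fc4df_co

section

variable {ι κ E : Type*} [Fintype ι] [Fintype κ] [NormedAddCommGroup E] [InnerProductSpace ℝ E]
  [FiniteDimensional ℝ E] [MeasurableSpace E] [BorelSpace E]

/-- The simplex as a set. -/
def SS (b : AffineBasis ι ℝ E) : Set E := {x | InS b x}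

theorem mem_SS {b : AffineBasis ι ℝ E} {x : E} : x ∈ SS b ↔ InS b x := Iff.rfl

theorem SS_eq (b : AffineBasis ι ℝ E) : SS b = convexHull ℝ (Set.range b) :=
  (AffineBasis.convexHull_eq_nonneg_coord b).symm

theorem isCompact_SS (b : AffineBasis ι ℝ E) : IsCompact (SS b) := by
  rw [SS_eq]
  exact (Set.finite_range b).isCompact_convexHull ℝ

theorem vol_SS_ne_top (b : AffineBasis ι ℝ E) : (volume : Measure E) (SS b) ≠ ⊤ :=
  (isCompact_SS b).measure_lt_top.ne

theorem continuous_coord (b : AffineBasis ι ℝ E) (i : ι) : Continuous (b.coord i) :=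
  (b.coord i).continuous_of_finiteDimensional

theorem coord_comb (b : AffineBasis ι ℝ E) (w : ι → ℝ) (x : E) (l : ι) :
    b.coord l ((∑ l, w l • b l) + (1 - ∑ l, w l) • x) = w l + (1 - ∑ l, w l) * b.coord l x := by
  have h1 : (∑ l, w l • b l) + (1 - ∑ l, w l) • x =
      ∑ l, (w l + (1 - ∑ l, w l) * b.coord l x) • b l := by
    simp only [add_smul, sum_add_distrib, mul_smul, ← smul_sum, b.linear_combination_coord_eq_self]
  have h2 : ∑ l, (w l + (1 - ∑ l, w l) * b.coord l x) = 1 := by
    simp only [sum_add_distrib, ← mul_sum, b.sum_coord_apply_eq_one]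
    ring
  rw [h1, ← Finset.affineCombination_eq_linear_combination _ _ _ h2,
    b.coord_apply_combination_of_mem (mem_univ l) h2]

theorem SS_ge (b : AffineBasis ι ℝ E) (w : ι → ℝ) (hw : ∑ i, w i < 1) :
    {x | ∀ l, w l ≤ b.coord l x} =
      (fun x => (∑ l, w l • b l) + (1 - ∑ l, w l) • x) '' SS b := by
  have hpos : 0 < 1 - ∑ l, w l := by linarith
  ext y
  constructor
  · intro hy
    let x : E := (1 - ∑ l, w l)⁻¹ • (y - ∑ l, w l • b l)
    have hx : (∑ l, w l • b l) + (1 - ∑ l, w l) • x = y := by
      simp only [x]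
      rw [smul_smul, mul_inv_cancel₀ hpos.ne', one_smul]
      abel
    refine ⟨x, fun l => ?_, hx⟩
    have h1 := coord_comb b w x l
    rw [hx] at h1
    have h2 : w l ≤ b.coord l y := hy l
    by_contra hcon
    push Not at hcon
    have := mul_neg_of_pos_of_neg hpos hcon
    linarith
  · rintro ⟨x, hx, rfl⟩ l
    simp only
    rw [coord_comb]
    have := mul_nonneg hpos.le (hx l)
    linarith

theorem vol_ge (b : AffineBasis ι ℝ E) (w : ι → ℝ) (hw : ∑ i, w i < 1) :
    (volume : Measure E).real {x | ∀ l, w l ≤ b.coord l x} =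
      (1 - ∑ i, w i) ^ finrank ℝ E * (volume : Measure E).real (SS b) := by
  have hpos : 0 < 1 - ∑ l, w l := by linarith
  rw [SS_ge b w hw]
  have h1 : (fun x => (∑ l, w l • b l) + (1 - ∑ l, w l) • x) '' SS b =
      (fun x => (∑ l, w l • b l) + x) '' ((1 - ∑ l, w l) • SS b) := by
    rw [← Set.image_smul, Set.image_image]
  rw [h1, Measure.real, Set.image_add_left, measure_preimage_add, Measure.addHaar_smul,
    ENNReal.toReal_mul, ENNReal.toReal_ofReal (abs_nonneg _), abs_of_pos (pow_pos hpos _)]
  rfl

theorem vol_SS_pos (b : AffineBasis ι ℝ E) : 0 < (volume : Measure E).real (SS b) := by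
  refine ENNReal.toReal_pos ?_ (vol_SS_ne_top b)
  have hopen : IsOpen {x | ∀ i, 0 < b.coord i x} := by
    have : {x | ∀ i, 0 < b.coord i x} = ⋂ i, {x | 0 < b.coord i x} := by
      ext y; simp
    rw [this]
    exact isOpen_iInter_of_finite fun i => isOpen_lt continuous_const (continuous_coord b i)
  have hne : {x | ∀ i, 0 < b.coord i x}.Nonempty := by
    obtain ⟨x, hx⟩ := face_nonempty b (I := ∅) (by
      intro h
      obtain ⟨i⟩ := b.nonempty
      have := mem_univ i
      rw [← h] at this
      exact notMem_empty _ this)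
    exact ⟨x, fun i => hx.2 i (notMem_empty i)⟩
  have h1 := hopen.measure_pos (volume : Measure E) hne
  have h2 : {x | ∀ i, 0 < b.coord i x} ⊆ SS b := fun x hx i => (hx i).le
  exact (h1.trans_le (measure_mono h2)).ne'

/-- The image of the big simplex is the tile. -/
theorem Tiling.coord_image (T : Tiling ι κ E) (t : κ) (p : ι) (x : E) (j : ι) :
    (T.B t).coord j (T.B t p + T.r • T.g t (x - T.b p)) = T.b.coord j x := by
  classical
  rw [coord_add, T.lin_tile, map_smul, LinearIsometryEquiv.symm_apply_apply, map_smul,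
    smul_eq_mul, ← mul_assoc, inv_mul_cancel₀ T.r_pos.ne', one_mul, lin_sub, AffineBasis.coord_apply,
    AffineBasis.coord_apply]
  ring

theorem Tiling.vol_tile (T : Tiling ι κ E) (t : κ) :
    (volume : Measure E).real (SS (T.B t)) =
      T.r ^ finrank ℝ E * (volume : Measure E).real (SS T.b) := by
  classical
  obtain ⟨p⟩ := T.b.nonempty
  have hr := T.r_pos
  have h1 : SS (T.B t) = (fun x => T.B t p + x) '' (T.r • ((T.g t).symm ⁻¹'
      ((fun x => T.b p + x) ⁻¹' SS T.b))) := by
    ext y
    constructor
    · intro hy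
      refine ⟨y - T.B t p, ?_, by simp⟩
      rw [Set.mem_smul_set]
      refine ⟨T.r⁻¹ • (y - T.B t p), ?_, by rw [smul_smul, mul_inv_cancel₀ hr.ne', one_smul]⟩
      simp only [Set.mem_preimage, mem_SS]
      intro j
      have := T.coord_image t p (T.b p + (T.g t).symm (T.r⁻¹ • (y - T.B t p))) j
      rw [← this, add_sub_cancel_left, LinearIsometryEquiv.apply_symm_apply, smul_smul,
        mul_inv_cancel₀ hr.ne', one_smul, add_sub_cancel]
      exact hy j
    · rintro ⟨z, hz, rfl⟩
      rw [Set.mem_smul_set] at hz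
      obtain ⟨u, hu, rfl⟩ := hz
      simp only [Set.mem_preimage, mem_SS] at hu ⊢
      intro j
      have := T.coord_image t p (T.b p + (T.g t).symm u) j
      rw [add_sub_cancel_left, LinearIsometryEquiv.apply_symm_apply] at this
      rw [this]
      exact hu j
  rw [h1, Measure.real, Set.image_add_left, measure_preimage_add, Measure.addHaar_smul,
    ENNReal.toReal_mul, ENNReal.toReal_ofReal (abs_nonneg _), abs_of_pos (pow_pos hr _)]
  congr 1
  have hm : MeasurableSet (SS T.b) := (isCompact_SS T.b).isClosed.measurableSet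
  rw [((T.g t).symm).measurePreserving.measure_preimage, measure_preimage_add]
  · rfl
  · exact (measurable_const_add _ hm).nullMeasurableSet

theorem hyperplane_null [Nontrivial ι] (b : AffineBasis ι ℝ E) (i : ι) :
    (volume : Measure E) {x | b.coord i x = 0} = 0 := by
  let s : AffineSubspace ℝ E :=
    { carrier := {x | b.coord i x = 0}
      smul_vsub_vadd_mem' := by
        intro c p1 p2 p3 h1 h2 h3
        have h1' : b.coord i p1 = 0 := h1
        have h2' : b.coord i p2 = 0 := h2
        have h3' : b.coord i p3 = 0 := h3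
        change b.coord i _ = 0
        rw [vsub_eq_sub, vadd_eq_add, add_comm, coord_add, map_smul, lin_sub, h1', h2', h3']
        simp }
  have hs : s ≠ ⊤ := by
    intro h
    have : b i ∈ s := by rw [h]; exact AffineSubspace.mem_top ℝ E _
    have h2 : b.coord i (b i) = 0 := this
    rw [b.coord_apply_eq] at h2
    norm_num at h2
  exact Measure.addHaar_affineSubspace volume s hs

theorem Tiling.vol_add [Nontrivial ι] (T : Tiling ι κ E) {P : Set E} (hP : MeasurableSet P) :
    (volume : Measure E).real (SS T.b ∩ P) = ∑ t, (volume : Measure E).real (SS (T.B t) ∩ P) := by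
  classical
  have h1 : SS T.b ∩ P = ⋃ t ∈ (univ : Finset κ), (SS (T.B t) ∩ P) := by
    ext x
    simp only [Set.mem_inter_iff, mem_SS, mem_univ, Set.iUnion_true, Set.mem_iUnion]
    constructor
    · rintro ⟨hx, hxP⟩
      obtain ⟨t, ht⟩ := T.cover x hx
      exact ⟨t, ht, hxP⟩
    · rintro ⟨t, ht, hxP⟩
      exact ⟨pair_InS (fun i j => T.sub t i j) ht, hxP⟩
  have hfin : ∀ t ∈ (univ : Finset κ), (volume : Measure E) (SS (T.B t) ∩ P) ≠ ⊤ := fun t _ =>
    ((measure_mono Set.inter_subset_left).trans_lt (isCompact_SS (T.B t)).measure_lt_top).ne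
  rw [h1, measureReal_biUnion_finset₀ _ _ hfin]
  · intro t _ t' _ hne
    have hsub : (SS (T.B t) ∩ P) ∩ (SS (T.B t') ∩ P) ⊆
        (⋃ j, {x | (T.B t).coord j x = 0}) ∪ (⋃ j, {x | (T.B t').coord j x = 0}) := by
      rintro x ⟨⟨hx, -⟩, ⟨hx', -⟩⟩
      by_contra hcon
      simp only [Set.mem_union, Set.mem_iUnion, not_or, not_exists] at hcon
      refine T.disj t t' hne x (fun j => ?_) (fun j => ?_)
      · exact lt_of_le_of_ne (hx j) (fun h => hcon.1 j h.symm)
      · exact lt_of_le_of_ne (hx' j) (fun h => hcon.2 j h.symm)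
    refine measure_mono_null hsub (measure_union_null ?_ ?_)
    · exact measure_iUnion_null fun j => hyperplane_null (T.B t) j
    · exact measure_iUnion_null fun j => hyperplane_null (T.B t') j
  · intro t _
    exact ((isCompact_SS (T.B t)).isClosed.measurableSet.inter hP).nullMeasurableSet

/-- The number of tiles times `r ^ d` is one. -/
theorem Tiling.card_mul [Nontrivial ι] (T : Tiling ι κ E) :
    (Fintype.card κ : ℝ) * T.r ^ finrank ℝ E = 1 := by
  have h1 := T.vol_add MeasurableSet.univ
  simp only [Set.inter_univ, T.vol_tile, sum_const, card_univ, nsmul_eq_mul] at h1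
  have h2 := vol_SS_pos T.b
  have h3 : (Fintype.card κ : ℝ) * T.r ^ finrank ℝ E * (volume : Measure E).real (SS T.b) =
      1 * (volume : Measure E).real (SS T.b) := by
    rw [one_mul, mul_assoc]; exact h1.symm
  exact mul_right_cancel₀ h2.ne' h3

/-- The volume of the part of the simplex near a facet. -/
theorem vol_lt (b : AffineBasis ι ℝ E) (i : ι) {δ : ℝ} (h0 : 0 ≤ δ) (h1 : δ < 1) :
    (volume : Measure E).real (SS b ∩ {x | b.coord i x < δ}) =
      (1 - (1 - δ) ^ finrank ℝ E) * (volume : Measure E).real (SS b) := by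
  classical
  have h2 := vol_ge b (fun l => if l = i then δ else 0) (by simpa using h1)
  simp only [sum_ite_eq', mem_univ, if_true] at h2
  have h3 : {x | ∀ l, (if l = i then δ else 0) ≤ b.coord l x} =
      SS b ∩ {x | δ ≤ b.coord i x} := by
    ext x
    constructor
    · intro hx
      have hxi := hx i
      simp only [if_true] at hxi
      refine ⟨fun l => ?_, hxi⟩
      have := hx l
      split_ifs at this with hl
      · linarith
      · exact this
    · rintro ⟨hx, hxi⟩ l
      split_ifs with hl
      · rw [hl]; exact hxi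
      · exact hx l
  have h4 : SS b = (SS b ∩ {x | b.coord i x < δ}) ∪ (SS b ∩ {x | δ ≤ b.coord i x}) := by
    ext x
    simp only [Set.mem_union, Set.mem_inter_iff, Set.mem_ofPred_eq]
    constructor
    · intro hx
      rcases lt_or_ge (b.coord i x) δ with h | h
      · exact Or.inl ⟨hx, h⟩
      · exact Or.inr ⟨hx, h⟩
    · rintro (h | h) <;> exact h.1
  have hfin : ∀ s : Set E, (volume : Measure E) (SS b ∩ s) ≠ ⊤ := fun s =>
    ((measure_mono Set.inter_subset_left).trans_lt (isCompact_SS b).measure_lt_top).ne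
  have h5 : (volume : Measure E).real (SS b) = (volume : Measure E).real
      (SS b ∩ {x | b.coord i x < δ}) + (volume : Measure E).real (SS b ∩ {x | δ ≤ b.coord i x}) := by
    conv_lhs => rw [h4]
    rw [measureReal_union _ _ (hfin _) (hfin _)]
    · rw [Set.disjoint_left]
      rintro x ⟨-, hx⟩ ⟨-, hx'⟩
      simp only [Set.mem_ofPred_eq] at hx hx'
      exact absurd hx' (not_le.2 hx)
    · exact (isCompact_SS b).isClosed.measurableSet.inter
        (isClosed_le continuous_const (continuous_coord b i)).measurableSet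
  rw [h3] at h2
  rw [h2] at h5
  linarith

/-- The volume of the part of the simplex near two facets. -/
theorem vol_lt_lt (b : AffineBasis ι ℝ E) {i j : ι} (hij : i ≠ j) {δ δ' : ℝ} (h0 : 0 ≤ δ)
    (h0' : 0 ≤ δ') (h1 : δ + δ' < 1) :
    (volume : Measure E).real (SS b ∩ {x | b.coord i x < δ ∧ b.coord j x < δ'}) =
      (1 - (1 - δ) ^ finrank ℝ E - (1 - δ') ^ finrank ℝ E + (1 - δ - δ') ^ finrank ℝ E) *
        (volume : Measure E).real (SS b) := by
  classical
  have hw : ∑ l, (if l = i then δ else if l = j then δ' else 0) = δ + δ' := by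
    have : ∀ l, (if l = i then δ else if l = j then δ' else 0) =
        (if l = i then δ else 0) + (if l = j then δ' else 0) := by
      intro l
      split_ifs with h h'
      · exact absurd (h.symm.trans h') hij
      · simp
      · simp
      · simp
    simp only [this, sum_add_distrib, sum_ite_eq', mem_univ, if_true]
  have h2 := vol_ge b (fun l => if l = i then δ else if l = j then δ' else 0) (by rw [hw]; exact h1)
  rw [hw] at h2
  have h3 : {x | ∀ l, (if l = i then δ else if l = j then δ' else 0) ≤ b.coord l x} =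
      SS b ∩ {x | δ ≤ b.coord i x ∧ δ' ≤ b.coord j x} := by
    ext x
    constructor
    · intro hx
      have hxi := hx i
      have hxj := hx j
      simp only [if_true, if_neg (Ne.symm hij)] at hxi hxj
      refine ⟨fun l => ?_, hxi, hxj⟩
      have := hx l
      split_ifs at this with hl hl'
      · linarith
      · linarith
      · exact this
    · rintro ⟨hx, hxi, hxj⟩ l
      split_ifs with hl hl'
      · rw [hl]; exact hxi
      · rw [hl']; exact hxj
      · exact hx l
  have hfin : ∀ s : Set E, (volume : Measure E) (SS b ∩ s) ≠ ⊤ := fun s =>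
    ((measure_mono Set.inter_subset_left).trans_lt (isCompact_SS b).measure_lt_top).ne
  have hmS := (isCompact_SS b).isClosed.measurableSet
  have hmi : MeasurableSet {x | b.coord i x < δ} :=
    (isOpen_lt (continuous_coord b i) continuous_const).measurableSet
  have hmj : MeasurableSet {x | b.coord j x < δ'} :=
    (isOpen_lt (continuous_coord b j) continuous_const).measurableSet
  -- inclusion-exclusion
  have h4 : (volume : Measure E).real (SS b ∩ {x | δ ≤ b.coord i x ∧ δ' ≤ b.coord j x}) =
      (volume : Measure E).real (SS b) - (volume : Measure E).real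
        ((SS b ∩ {x | b.coord i x < δ}) ∪ (SS b ∩ {x | b.coord j x < δ'})) := by
    have : SS b ∩ {x | δ ≤ b.coord i x ∧ δ' ≤ b.coord j x} =
        SS b \ ((SS b ∩ {x | b.coord i x < δ}) ∪ (SS b ∩ {x | b.coord j x < δ'})) := by
      ext x
      simp only [Set.mem_inter_iff, Set.mem_ofPred_eq, Set.mem_sdiff, Set.mem_union, not_or,
        not_and, not_lt]
      constructor
      · rintro ⟨h, h', h''⟩; exact ⟨h, fun _ => h', fun _ => h''⟩
      · rintro ⟨h, h', h''⟩; exact ⟨h, h' h, h'' h⟩
    rw [this, measureReal_sdiff _ _ (isCompact_SS b).measure_lt_top.ne]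
    · exact Set.union_subset Set.inter_subset_left Set.inter_subset_left
    · exact (hmS.inter hmi).union (hmS.inter hmj)
  have h5 := measureReal_union_add_inter (μ := (volume : Measure E))
    (s := SS b ∩ {x | b.coord i x < δ}) (hmS.inter hmj) (hfin _) (hfin _)
  have h6 : (SS b ∩ {x | b.coord i x < δ}) ∩ (SS b ∩ {x | b.coord j x < δ'}) =
      SS b ∩ {x | b.coord i x < δ ∧ b.coord j x < δ'} := by
    ext x
    simp only [Set.mem_inter_iff, Set.mem_ofPred_eq]
    tauto
  rw [h6, vol_lt b i h0 (by linarith), vol_lt b j h0' (by linarith)] at h5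
  rw [h3, h4] at h2
  have h7 : 1 - (δ + δ') = 1 - δ - δ' := by ring
  rw [h7] at h2
  linarith

end

end Pool.Agent.Lib.MP_9fc4df_co
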